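import Pool.Agent.P.MP_3c2f8c_gt.E6.An.Defs

/-! E6AN-Param: smoothness of parametric integrals. -/

namespace Pool.Agent.P.MP_3c2f8c_gt.E6

open Matrix MeasureTheory Topology

namespace ParamAux

variable {A B Y : Type} [NormedAddCommGroup A] [NormedSpace ℝ A]
  [FiniteDimensional ℝ A] [NormedAddCommGroup B] [NormedSpace ℝ B] [TopologicalSpace Y]
  [T2Space Y] [SecondCountableTopology Y] [MeasurableSpace Y] [BorelSpace Y] (ν : Measure Y)
  [IsFiniteMeasureOnCompacts ν] {C : Set Y} {a : Y → B} {f : Y → ℝ}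

theorem hasFDerivAt (hC : IsCompact C) (ha : Continuous a) (hf : Continuous f) {E : Type}
    [NormedAddCommGroup E] [NormedSpace ℝ E] {Φ : A × B → E} (hΦ : ContDiff ℝ (⊤ : ℕ∞) Φ)
    (M : A) : HasFDerivAt (fun M : A => ∫ y in C, f y • Φ (M, a y) ∂ν)
      (∫ y in C, f y • (fderiv ℝ Φ (M, a y)).comp (ContinuousLinearMap.inl ℝ A B) ∂ν) M := by
  have := FiniteDimensional.proper_real A
  have h1 : ∀ M, Continuous fun y => f y • Φ (M, a y) := fun M =>
    hf.smul (hΦ.continuous.comp (continuous_const.prodMk ha))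
  have h2 : Continuous fun p : A × Y =>
      f p.2 • (fderiv ℝ Φ (p.1, a p.2)).comp (ContinuousLinearMap.inl ℝ A B) :=
    (hf.comp continuous_snd).smul (((hΦ.continuous_fderiv (by simp)).comp
      (continuous_fst.prodMk (ha.comp continuous_snd))).clm_comp continuous_const)
  obtain ⟨c, hc⟩ := ((isCompact_closedBall M 1).prod hC).exists_bound_of_continuousOn
    h2.continuousOn
  refine hasFDerivAt_integral_of_dominated_of_fderiv_le (bound := fun _ => c)
    (F' := fun M y => f y • (fderiv ℝ Φ (M, a y)).comp (ContinuousLinearMap.inl ℝ A B))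
    (Metric.closedBall_mem_nhds M one_pos)
    (.of_forall fun M => (h1 M).aestronglyMeasurable)
    ((h1 M).continuousOn.integrableOn_compact hC)
    (h2.comp (continuous_const.prodMk continuous_id)).aestronglyMeasurable
    ((ae_restrict_mem hC.measurableSet).mono fun y hy x hx => hc (x, y) ⟨hx, hy⟩)
    (continuousOn_const.integrableOn_compact hC) (.of_forall fun y x _ => ?_)
  exact ((hΦ.differentiable (by simp) (x, a y)).hasFDerivAt.comp x
    (hasFDerivAt_prodMk_left x (a y))).const_smul (f y)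

theorem contDiff (hC : IsCompact C) (ha : Continuous a) (hf : Continuous f) (n : ℕ) {E : Type}
    [NormedAddCommGroup E] [NormedSpace ℝ E] {Φ : A × B → E} (hΦ : ContDiff ℝ (⊤ : ℕ∞) Φ) :
    ContDiff ℝ n fun M : A => ∫ y in C, f y • Φ (M, a y) ∂ν := by
  induction n generalizing E with
  | zero =>
    exact contDiff_zero.mpr (continuous_iff_continuousAt.mpr fun M =>
      (hasFDerivAt ν hC ha hf hΦ M).continuousAt)
  | succ n ih =>
    refine contDiff_succ_iff_hasFDerivAt.mpr ⟨_, ?_, hasFDerivAt ν hC ha hf hΦ⟩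
    exact ih (Φ := fun p => (fderiv ℝ Φ p).comp (ContinuousLinearMap.inl ℝ A B))
      ((hΦ.fderiv_right (by simp)).clm_comp contDiff_const)

end ParamAux

theorem contDiff_param {A B Y : Type} [NormedAddCommGroup A] [NormedSpace ℝ A]
    [FiniteDimensional ℝ A] [NormedAddCommGroup B] [NormedSpace ℝ B] [TopologicalSpace Y]
    [T2Space Y] [SecondCountableTopology Y] [MeasurableSpace Y] [BorelSpace Y] (ν : Measure Y)
    [IsFiniteMeasureOnCompacts ν] {C : Set Y} (hC : IsCompact C) {Φ : A × B → ℝ}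
    (hΦ : ContDiff ℝ (⊤ : ℕ∞) Φ) {a : Y → B} (ha : Continuous a) {f : Y → ℝ}
    (hf : Continuous f) :
    ContDiff ℝ (⊤ : ℕ∞) fun M : A => ∫ y in C, Φ (M, a y) * f y ∂ν := by
  simp only [mul_comm _ (f _)]
  exact contDiff_infty.mpr fun n => ParamAux.contDiff ν hC ha hf n hΦ

end Pool.Agent.P.MP_3c2f8c_gt.E6
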