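import Pool.Agent.P.MP_3c2f8c_gt.E6.An.Norm
import Pool.Agent.P.MP_3c2f8c_gt.E6.An.Param

/-! E6AN-Bump: smoothing kernels. -/

namespace Pool.Agent.P.MP_3c2f8c_gt.E6

open Matrix MeasureTheory Topology

variable {ι : Type} [Fintype ι] [DecidableEq ι] {β : Tens ι ℝ} {θ : AutL β}

namespace BumpAux

theorem reg {φ : AutL β → ℝ} {F : (ι → ι → ℝ) → ℝ} (hF : ContDiff ℝ (⊤ : ℕ∞) F)
    (e : ∀ g, φ g = F fun i j => g.1.1 i j) (hs : HasCompactSupport φ) (hi : ∀ g, φ g⁻¹ = φ g)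
    {f : AutL β → ℝ} (hf : Continuous f) : Smooth (cv φ f) := by
  intro x₀
  obtain ⟨V, hV, hx⟩ := exists_compact_mem_nhds x₀
  have hC : IsCompact (Set.image2 (· * ·) V (tsupport φ)) := hV.mul hs
  refine ⟨_, contDiff_param (mu β) hC
    (Φ := fun p : (ι → ι → ℝ) × (ι → ι → ℝ) => F fun i j => ∑ k, p.2 i k * p.1 k j)
    (hF.comp (by fun_prop)) (a := fun y i j => (y⁻¹).1.1 i j)
    (continuous_val.comp continuous_inv) hf, ?_⟩
  filter_upwards [hx] with x hx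
  rw [cv, ← setIntegral_eq_integral_of_forall_compl_eq_zero (s := Set.image2 (· * ·) V (tsupport φ))]
  · refine integral_congr_ae (Filter.Eventually.of_forall fun y => ?_)
    dsimp only
    rw [← hi, _root_.mul_inv_rev, inv_inv, e]
    rfl
  · intro y hy
    refine mul_eq_zero_of_left ?_ _
    by_contra c
    exact hy ⟨x, hx, _, subset_tsupport φ c, mul_inv_cancel_left x y⟩

theorem exists_NN (hθ : IsCartan θ) : ∃ N : (ι → ι → ℝ) → ℝ, ContDiff ℝ (⊤ : ℕ∞) N ∧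
    ∀ g, NN θ g = N fun i j => g.1.1 i j := by
  refine ⟨fun M => (θ.1.1 * ((kilM β)⁻¹ * (Matrix.of M)ᵀ * kilM β) * θ.1.1 * Matrix.of M).trace,
    ?_, NN_eq hθ⟩
  simp only [Matrix.trace, Matrix.diag, Matrix.mul_apply, transpose_apply, of_apply]
  fun_prop

end BumpAux

theorem exists_ker (hθ : IsCartan θ) {δ : ℝ} (hδ : 0 < δ) : ∃ φ : AutL β → ℝ, Ker θ δ φ := by
  obtain ⟨N, hN, e⟩ := BumpAux.exists_NN hθ
  obtain ⟨ψ, hψ⟩ : ∃ ψ : AutL β → ℝ, ∀ g, ψ g = expNegInvGlue (Fintype.card ι + δ - NN θ g) :=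
    ⟨_, fun _ => rfl⟩
  have near : ∀ g, ψ g ≠ 0 → NN θ g ≤ Fintype.card ι + δ := fun g h => by
    by_contra c
    exact h ((hψ g).trans (expNegInvGlue.zero_of_nonpos (by linarith)))
  have supp : HasCompactSupport ψ := HasCompactSupport.intro (isCompact_NN hθ _) fun g hg => by
    by_contra c
    exact hg (near g c)
  have cont : Continuous ψ := by
    rw [funext hψ]
    exact (expNegInvGlue.contDiff (n := 0)).continuous.comp (continuous_const.sub continuous_NN)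
  have nonneg : ∀ g, 0 ≤ ψ g := fun g => (hψ g).symm ▸ expNegInvGlue.nonneg _
  have pos : 0 < ∫ g, ψ g ∂mu β :=
    cont.integral_pos_of_hasCompactSupport_nonneg_nonzero supp nonneg (x := 1) (by
      rw [hψ, NN_one hθ, add_sub_cancel_left]
      exact (expNegInvGlue.pos_of_pos hδ).ne')
  generalize hc : ∫ g, ψ g ∂mu β = c at pos
  have hF : ContDiff ℝ (⊤ : ℕ∞) fun M => c⁻¹ * expNegInvGlue (Fintype.card ι + δ - N M) :=
    contDiff_const.mul (expNegInvGlue.contDiff.comp (contDiff_const.sub hN))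
  have e' : ∀ g, c⁻¹ * ψ g = c⁻¹ * expNegInvGlue (Fintype.card ι + δ - N fun i j => g.1.1 i j) :=
    fun g => by rw [hψ, e]
  have symm : ∀ g, c⁻¹ * ψ g⁻¹ = c⁻¹ * ψ g := fun g => by rw [hψ, hψ, NN_inv]
  exact ⟨fun g => c⁻¹ * ψ g, fun g => ⟨_, hF, Filter.Eventually.of_forall e'⟩, supp.mul_left,
    fun g => mul_nonneg (inv_pos.2 pos).le (nonneg g),
    by rw [integral_const_mul, hc, inv_mul_cancel₀ pos.ne'], symm,
    fun u hu g => by rw [hψ, hψ, NN_mul_left hu], fun g h => near g (right_ne_zero_of_mul h),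
    fun f hf => BumpAux.reg hF e' supp.mul_left symm hf⟩

end Pool.Agent.P.MP_3c2f8c_gt.E6
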