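import Pool.Agent.P.MP_3c2f8c_gt.E6.An.Smo

/-! E6AN-Lap1: the Casimir operator as a polynomial in vector fields. -/

namespace Pool.Agent.P.MP_3c2f8c_gt.E6

open Matrix MeasureTheory Topology

variable {ι : Type} [Fintype ι] [DecidableEq ι] {β : Tens ι ℝ} {θ : AutL β}
  {f h : AutL β → ℝ}

namespace Lap1Aux

theorem diff (hL : IsLie β) (hf : Smooth f) (g : AutL β) : Differentiable ℝ (chart f g) :=
  (hf.contDiff_chart hL g).differentiable (by simp)

theorem diff2 (hL : IsLie β) (hf : Smooth f) (g : AutL β) :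
    Differentiable ℝ (fderiv ℝ (chart f g)) :=
  ((hf.contDiff_chart hL g).fderiv_right (m := (⊤ : ℕ∞)) le_rfl).differentiable (by simp)

theorem LD_add (hL : IsLie β) (hf : Smooth f) (hh : Smooth h) (X : ι → ℝ) :
    LD X (fun g => f g + h g) = fun g => LD X f g + LD X h g := by
  funext g
  have e : chart (fun g => f g + h g) g = fun x => chart f g x + chart h g x :=
    funext fun x => by simp only [chart_eq hL]
  rw [LD, e, fderiv_fun_add (diff hL hf g 0) (diff hL hh g 0)]
  rfl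

theorem LD_scal (hL : IsLie β) (hf : Smooth f) (c : ℝ) (X : ι → ℝ) :
    LD X (fun g => c * f g) = fun g => c * LD X f g := by
  funext g
  have e : chart (fun g => c * f g) g = fun x => c * chart f g x :=
    funext fun x => by simp only [chart_eq hL]
  rw [LD, e, fderiv_const_mul (diff hL hf g 0)]
  rfl

theorem LD_add_left (X Y : ι → ℝ) : LD (X + Y) f = fun g => LD X f g + LD Y f g :=
  funext fun _ => map_add _ X Y

theorem LD_LD (hL : IsLie β) (hf : Smooth f) (X : ι → ℝ) (g : AutL β) :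
    LD X (LD X f) g = fderiv ℝ (fderiv ℝ (chart f g)) 0 X X := by
  have hl : ∀ s : ℝ, HasDerivAt (fun t : ℝ => t • X) X s := fun s => by
    simpa only [one_smul] using (hasDerivAt_id' s).smul_const X
  have h1 : (fun s : ℝ => LD X f (g * eA β (s • X))) =
      fun s : ℝ => fderiv ℝ (chart f g) (s • X) X := by
    funext s
    refine (hf.hasDerivAt hL X g s).unique ?_
    simp only [← chart_eq hL]
    exact (diff hL hf g (s • X)).hasFDerivAt.comp_hasDerivAt s (hl s)
  have h2 := (hf.ld hL X).hasDerivAt hL X g 0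
  rw [h1, zero_smul, eA_zero, mul_one] at h2
  refine h2.unique ?_
  have h3 := (diff2 hL hf g ((0 : ℝ) • X)).hasFDerivAt.comp_hasDerivAt (0 : ℝ) (hl 0)
  rw [zero_smul] at h3
  exact (ContinuousLinearMap.apply ℝ ℝ X).hasFDerivAt.comp_hasDerivAt (0 : ℝ) h3

theorem pd_pd (hL : IsLie β) (hf : Smooth f) (g : AutL β) (i j : ι) :
    pd i (pd j (chart f g)) 0 =
      fderiv ℝ (fderiv ℝ (chart f g)) 0 (Pi.single i 1) (Pi.single j 1) := by
  have h1 := (ContinuousLinearMap.apply ℝ ℝ (Pi.single j 1 : ι → ℝ)).hasFDerivAt.comp 0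
    (diff2 hL hf g 0).hasFDerivAt
  exact congrArg (fun T => T (Pi.single i 1)) h1.fderiv

theorem polar (hL : IsLie β) (hf : Smooth f) (X Y : ι → ℝ) (g : AutL β) :
    LD X (LD Y f) g + LD Y (LD X f) g =
      fderiv ℝ (fderiv ℝ (chart f g)) 0 X Y + fderiv ℝ (fderiv ℝ (chart f g)) 0 Y X := by
  have h1 := LD_LD hL hf (X + Y) g
  rw [LD_add_left (f := f), LD_add hL (hf.ld hL X) (hf.ld hL Y)] at h1
  simp only [LD_add_left, map_add, ContinuousLinearMap.add_apply] at h1
  linarith [LD_LD hL hf X g, LD_LD hL hf Y g]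

omit [DecidableEq ι] in
theorem sum_symm {B : Matrix ι ι ℝ} (hB : ∀ i j, B i j = B j i) {a d : ι → ι → ℝ}
    (h : ∀ i j, a i j + a j i = d i j + d j i) :
    ∑ i, ∑ j, B i j * a i j = ∑ i, ∑ j, B i j * d i j := by
  have e : ∀ c : ι → ι → ℝ, ∑ i, ∑ j, B i j * (c i j + c j i) = 2 * ∑ i, ∑ j, B i j * c i j :=
    fun c => by
      simp only [mul_add, Finset.sum_add_distrib]
      rw [Finset.sum_comm (f := fun i j => B i j * c j i), two_mul]
      simp only [hB]
  have h1 := e a
  simp only [h] at h1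
  linarith [e d]

theorem inv_symm (i j : ι) : (kilM β)⁻¹ i j = (kilM β)⁻¹ j i := by
  have h1 : (kilM β)ᵀ = kilM β := by
    ext i j
    exact Matrix.trace_mul_comm _ _
  have h2 := Matrix.transpose_nonsing_inv (kilM β)
  rw [h1] at h2
  exact (congrFun (congrFun h2 i) j).symm

end Lap1Aux

theorem lap_eq_LD (hL : IsLie β) (hf : Smooth f) (g : AutL β) :
    lap f g = ∑ i, ∑ j, (kilM β)⁻¹ i j * LD (Pi.single i 1) (LD (Pi.single j 1) f) g := by
  refine Lap1Aux.sum_symm Lap1Aux.inv_symm fun i j => ?_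
  rw [Lap1Aux.pd_pd hL hf, Lap1Aux.pd_pd hL hf, Lap1Aux.polar hL hf]

theorem Smooth.laplace (hL : IsLie β) (hf : Smooth f) : Smooth (lap f) := by
  rw [funext (lap_eq_LD hL hf)]
  exact Smooth.sum _ fun i _ => Smooth.sum _ fun j _ =>
    (smooth_cst _).mul ((hf.ld hL _).ld hL _)

theorem lap_plus (hL : IsLie β) (hf : Smooth f) (hh : Smooth h) (g : AutL β) :
    lap (fun g => f g + h g) g = lap f g + lap h g := by
  rw [lap_eq_LD hL (hf.add hh), lap_eq_LD hL hf, lap_eq_LD hL hh]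
  simp only [Lap1Aux.LD_add hL hf hh, Lap1Aux.LD_add hL (hf.ld hL _) (hh.ld hL _), mul_add,
    Finset.sum_add_distrib]

theorem lap_scal (hL : IsLie β) (hf : Smooth f) (c : ℝ) (g : AutL β) :
    lap (fun g => c * f g) g = c * lap f g := by
  rw [lap_eq_LD hL ((smooth_cst c).mul hf), lap_eq_LD hL hf]
  simp only [Lap1Aux.LD_scal hL hf, Lap1Aux.LD_scal hL (hf.ld hL _), Finset.mul_sum]
  exact Finset.sum_congr rfl fun i _ => Finset.sum_congr rfl fun j _ => mul_left_comm _ _ _

theorem lap_cst (hL : IsLie β) (c : ℝ) (g : AutL β) : lap (fun _ : AutL β => c) g = 0 := by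
  have e : chart (fun _ : AutL β => c) g = fun _ => c := funext fun x => chart_eq hL _ g x
  have e1 : ∀ (a : ℝ) (j : ι), pd j (fun _ => a) = fun _ => 0 := fun a j => by
    funext x
    simp [pd]
  simp [lap, e, e1]

theorem lap_left (hL : IsLie β) (f : AutL β → ℝ) (a g : AutL β) :
    lap (fun g => f (a * g)) g = lap f (a * g) := by
  have e : chart (fun g => f (a * g)) g = chart f (a * g) :=
    funext fun x => by rw [chart_eq hL, chart_eq hL, mul_assoc]
  rw [lap, lap, e]

theorem hasCompactSupport_lap (hL : IsLie β) (hf : Smooth f) (hs : HasCompactSupport f) :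
    HasCompactSupport (lap f) := by
  rw [funext (lap_eq_LD hL hf)]
  have key : ∀ F : ι → AutL β → ℝ, (∀ i, HasCompactSupport (F i)) →
      HasCompactSupport fun g => ∑ i, F i g := fun F hF => by
    have h1 := HasCompactSupport.finset_sum (s := Finset.univ) fun i _ => hF i
    rwa [← Finset.sum_fn]
  exact key _ fun i => key _ fun j =>
    (hasCompactSupport_LD hL (hasCompactSupport_LD hL hs _) _).mul_left

theorem mem_eig_iff (hL : IsLie β) {Γ : Subgroup (AutL β)} {ev : ℝ} :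
    f ∈ Eig θ Γ ev ↔ Smooth f ∧ (∀ γ ∈ Γ, ∀ g, f (γ * g) = f g) ∧
      (∀ u, u * θ = θ * u → ∀ g, f (g * u) = f g) ∧ ∀ g, lap f g = -ev * f g := by
  refine ⟨fun hf => ?_, fun hf => Submodule.subset_span hf⟩
  induction hf using Submodule.span_induction with
  | mem x hx => exact hx
  | zero =>
    exact ⟨smooth_cst 0, fun _ _ _ => rfl, fun _ _ _ => rfl, fun g =>
      (lap_cst hL 0 g).trans (mul_zero _).symm⟩
  | add x y _ _ hx hy =>
    refine ⟨hx.1.add hy.1, fun γ hγ g => ?_, fun u hu g => ?_, fun g => ?_⟩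
    · rw [Pi.add_apply, Pi.add_apply, hx.2.1 γ hγ, hy.2.1 γ hγ]
    · rw [Pi.add_apply, Pi.add_apply, hx.2.2.1 u hu, hy.2.2.1 u hu]
    · refine (lap_plus hL hx.1 hy.1 g).trans ?_
      rw [hx.2.2.2, hy.2.2.2, Pi.add_apply, mul_add]
  | smul c x _ hx =>
    refine ⟨(smooth_cst c).mul hx.1, fun γ hγ g => ?_, fun u hu g => ?_, fun g => ?_⟩
    · rw [Pi.smul_apply, Pi.smul_apply, hx.2.1 γ hγ]
    · rw [Pi.smul_apply, Pi.smul_apply, hx.2.2.1 u hu]
    · refine (lap_scal hL hx.1 c g).trans ?_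
      rw [hx.2.2.2, Pi.smul_apply, smul_eq_mul, mul_left_comm]

end Pool.Agent.P.MP_3c2f8c_gt.E6
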