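import Pool.Agent.P.MP_3c2f8c_gt.E6.An.Count1

/-! E6AN-Count2: the dimension of W from traces. -/

namespace Pool.Agent.P.MP_3c2f8c_gt.E6

open Matrix MeasureTheory Topology

variable {V V' : Type} [AddCommGroup V] [Module ℝ V] [AddCommGroup V'] [Module ℝ V']
  {L S U : Module.End ℝ V} {L' S' U' : Module.End ℝ V'} {W : Submodule ℝ V}
  {W' : Submodule ℝ V'} {ev : ℝ}

namespace Count2Aux

theorem maps (h : Commute L S) (t : ℝ) : ∀ x ∈ L.eigenspace t, S x ∈ L.eigenspace t := by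
  intro x hx
  rw [Module.End.mem_eigenspace_iff] at hx ⊢
  rw [← Module.End.mul_apply, h.eq, Module.End.mul_apply, hx, map_smul]

theorem coe_pow {E : Submodule ℝ V} (h : ∀ x ∈ E, S x ∈ E) (k : ℕ) (y : E) :
    ((((S.restrict h : Module.End ℝ E) ^ k) y : E) : V) = (S ^ k) y := by
  induction k with
  | zero => rfl
  | succ k ih => rw [pow_succ', pow_succ', Module.End.mul_apply, Module.End.mul_apply, ← ih]; rfl

theorem finrank_restrict {E : Submodule ℝ V} (h : ∀ x ∈ E, S x ∈ E) (c : ℝ) :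
    Module.finrank ℝ (Module.End.eigenspace (S.restrict h : Module.End ℝ E) c) =
      Module.finrank ℝ ↥(E ⊓ S.eigenspace c) := by
  have e : Module.End.eigenspace (S.restrict h : Module.End ℝ E) c =
      (S.eigenspace c).comap E.subtype := by
    ext y
    rw [Submodule.mem_comap, Module.End.mem_eigenspace_iff, Module.End.mem_eigenspace_iff,
      Subtype.ext_iff]
    rfl
  rw [e, ← Submodule.finrank_map_subtype_eq, Submodule.map_comap_subtype]

theorem data (h : SpecData L S U W ev) {t : ℝ} (ht : t ≠ 0) :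
    ∃ (S₀ U₀ : Module.End ℝ (L.eigenspace t))
      (b : L.eigenspace t →ₗ[ℝ] L.eigenspace t →ₗ[ℝ] ℝ), (∀ x y, b x y = b y x) ∧
      (∀ x, x ≠ 0 → 0 < b x x) ∧ (∀ x y, b (S₀ x) y = b x (S₀ y)) ∧ Function.Injective U₀ ∧
      (∀ k m : ℕ, trOn (L.eigenspace t) (S ^ k * (L * U ^ (m + 1))) =
        t * LinearMap.trace ℝ _ (S₀ ^ k * U₀ ^ (m + 1))) ∧
      Module.finrank ℝ (S₀.eigenspace (-(t * ev))) = Module.finrank ℝ ↥(W ⊓ L.eigenspace t) := by
  obtain ⟨b, b1, b2, -, b4⟩ := h.ip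
  refine ⟨S.restrict (maps h.ls t), U.restrict (maps h.lu t),
    b.compl₁₂ (L.eigenspace t).subtype (L.eigenspace t).subtype, fun x y => b1 _ _,
    fun x hx => b2 _ fun e => hx (Subtype.ext e), fun x y => b4 _ _,
    fun x y e => Subtype.ext (h.inj (congrArg Subtype.val e)), fun k m => ?_, ?_⟩
  · have hm := maps ((h.ls.pow_right k).mul_right
      ((Commute.refl L).mul_right (h.lu.pow_right (m + 1)))) t
    rw [trOn, dif_pos hm, ← smul_eq_mul t, ← map_smul]
    refine congrArg _ (LinearMap.ext fun y => Subtype.ext ?_)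
    have e := Module.End.mem_eigenspace_iff.1 (maps (h.lu.pow_right (m + 1)) t y y.2)
    rw [LinearMap.smul_apply, Submodule.coe_smul, Module.End.mul_apply, coe_pow, coe_pow,
      ← map_smul, ← e]
    rfl
  · rw [finrank_restrict]
    have e : L.eigenspace t ⊓ S.eigenspace (-(t * ev)) = W ⊓ L.eigenspace t := by
      ext x
      rw [Submodule.mem_inf, Submodule.mem_inf, and_comm]
      exact and_congr_left fun hx => Module.End.mem_eigenspace_iff.trans (h.wiff t ht x hx).symm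
    rw [e]

theorem total (h : SpecData L S U W ev) : ∃ s : Finset ℝ, ∀ s' : Finset ℝ, s ⊆ s' →
    Module.finrank ℝ W = ∑ c ∈ s', Module.finrank ℝ ↥(W ⊓ L.eigenspace c) := by
  obtain ⟨b, b1, b2, b3, -⟩ := h.ip
  have := h.wfin
  obtain ⟨s, h1, h2⟩ := trace_pow_symm (b.compl₁₂ W.subtype W.subtype) (fun x y => b1 _ _)
    (fun x hx => b2 _ fun e => hx (Subtype.ext e)) (L.restrict h.wmap) fun x y => b3 _ _
  refine ⟨s, fun s' hs => ?_⟩
  have e := h2 0
  simp only [pow_zero, LinearMap.trace_one, one_mul, finrank_restrict] at e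
  rw [← Finset.sum_subset hs fun c _ hc => by rw [← finrank_restrict h.wmap, h1 c hc, finrank_bot]]
  exact_mod_cast e

theorem zero (h : SpecData L S U W ev) : Module.finrank ℝ ↥(W ⊓ L.eigenspace 0) = 0 := by
  have e : W ⊓ L.eigenspace 0 = ⊥ := (Submodule.eq_bot_iff _).2 fun x hx =>
    h.winj x hx.1 ((Module.End.mem_eigenspace_iff.1 hx.2).trans (zero_smul _ _))
  rw [e, finrank_bot]

end Count2Aux

theorem SpecData.finrank_inf_eq (h : SpecData L S U W ev) (h' : SpecData L' S' U' W' ev)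
    {t : ℝ} (ht : t ≠ 0)
    (tr : ∀ b m : ℕ, trOn (L.eigenspace t) (S ^ b * (L * U ^ (m + 1))) =
      trOn (L'.eigenspace t) (S' ^ b * (L' * U' ^ (m + 1)))) :
    Module.finrank ℝ ↥(W ⊓ L.eigenspace t) = Module.finrank ℝ ↥(W' ⊓ L'.eigenspace t) := by
  obtain ⟨S₀, U₀, b, b1, b2, b3, b4, b5, b6⟩ := Count2Aux.data h ht
  obtain ⟨S₁, U₁, c, c1, c2, c3, c4, c5, c6⟩ := Count2Aux.data h' ht
  have := h.fin t ht
  have := h'.fin t ht
  rw [← b6, ← c6]
  refine finrank_eigenspace_eq b b1 b2 S₀ b3 c c1 c2 S₁ c3 (fun k => ?_) _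
  refine trace_eq_of_mul_pow _ U₀ _ U₁ b4 c4 fun m => mul_left_cancel₀ ht ?_
  rw [← b5, ← c5, tr]

theorem SpecData.finrank_eq (h : SpecData L S U W ev) (h' : SpecData L' S' U' W' ev)
    (tr : ∀ t : ℝ, t ≠ 0 → ∀ b m : ℕ, trOn (L.eigenspace t) (S ^ b * (L * U ^ (m + 1))) =
      trOn (L'.eigenspace t) (S' ^ b * (L' * U' ^ (m + 1)))) :
    Module.finrank ℝ W = Module.finrank ℝ W' := by
  classical
  obtain ⟨s, hs⟩ := Count2Aux.total h
  obtain ⟨s', hs'⟩ := Count2Aux.total h'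
  rw [hs _ Finset.subset_union_left, hs' _ Finset.subset_union_right]
  refine Finset.sum_congr rfl fun c _ => ?_
  by_cases hc : c = 0
  · rw [hc, Count2Aux.zero h, Count2Aux.zero h']
  · exact h.finrank_inf_eq h' hc (tr c hc)

end Pool.Agent.P.MP_3c2f8c_gt.E6
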