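import Pool.Agent.P.MP_3c2f8c_gt.E6.An.FD2

/-! E6AN-Kc: composition of properly supported kernels. -/

namespace Pool.Agent.P.MP_3c2f8c_gt.E6

open Matrix MeasureTheory Topology

variable {Y : Type} [TopologicalSpace Y] [T2Space Y] [LocallyCompactSpace Y]
  [SecondCountableTopology Y] [MeasurableSpace Y] [BorelSpace Y] {ν : Measure Y}
  [IsFiniteMeasureOnCompacts ν] [ν.IsOpenPosMeasure] {G : Type} [Group G] [Countable G]
  [MulAction G Y] {D : Set Y}
  {k k' : Y → Y → ℝ}

theorem PK.hasCompactSupport (hk : PK k) (w : Y) : HasCompactSupport (k w) := by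
  obtain ⟨C, hC, h⟩ := hk.supp {w} isCompact_singleton
  exact HasCompactSupport.intro hC fun v hv => by_contra fun e => hv (h w rfl v e)

theorem PK.integrable (hk : PK k) {f : Y → ℝ} (hf : Continuous f) (w : Y) :
    Integrable (fun v => k w v * f v) ν :=
  ((hk.cont.uncurry_left w).mul hf).integrable_of_hasCompactSupport
    (hk.hasCompactSupport w).mul_right

theorem PK.continuous_integral (hk : PK k) {X : Type} [TopologicalSpace X]
    [LocallyCompactSpace X] {F : Y → X → ℝ} (hF : Continuous (Function.uncurry F)) :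
    Continuous fun p : Y × X => ∫ t, k p.1 t * F t p.2 ∂ν := by
  refine continuous_iff_continuousAt.2 fun p => ?_
  obtain ⟨C, hC, hp⟩ := exists_compact_mem_nhds p.1
  obtain ⟨C', hC', h⟩ := hk.supp C hC
  have h1 : Continuous fun z : (Y × X) × Y => k z.1.1 z.2 * F z.2 z.1.2 :=
    (hk.cont.comp (continuous_fst.fst.prodMk continuous_snd)).mul
      (hF.comp (continuous_snd.prodMk continuous_fst.snd))
  have h2 := continuousOn_integral_of_compact_support (μ := ν)
    (f := fun (p : Y × X) t => k p.1 t * F t p.2) (s := Prod.fst ⁻¹' C) hC' h1.continuousOn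
    fun q t hq ht => by
      have : k q.1 t = 0 := by_contra fun e => ht (h q.1 hq t e)
      simp only [this, zero_mul]
  exact h2.continuousAt (continuous_fst.continuousAt.preimage_mem_nhds hp)

theorem PK.comp (hk : PK k) (hk' : PK k') : PK (kcomp ν k k') := by
  refine ⟨hk.continuous_integral hk'.cont, fun C hC => ?_⟩
  obtain ⟨C', hC', h⟩ := hk.supp C hC
  obtain ⟨C'', hC'', h'⟩ := hk'.supp C' hC'
  refine ⟨C'', hC'', fun w hw v hv => by_contra fun e => hv ?_⟩
  have : ∀ t, k w t * k' t v = 0 := fun t => by_contra fun e' =>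
    e (h' t (h w hw t (left_ne_zero_of_mul e')) v (right_ne_zero_of_mul e'))
  simp only [kcomp, this, integral_zero]

namespace KcAux

theorem integral_smul (A : Act G ν D) (g : G) (f : Y → ℝ) :
    ∫ t, f (g • t) ∂ν = ∫ t, f t ∂ν := by
  let e : Y ≃ₜ Y := ⟨MulAction.toPerm g, A.cont g, A.cont g⁻¹⟩
  exact (A.mp g).integral_comp e.measurableEmbedding f

end KcAux

theorem Act.kinv_kcomp (A : Act G ν D) (hi : KInv G k) (hi' : KInv G k') :
    KInv G (kcomp ν k k') := fun g w v => by
  rw [kcomp, ← KcAux.integral_smul A g]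
  simp only [hi g, hi' g, kcomp]

theorem Act.exists_isK (A : Act G ν D) (hk : PK k) (hi : KInv G k) :
    ∃ L : Module.End ℝ (CI Y G), IsK ν k L := by
  have hm : ∀ f : CI Y G, (fun w => ∫ v, k w v * f.1 v ∂ν) ∈ CI Y G := fun f => by
    refine ⟨(hk.continuous_integral (ν := ν) (X := Unit) (F := fun t _ => f.1 t)
      (f.2.1.comp continuous_fst)).comp (continuous_id.prodMk (continuous_const (y := ()))),
      fun g w => ?_⟩
    change ∫ v, k (g • w) v * f.1 v ∂ν = ∫ v, k w v * f.1 v ∂ν
    rw [← KcAux.integral_smul A g]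
    simp only [hi g, f.2.2 g]
  refine ⟨⟨⟨fun f => ⟨_, hm f⟩, fun f g => Subtype.ext (funext fun w => ?_)⟩,
    fun c f => Subtype.ext (funext fun w => ?_)⟩, fun _ _ => rfl⟩
  · change ∫ v, k w v * (f.1 v + g.1 v) ∂ν = ∫ v, k w v * f.1 v ∂ν + ∫ v, k w v * g.1 v ∂ν
    rw [← integral_add (hk.integrable f.2.1 w) (hk.integrable g.2.1 w)]
    simp only [mul_add]
  · change ∫ v, k w v * (c * f.1 v) ∂ν = c * ∫ v, k w v * f.1 v ∂ν
    rw [← integral_const_mul]
    simp only [mul_left_comm]

theorem IsK.mul (hk : PK k) (hk' : PK k') {L L' : Module.End ℝ (CI Y G)} (hL : IsK ν k L)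
    (hL' : IsK ν k' L') : IsK ν (kcomp ν k k') (L * L') := fun f w => by
  obtain ⟨C, hC, h⟩ := hk.supp {w} isCompact_singleton
  obtain ⟨C', hC', h'⟩ := hk'.supp C hC
  have h1 : Continuous (Function.uncurry fun t v => k w t * k' t v * f.1 v) :=
    (((hk.cont.uncurry_left w).comp continuous_fst).mul hk'.cont).mul (f.2.1.comp continuous_snd)
  have h2 : HasCompactSupport (Function.uncurry fun t v => k w t * k' t v * f.1 v) := by
    refine HasCompactSupport.intro (hC.prod hC') fun z hz => by_contra fun e => hz ?_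
    have e1 : k w z.1 * k' z.1 z.2 ≠ 0 := left_ne_zero_of_mul e
    have e2 := h w rfl z.1 (left_ne_zero_of_mul e1)
    exact ⟨e2, h' z.1 e2 z.2 (right_ne_zero_of_mul e1)⟩
  have h3 := integral_integral_swap_of_hasCompactSupport h1 h2 (μ := ν) (ν := ν)
  rw [Module.End.mul_apply, hL]
  simp only [hL' f, kcomp, ← integral_const_mul, ← integral_mul_const, ← mul_assoc]
  exact h3

end Pool.Agent.P.MP_3c2f8c_gt.E6
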