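import Pool.Agent.P.MP_3c2f8c_gt.E6.An.Per
import Pool.Agent.P.MP_3c2f8c_gt.E6.An.Kc

/-! E6AN-Unf: unfolding. -/

namespace Pool.Agent.P.MP_3c2f8c_gt.E6

open Matrix MeasureTheory Topology

variable {Y : Type} [TopologicalSpace Y] [T2Space Y] [LocallyCompactSpace Y]
  [SecondCountableTopology Y] [MeasurableSpace Y] [BorelSpace Y] {ν : Measure Y}
  [IsFiniteMeasureOnCompacts ν] [ν.IsOpenPosMeasure] {G : Type} [Group G] [Countable G]
  [MulAction G Y] {D : Set Y}
  {k k' : Y → Y → ℝ}

namespace UnfAux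

theorem int_tsum (A : Act G ν D) {F : G → Y → ℝ} (hF : ∀ g, Continuous (F g)) (S : Finset G)
    (hS : ∀ g, g ∉ S → ∀ v ∈ D, F g v = 0) :
    ∫ v in D, ∑' g, F g v ∂ν = ∑' g, ∫ v in D, F g v ∂ν := by
  have h1 : ∫ v in D, ∑' g, F g v ∂ν = ∫ v in D, ∑ g ∈ S, F g v ∂ν :=
    setIntegral_congr_fun A.meas fun v hv => tsum_eq_sum fun g hg => hS g hg v hv
  have h2 : ∑' g, ∫ v in D, F g v ∂ν = ∑ g ∈ S, ∫ v in D, F g v ∂ν := by
    refine tsum_eq_sum fun g hg => ?_
    rw [setIntegral_congr_fun A.meas (g := fun _ => (0 : ℝ)) fun v hv => hS g hg v hv]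
    simp
  rw [h1, h2]
  exact integral_finsetSum S fun g _ => A.integrableOn (hF g)

theorem lint_tsum (A : Act G ν D) {F : G → Y → ℝ} (hF : ∀ g, Continuous (F g)) (S : Finset G)
    (hS : ∀ g, g ∉ S → ∀ v ∈ D, F g v = 0) :
    (∫⁻ v in D, ∑' g, ENNReal.ofReal (F g v) ∂ν).toReal =
      ∫ v in D, ∑ g ∈ S, max (F g v) 0 ∂ν := by
  have hc : Continuous fun v => ∑ g ∈ S, max (F g v) 0 :=
    continuous_finsetSum S fun g _ => (hF g).max continuous_const
  rw [integral_eq_lintegral_of_nonneg_ae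
    (Filter.Eventually.of_forall fun v => Finset.sum_nonneg fun g _ => le_max_right _ _)
    hc.aestronglyMeasurable]
  congr 1
  refine setLIntegral_congr_fun A.meas fun v hv => ?_
  have e : ∑' g, ENNReal.ofReal (F g v) = ∑ g ∈ S, ENNReal.ofReal (F g v) :=
    tsum_eq_sum fun g hg => by rw [hS g hg v hv, ENNReal.ofReal_zero]
  change ∑' g, ENNReal.ofReal (F g v) = ENNReal.ofReal (∑ g ∈ S, max (F g v) 0)
  rw [e, ENNReal.ofReal_sum_of_nonneg fun g _ => le_max_right _ _]
  refine Finset.sum_congr rfl fun g _ => ?_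
  rcases le_total (F g v) 0 with h | h
  · rw [max_eq_right h, ENNReal.ofReal_zero, ENNReal.ofReal_of_nonpos h]
  · rw [max_eq_left h]

omit [T2Space Y] [LocallyCompactSpace Y] [SecondCountableTopology Y] [MeasurableSpace Y]
  [BorelSpace Y] in
theorem cont_slice (hk : PK k) (w : Y) : Continuous (k w) :=
  hk.cont.comp (continuous_const.prodMk continuous_id)

end UnfAux

theorem Act.unfold (A : Act G ν D) (hk : PK k) (f : CI Y G) (w : Y) :
    ∫ v in D, perK G k w v * f.1 v ∂ν = ∫ v, k w v * f.1 v ∂ν := by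
  haveI := A.measurableConstSMul
  haveI := A.invariant
  obtain ⟨C, hC, hDC⟩ := A.bdd
  have hfin := A.per_finite hk (isCompact_singleton (x := w)) hC
  rw [A.isFD.integral_eq_tsum'' _ (hk.integrable f.2.1 w),
    ← UnfAux.int_tsum A (F := fun g v => k w (g • v) * f.1 (g • v))
      (fun g => ((UnfAux.cont_slice hk w).mul f.2.1).comp (A.cont g)) hfin.toFinset ?_]
  · refine setIntegral_congr_fun A.meas fun v _ => ?_
    change (∑' g : G, k w (g • v)) * f.1 v = ∑' g : G, k w (g • v) * f.1 (g • v)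
    rw [← tsum_mul_right]
    exact tsum_congr fun g => by rw [f.2.2 g v]
  · intro g hg v hv
    have : k w (g • v) = 0 := by
      by_contra h
      exact hg (hfin.mem_toFinset.2 ⟨w, rfl, v, hDC hv, h⟩)
    simp [this]

theorem Act.per_kcomp (A : Act G ν D) (hk : PK k) (hk' : PK k') (hi' : KInv G k') (w v : Y) :
    ∫ t in D, perK G k w t * perK G k' t v ∂ν = perK G (kcomp ν k k') w v := by
  have hf : (fun t => perK G k' t v) ∈ CI Y G :=
    ⟨(A.continuous_per hk').comp (continuous_id.prodMk continuous_const),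
      fun g t => perK_smul_left hi' g t v⟩
  have h1 := A.unfold hk ⟨_, hf⟩ w
  change ∫ t in D, perK G k w t * perK G k' t v ∂ν = ∫ t, k w t * perK G k' t v ∂ν at h1
  rw [h1]
  obtain ⟨C, hC, hsupp⟩ := hk.supp {w} isCompact_singleton
  have hfin := A.per_finite hk' hC (isCompact_singleton (x := v))
  have hz : ∀ g, g ∉ hfin.toFinset → ∀ t, k w t * k' t (g • v) = 0 := by
    intro g hg t
    by_contra h
    rw [mul_eq_zero, not_or] at h
    exact hg (hfin.mem_toFinset.2 ⟨t, hsupp w rfl t h.1, v, rfl, h.2⟩)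
  have h2 : ∀ t, k w t * perK G k' t v = ∑ g ∈ hfin.toFinset, k w t * k' t (g • v) := by
    intro t
    change k w t * (∑' g : G, k' t (g • v)) = _
    rw [← tsum_mul_left]
    exact tsum_eq_sum fun g hg => hz g hg t
  have h3 : perK G (kcomp ν k k') w v =
      ∑ g ∈ hfin.toFinset, ∫ t, k w t * k' t (g • v) ∂ν := by
    refine tsum_eq_sum fun g hg => ?_
    change ∫ t, k w t * k' t (g • v) ∂ν = 0
    simp [hz g hg]
  rw [h3]
  simp only [h2]
  exact integral_finsetSum _ fun g _ => hk.integrable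
    (f := fun t => k' t (g • v)) (hk'.cont.comp (continuous_id.prodMk continuous_const)) w

theorem Act.per_eq_of_isK (A : Act G ν D) (hk : PK k) (hk' : PK k')
    {L : Module.End ℝ (CI Y G)} (hL : IsK ν k L) (hL' : IsK ν k' L) :
    perK G k = perK G k' := by
  funext w
  have c1 : Continuous fun v => perK G k w v :=
    (A.continuous_per hk).comp (continuous_const.prodMk continuous_id)
  have c2 : Continuous fun v => perK G k' w v :=
    (A.continuous_per hk').comp (continuous_const.prodMk continuous_id)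
  have hf : (fun v => perK G k w v - perK G k' w v) ∈ CI Y G :=
    ⟨c1.sub c2, fun g v => by simp only [perK_smul_right]⟩
  have h1 := A.unfold hk ⟨_, hf⟩ w
  have h2 := A.unfold hk' ⟨_, hf⟩ w
  rw [← hL] at h1
  rw [← hL', ← h1] at h2
  have h3 : ∫ v in D, (perK G k w v - perK G k' w v) ^ 2 ∂ν = 0 := by
    have e : (fun v => (perK G k w v - perK G k' w v) ^ 2) = fun v =>
        perK G k w v * (perK G k w v - perK G k' w v) -
          perK G k' w v * (perK G k w v - perK G k' w v) := by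
      funext v
      ring
    have i1 : IntegrableOn (fun v => perK G k w v * (perK G k w v - perK G k' w v)) D ν :=
      A.integrableOn (c1.mul (c1.sub c2))
    have i2 : IntegrableOn (fun v => perK G k' w v * (perK G k w v - perK G k' w v)) D ν :=
      A.integrableOn (c2.mul (c1.sub c2))
    rw [e, integral_sub i1 i2]
    exact sub_eq_zero.2 h2.symm
  have h4 := A.eq_zero_of_sq ⟨_, hf⟩ h3.le
  funext v
  have h5 := congrFun (congrArg Subtype.val h4) v
  exact sub_eq_zero.1 h5

theorem Act.integral_per_diag (A : Act G ν D) (hk : PK k) :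
    ∫ w in D, perK G k w w ∂ν =
      (∫⁻ w in D, ∑' g : G, ENNReal.ofReal (k w (g • w)) ∂ν).toReal -
        (∫⁻ w in D, ∑' g : G, ENNReal.ofReal (-k w (g • w)) ∂ν).toReal := by
  obtain ⟨C, hC, hDC⟩ := A.bdd
  have hfin := A.per_finite hk hC hC
  have hz : ∀ g, g ∉ hfin.toFinset → ∀ w ∈ D, k w (g • w) = 0 := by
    intro g hg w hw
    by_contra h
    exact hg (hfin.mem_toFinset.2 ⟨w, hDC hw, w, hDC hw, h⟩)
  have hc : ∀ g : G, Continuous fun w => k w (g • w) := fun g =>
    hk.cont.comp (continuous_id.prodMk (A.cont g))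
  have i1 : IntegrableOn (fun w => ∑ g ∈ hfin.toFinset, max (k w (g • w)) 0) D ν :=
    A.integrableOn (continuous_finsetSum _ fun g _ => (hc g).max continuous_const)
  have i2 : IntegrableOn (fun w => ∑ g ∈ hfin.toFinset, max (-k w (g • w)) 0) D ν :=
    A.integrableOn (continuous_finsetSum _ fun g _ => (hc g).neg.max continuous_const)
  rw [UnfAux.lint_tsum A (F := fun g w => k w (g • w)) hc hfin.toFinset hz,
    UnfAux.lint_tsum A (F := fun g w => -k w (g • w)) (fun g => (hc g).neg) hfin.toFinset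
      (fun g hg w hw => by simp [hz g hg w hw]),
    ← integral_sub i1 i2]
  refine setIntegral_congr_fun A.meas fun w hw => ?_
  have e : perK G k w w = ∑ g ∈ hfin.toFinset, k w (g • w) :=
    tsum_eq_sum fun g hg => hz g hg w hw
  change perK G k w w = ∑ g ∈ hfin.toFinset, max (k w (g • w)) 0 -
    ∑ g ∈ hfin.toFinset, max (-k w (g • w)) 0
  rw [e, ← Finset.sum_sub_distrib]
  refine Finset.sum_congr rfl fun g _ => ?_
  rcases le_total (k w (g • w)) 0 with h | h
  · rw [max_eq_right h, max_eq_left (neg_nonneg.2 h)]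
    ring
  · rw [max_eq_left h, max_eq_right (neg_nonpos.2 h)]
    ring

end Pool.Agent.P.MP_3c2f8c_gt.E6
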