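import Pool.Agent.P.MP_3c2f8c_gt.E6.An.Pk1
import Pool.Agent.P.MP_3c2f8c_gt.E6.An.Unf
import Pool.Agent.P.MP_3c2f8c_gt.An.Unfold

/-! E6AN-Geom: the geometric sides agree. -/

namespace Pool.Agent.P.MP_3c2f8c_gt.E6

open Matrix MeasureTheory Topology

variable {ι : Type} [Fintype ι] [DecidableEq ι] {β : Tens ι ℝ} {θ : AutL β} {Z : Type}
  [TopologicalSpace Z] [DiscreteTopology Z] [MeasurableSpace Z] [DiscreteMeasurableSpace Z]
  [Countable Z] {G : Type} [Group G] [Countable G] [MulAction G (AutL β)] [MulAction G Z]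
  {ρ : G →* AutL β} {D : Set (AutL β × Z)} {κ : Z → Z → ℕ}
  {G' : Type} [Group G'] [Countable G'] [MulAction G' (AutL β)] [MulAction G' Z]
  {ρ' : G' →* AutL β} {D' : Set (AutL β × Z)}

theorem GeomAux.le (N : NiceA G Z ρ) (N' : NiceA G' Z ρ')
    (hinv : ∀ (g : G) z z', κ (g • z) (g • z') = κ z z')
    (hinv' : ∀ (g : G') z z', κ (g • z) (g • z') = κ z z')
    (tr : TransferL ρ ρ' κ) (A : Act G (nu β Z) D)
    (A' : Act G' (nu β Z) D') {q : AutL β × Z → AutL β × Z → ℝ} (hq : PK q) (hs : KSym κ q)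
    {m : ℕ} (hc : KCh κ (m + 1) q) {h : ℝ → ENNReal} (hh : Measurable h) (h0 : h 0 = 0) :
    ∫⁻ w in D, ∑' g : G, h (q w (g • w)) ∂nu β Z ≤
      ∫⁻ w in D', ∑' g : G', h (q w (g • w)) ∂nu β Z := by
  obtain ⟨Reg, φ, h1, h2, h3⟩ := tr
  have : MeasurableConstSMul G (AutL β × Z) := ⟨fun g => (A.mp g).measurable⟩
  have : MeasurableConstSMul G' (AutL β × Z) := ⟨fun g => (A'.mp g).measurable⟩
  have : SMulInvariantMeasure G (AutL β × Z) (nu β Z) :=
    ⟨fun g _ hs => (A.mp g).measure_preimage hs.nullMeasurableSet⟩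
  have : SMulInvariantMeasure G' (AutL β × Z) (nu β Z) :=
    ⟨fun g _ hs => (A'.mp g).measure_preimage hs.nullMeasurableSet⟩
  have meas : ∀ f : AutL β × Z → AutL β × Z, Continuous f → Measurable fun w => h (q w (f w)) :=
    fun f hf => hh.comp (hq.cont.comp (continuous_id.prodMk hf)).measurable
  refine geom_le (nu β Z) A.meas A'.meas A.strict A'.strict
    (fun γ w => h (q w (γ • w))) (fun γ w => h (q w (γ • w)))
    (fun γ => meas _ (A.cont γ)) (fun γ => meas _ (A'.cont γ))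
    (fun g γ w => ?_) (fun g γ w => ?_) Reg φ (fun γ w hw => ?_) (fun γ hγ => ?_) h3
  · simp only [mul_smul, inv_smul_smul]
    rw [hs.kinv N hinv]
  · simp only [mul_smul, inv_smul_smul]
    rw [hs.kinv N' hinv']
  · exact h1 m γ w.2 (hc w (γ • w) fun e => hw (by rw [e, h0]))
  · obtain ⟨τ, g, Ψ, a1, a2, a3, a4⟩ := h2 γ hγ
    obtain ⟨Θ, b1, b2⟩ := nu_left g Ψ
    have b3 : ∀ (t : Subgroup.centralizer {γ}) (w : AutL β × Z),
        Θ ((t : G) • w) = (τ t : G') • Θ w := by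
      intro t w
      rw [b1, b1]
      refine Prod.ext ?_ (a3 t w.2)
      change g * ((t : G) • w.1) = (τ t : G') • (g * w.1)
      rw [N.act, N'.act, ← mul_assoc, ← mul_assoc, a2]
    refine ⟨τ, Θ, b2, b3, fun w => ?_⟩
    let t : Subgroup.centralizer {γ} :=
      ⟨γ, Subgroup.mem_centralizer_iff.2 fun h hh => by rw [Set.mem_singleton_iff.1 hh]⟩
    have e := b3 t w
    rw [a1 t rfl] at e
    rw [← e, b1, b1, hs g Ψ a4]

theorem geom_eq (N : NiceA G Z ρ) (N' : NiceA G' Z ρ')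
    (hinv : ∀ (g : G) z z', κ (g • z) (g • z') = κ z z')
    (hinv' : ∀ (g : G') z z', κ (g • z) (g • z') = κ z z')
    (tr : TransferL ρ ρ' κ) (tr' : TransferL ρ' ρ κ) (A : Act G (nu β Z) D)
    (A' : Act G' (nu β Z) D') {q : AutL β × Z → AutL β × Z → ℝ} (hq : PK q) (hs : KSym κ q)
    {m : ℕ} (hc : KCh κ (m + 1) q) :
    ∫ w in D, perK G q w w ∂nu β Z = ∫ w in D', perK G' q w w ∂nu β Z := by
  have key : ∀ h : ℝ → ENNReal, Measurable h → h 0 = 0 →
      ∫⁻ w in D, ∑' g : G, h (q w (g • w)) ∂nu β Z =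
        ∫⁻ w in D', ∑' g : G', h (q w (g • w)) ∂nu β Z := fun h hh h0 =>
    le_antisymm (GeomAux.le N N' hinv hinv' tr A A' hq hs hc hh h0)
      (GeomAux.le N' N hinv' hinv tr' A' A hq hs hc hh h0)
  rw [A.integral_per_diag hq, A'.integral_per_diag hq,
    key ENNReal.ofReal ENNReal.measurable_ofReal ENNReal.ofReal_zero,
    key (fun x => ENNReal.ofReal (-x)) (ENNReal.measurable_ofReal.comp measurable_neg) (by simp)]

end Pool.Agent.P.MP_3c2f8c_gt.E6
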