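import Pool.Agent.P.MP_3c2f8c_gt.E6.An.Trace1
import Pool.Agent.P.MP_3c2f8c_gt.An.Moment

/-! E6AN-Trace2: equality of traces on eigenspaces. -/

namespace Pool.Agent.P.MP_3c2f8c_gt.E6

open Matrix MeasureTheory Topology

variable {Y : Type} [TopologicalSpace Y] [T2Space Y] [LocallyCompactSpace Y]
  [SecondCountableTopology Y] [MeasurableSpace Y] [BorelSpace Y] {ν : Measure Y}
  [IsFiniteMeasureOnCompacts ν] [ν.IsOpenPosMeasure] {G : Type} [Group G] [Countable G]
  [MulAction G Y] {D : Set Y}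
  {G' : Type} [Group G'] [Countable G'] [MulAction G' Y] {D' : Set Y}

namespace Trace2Aux

theorem trOn_pow_mul {V : Type} [AddCommGroup V] [Module ℝ V] {L X : Module.End ℝ V}
    (h : Commute L X) (t : ℝ) (a : ℕ) :
    trOn (L.eigenspace t) (L ^ a * X) = t ^ a * trOn (L.eigenspace t) X := by
  have hX : ∀ x ∈ L.eigenspace t, X x ∈ L.eigenspace t := by
    intro x hx
    rw [Module.End.mem_eigenspace_iff] at hx ⊢
    rw [← Module.End.mul_apply, h.eq, Module.End.mul_apply, hx, map_smul]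
  have hp : ∀ (a : ℕ), ∀ x ∈ L.eigenspace t, (L ^ a) x = t ^ a • x := by
    intro a x hx
    induction a with
    | zero => simp
    | succ a ih =>
      rw [pow_succ', Module.End.mul_apply, ih, map_smul, Module.End.mem_eigenspace_iff.1 hx,
        smul_smul, pow_succ]
  have hY : ∀ x ∈ L.eigenspace t, (L ^ a * X) x ∈ L.eigenspace t := by
    intro x hx
    rw [Module.End.mul_apply, hp a _ (hX x hx)]
    exact Submodule.smul_mem _ _ (hX x hx)
  have e : (L ^ a * X).restrict hY = t ^ a • X.restrict hX := by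
    refine LinearMap.ext fun x => Subtype.ext ?_
    exact hp a _ (hX x x.2)
  rw [trOn, trOn, dif_pos hY, dif_pos hX, e, map_smul, smul_eq_mul]

theorem trOn_bot {V : Type} [AddCommGroup V] [Module ℝ V] (X : Module.End ℝ V) :
    trOn ⊥ X = 0 := by
  rw [trOn]
  split_ifs with h
  · rw [Subsingleton.elim (X.restrict h) 0, map_zero]
  · rfl

end Trace2Aux

open Trace2Aux in
theorem trace_eq (A : Act G ν D) (A' : Act G' ν D') {k s q : Y → Y → ℝ}
    (P : (Y → Y → ℝ) → Prop) (hP : ∀ p, P p → PK p ∧ KInv G p ∧ KInv G' p)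
    (hk : PK k) (ik : KInv G k) (ik' : KInv G' k) (sk : ∀ w v, k w v = k v w) (hs : PK s)
    (Pk : ∀ p, P p → P (kcomp ν k p)) (Ps : ∀ p, P p → P (kcomp ν s p))
    (Pr : ∀ p, P p → P (kcomp ν p k))
    (hg : ∀ p, P p → ∫ w in D, perK G p w w ∂ν = ∫ w in D', perK G' p w w ∂ν) (hq : P q)
    {L S M : Module.End ℝ (CI Y G)} {L' S' M' : Module.End ℝ (CI Y G')}
    (hL : IsK ν k L) (hS : IsK ν s S) (hM : IsK ν q M)
    (hL' : IsK ν k L') (hS' : IsK ν s S') (hM' : IsK ν q M')
    (ls : Commute L S) (lm : Commute L M) (ls' : Commute L' S') (lm' : Commute L' M')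
    {t : ℝ} (ht : t ≠ 0) (b : ℕ) :
    trOn (L.eigenspace t) (S ^ b * M) = trOn (L'.eigenspace t) (S' ^ b * M') := by
  have h1 : ∀ b : ℕ, ∃ p, P p ∧ IsK ν p (S ^ b * M) ∧ IsK ν p (S' ^ b * M') := by
    intro b
    induction b with
    | zero => exact ⟨q, hq, by simpa using hM, by simpa using hM'⟩
    | succ b ih =>
      obtain ⟨p, h1, h2, h3⟩ := ih
      refine ⟨kcomp ν s p, Ps p h1, ?_, ?_⟩
      · rw [pow_succ', mul_assoc]
        exact IsK.mul hs (hP p h1).1 hS h2
      · rw [pow_succ', mul_assoc]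
        exact IsK.mul hs (hP p h1).1 hS' h3
  have h2 : ∀ a : ℕ, ∃ p, P p ∧ IsK ν p (L ^ a * (S ^ b * M)) ∧
      IsK ν p (L' ^ a * (S' ^ b * M')) := by
    intro a
    induction a with
    | zero => simpa using h1 b
    | succ a ih =>
      obtain ⟨p, h1, h2, h3⟩ := ih
      refine ⟨kcomp ν k p, Pk p h1, ?_, ?_⟩
      · rw [pow_succ', mul_assoc]
        exact IsK.mul hk (hP p h1).1 hL h2
      · rw [pow_succ', mul_assoc]
        exact IsK.mul hk (hP p h1).1 hL' h3
  have c : Commute L (S ^ b * M) := (ls.pow_right b).mul_right lm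
  have c' : Commute L' (S' ^ b * M') := (ls'.pow_right b).mul_right lm'
  set d : ℝ → ℝ := fun t => t ^ 2 *
    (trOn (L.eigenspace t) (S ^ b * M) - trOn (L'.eigenspace t) (S' ^ b * M')) with hd
  have h3 : ∀ a : ℕ, HasSum (fun t : ℝ => t ^ a * d t) 0 := by
    intro a
    obtain ⟨p, hp, e1, e2⟩ := h2 a
    have s1 := A.trace_hasSum hk ik sk (hP p hp).1 (hP p hp).2.1 hL e1
      (((Commute.refl L).pow_right a).mul_right c)
    have s2 := A'.trace_hasSum hk ik' sk (hP p hp).1 (hP p hp).2.2 hL' e2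
      (((Commute.refl L').pow_right a).mul_right c')
    rw [hg _ (Pk _ (Pr _ hp))] at s1
    have s3 := s1.sub s2
    rw [sub_self] at s3
    refine s3.congr_fun fun t => ?_
    rw [trOn_pow_mul c, trOn_pow_mul c', hd]
    ring
  obtain ⟨R, hR⟩ := A.eigenspace_eq_bot hk ik hL
  obtain ⟨R', hR'⟩ := A'.eigenspace_eq_bot hk ik' hL'
  have h4 : ∀ t : ℝ, ¬ |t| ≤ max R R' → d t = 0 := by
    intro t ht
    have h5 := not_le.1 ht
    simp only [hd]
    rw [hR t ((le_max_left _ _).trans_lt h5), hR' t ((le_max_right _ _).trans_lt h5), trOn_bot,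
      trOn_bot, sub_self, mul_zero]
  have h6 : ∀ a : ℕ, HasSum (fun t : {t : ℝ | |t| ≤ max R R'} => t.1 ^ a * d t.1) 0 := by
    intro a
    refine (hasSum_subtype_iff_of_support_subset (f := fun t : ℝ => t ^ a * d t) ?_).2 (h3 a)
    intro t ht
    by_contra hc
    exact ht (show t ^ a * d t = 0 by rw [h4 t hc, mul_zero])
  have hz := eq_zero_of_moments (fun t : {t : ℝ | |t| ≤ max R R'} => t.1) (max R R')
    (fun t => t.2) Subtype.val_injective (fun t => d t.1) (by simpa using (h6 0).summable)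
    (fun a => (h6 a).tsum_eq)
  have h7 : d t = 0 := by
    by_cases h8 : |t| ≤ max R R'
    · exact congrFun hz ⟨t, h8⟩
    · exact h4 t h8
  exact sub_eq_zero.1 ((mul_eq_zero.1 h7).resolve_left (pow_ne_zero 2 ht))

end Pool.Agent.P.MP_3c2f8c_gt.E6
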