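import Pool.Agent.P.MP_3c2f8c_gt.E6.An.Ident
import Pool.Agent.P.MP_3c2f8c_gt.E6.An.Trace2
import Pool.Agent.P.MP_3c2f8c_gt.E6.An.Count2
import Pool.Agent.P.MP_3c2f8c_gt.E6.An.Geom
import Pool.Agent.P.MP_3c2f8c_gt.E6.An.Comp
import Pool.Agent.P.MP_3c2f8c_gt.E6.An.Bump

/-! E6-An: the analytic main theorems (interface). -/

namespace Pool.Agent.P.MP_3c2f8c_gt.E6

open Matrix

variable {ι : Type} [Fintype ι] [DecidableEq ι] {β : Tens ι ℝ} {θ : AutL β}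

namespace AnMainAux

open MeasureTheory

variable {Z : Type} [TopologicalSpace Z] [DiscreteTopology Z] [MeasurableSpace Z]
  [DiscreteMeasurableSpace Z] [Countable Z] {G : Type} [Group G] [Countable G]
  [MulAction G (AutL β)] [MulAction G Z] {ρ : G →* AutL β} {κ : Z → Z → ℕ}
  {G' : Type} [Group G'] [Countable G'] [MulAction G' (AutL β)] [MulAction G' Z]
  {ρ' : G' →* AutL β}

theorem total (hL : IsLie β) (hθ : IsCartan θ) (N : NiceA G Z ρ) (N' : NiceA G' Z ρ')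
    (hκ : HK κ) (hinv : ∀ (g : G) z z', κ (g • z) (g • z') = κ z z')
    (hinv' : ∀ (g : G') z z', κ (g • z) (g • z') = κ z z')
    (tr : TransferL ρ ρ' κ) (tr' : TransferL ρ' ρ κ) (ev : ℝ) :
    Module.Finite ℝ (EigY Z θ G ev) ∧ Module.Finite ℝ (EigY Z θ G' ev) ∧
      Module.finrank ℝ (EigY Z θ G ev) = Module.finrank ℝ (EigY Z θ G' ev) := by
  obtain ⟨D, A⟩ := N.exists_act hθ
  obtain ⟨D', A'⟩ := N'.exists_act hθ
  have h0 : 0 < 1 + |ev| := by positivity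
  obtain ⟨φ, hφ⟩ := exists_ker hθ (δ := 1 / 2 / (1 + |ev|)) (by positivity)
  have hδ : 1 / 2 / (1 + |ev|) * |ev| ≤ 1 / 2 := by
    rw [div_mul_eq_mul_div, div_le_iff₀ h0]
    linarith
  have c1 : Continuous φ := hφ.smooth.continuous
  have c2 : Continuous (lap φ) := (hφ.smooth.laplace hL).continuous
  have p1 : ∀ m, PK (pk φ κ m) := pk_PK c1 hφ.supp hκ.fin
  have p2 : PK (pk (lap φ) κ 0) :=
    pk_PK c2 (hasCompactSupport_lap hL hφ.smooth hφ.supp) hκ.fin 0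
  obtain ⟨L, hk⟩ := A.exists_isK (p1 0) ((pk_ksym φ κ 0).kinv N hinv)
  obtain ⟨S, hS⟩ := A.exists_isK p2 ((pk_ksym (lap φ) κ 0).kinv N hinv)
  obtain ⟨U, hU⟩ := N.exists_isU hκ.fin hinv
  obtain ⟨L', hk'⟩ := A'.exists_isK (p1 0) ((pk_ksym φ κ 0).kinv N' hinv')
  obtain ⟨S', hS'⟩ := A'.exists_isK p2 ((pk_ksym (lap φ) κ 0).kinv N' hinv')
  obtain ⟨U', hU'⟩ := N'.exists_isU hκ.fin hinv'
  have sd := N.specData hL hθ A hκ hinv hφ hδ hk hS hU
  have sd' := N'.specData hL hθ A' hκ hinv' hφ hδ hk' hS' hU'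
  refine ⟨sd.wfin, sd'.wfin, sd.finrank_eq sd' fun t ht b m => ?_⟩
  exact trace_eq A A' (fun p => PK p ∧ KSym κ p ∧ KCh κ (m + 1) p)
    (fun p hp => ⟨hp.1, hp.2.1.kinv N hinv, hp.2.1.kinv N' hinv'⟩) (p1 0)
    ((pk_ksym φ κ 0).kinv N hinv) ((pk_ksym φ κ 0).kinv N' hinv') (pk_symm hφ.symm κ) p2
    (fun p hp => ⟨(p1 0).comp hp.1, (pk_ksym φ κ 0).comp hp.2.1,
      (pk_kch φ κ 0).comp_left hp.2.2⟩)
    (fun p hp => ⟨p2.comp hp.1, (pk_ksym (lap φ) κ 0).comp hp.2.1,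
      (pk_kch (lap φ) κ 0).comp_left hp.2.2⟩)
    (fun p hp => ⟨hp.1.comp (p1 0), hp.2.1.comp (pk_ksym φ κ 0),
      hp.2.2.comp_right (pk_kch φ κ 0)⟩)
    (fun p hp => geom_eq N N' hinv hinv' tr tr' A A' hp.1 hp.2.1 hp.2.2)
    ⟨p1 (m + 1), pk_ksym φ κ (m + 1), pk_kch φ κ (m + 1)⟩ hk hS
    (hU.isK c1 hφ.supp hκ.fin hk (m + 1)) hk' hS' (hU'.isK c1 hφ.supp hκ.fin hk' (m + 1))
    sd.ls ((Commute.refl L).mul_right (sd.lu.pow_right _))
    sd'.ls ((Commute.refl L').mul_right (sd'.lu.pow_right _)) ht b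

theorem comp (hL : IsLie β) (hθ : IsCartan θ) (N : NiceA G Z ρ) (z₀ : Z)
    (hconj : ∀ z : Z, ∃ g : G, MulAction.stabilizer G z = MulAction.stabilizer G (g • z₀)) :
    ∃ r : ℕ, 0 < r ∧ Module.finrank ℝ (EigY Z θ G 0) = r ∧ ∀ ev : ℝ,
      Module.Finite ℝ (EigY Z θ G ev) →
        Module.Finite ℝ (Eig θ ((MulAction.stabilizer G z₀).map ρ) ev) ∧
        Module.finrank ℝ (EigY Z θ G ev) =
          r * Module.finrank ℝ (Eig θ ((MulAction.stabilizer G z₀).map ρ) ev) := by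
  obtain ⟨r, hr, a, z, H⟩ := N.exists_equiv hL θ z₀ hconj
  obtain ⟨D, A⟩ := N.exists_act hθ
  have h1 : Module.finrank ℝ (Eig θ ((MulAction.stabilizer G z₀).map ρ) 0) = 1 := by
    obtain ⟨e, he⟩ := H 0
    have m1 : (fun _ : AutL β => (1 : ℝ)) ∈ Eig θ ((MulAction.stabilizer G z₀).map ρ) 0 :=
      (mem_eig_iff hL).2 ⟨smooth_cst 1, fun _ _ _ => rfl, fun _ _ _ => rfl, fun g => by
        rw [lap_cst hL, neg_zero, zero_mul]⟩
    refine finrank_eq_one (⟨_, m1⟩ : Eig θ _ 0) (fun h => ?_) fun f => ?_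
    · exact one_ne_zero (congrFun (congrArg Subtype.val h) 1)
    · refine ⟨f.1 1, Subtype.ext (funext fun y => ?_)⟩
      have h2 := he (e.symm fun _ => f) ⟨0, hr⟩
      rw [e.apply_symm_apply] at h2
      rw [Submodule.coe_smul, Pi.smul_apply, smul_eq_mul, mul_one, h2, h2]
      exact N.const_of_zero hL hθ A (e.symm fun _ => f).2 _ _ _
  have h2 : Module.Finite ℝ (Eig θ ((MulAction.stabilizer G z₀).map ρ) 0) :=
    Module.finite_of_finrank_eq_succ h1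
  refine ⟨r, hr, ?_, fun ev hfin => ?_⟩
  · obtain ⟨e, -⟩ := H 0
    rw [e.finrank_eq, Module.finrank_pi_fintype, Finset.sum_const, Finset.card_univ, smul_eq_mul,
      h1, mul_one, Fintype.card_fin]
  · obtain ⟨e, -⟩ := H ev
    have h3 := Module.Finite.equiv e
    have h4 : Module.Finite ℝ (Eig θ ((MulAction.stabilizer G z₀).map ρ) ev) :=
      Module.Finite.of_surjective (LinearMap.proj (R := ℝ)
        (φ := fun _ : Fin r => Eig θ ((MulAction.stabilizer G z₀).map ρ) ev) ⟨0, hr⟩)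
        fun y => ⟨fun _ => y, rfl⟩
    refine ⟨h4, ?_⟩
    rw [e.finrank_eq, Module.finrank_pi_fintype, Finset.sum_const, Finset.card_univ, smul_eq_mul,
      Fintype.card_fin]

end AnMainAux

theorem isCompact_bd (hθ : IsCartan θ) (R : ℝ) : IsCompact {g : AutL β | Bd R g} :=
  isCompact_bd' hθ R

theorem bd_of_isCompact {C : Set (AutL β)} (hC : IsCompact C) : ∃ R, ∀ g ∈ C, Bd R g :=
  bd_of_isCompact' hC

theorem NiceL.cocompact {G Z : Type} [Group G] [MulAction G Z] {ρ : G →* AutL β}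
    (hθ : IsCartan θ) (N : NiceL G Z ρ) (z : Z) : ∃ C : Set (AutL β), IsCompact C ∧
      ∀ g : AutL β, ∃ γ ∈ (MulAction.stabilizer G z).map ρ, γ * g ∈ C :=
  NiceL.cocompact' hθ N z

theorem NiceL.discrete {G Z : Type} [Group G] [MulAction G Z] {ρ : G →* AutL β}
    (N : NiceL G Z ρ) (z : Z) (R : ℝ) :
    {g : AutL β | g ∈ (MulAction.stabilizer G z).map ρ ∧ ∀ i j, |g.1.1 i j| ≤ R}.Finite :=
  N.discrete' z R

theorem infinite_of_cocompact (hL : IsLie β) (hθ : IsCartan θ) (h1 : θ ≠ 1)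
    {Γ : Subgroup (AutL β)}
    (hΓ : ∃ C : Set (AutL β), IsCompact C ∧ ∀ g : AutL β, ∃ γ ∈ Γ, γ * g ∈ C) :
    Infinite Γ :=
  infinite_of_cocompact' hL hθ h1 hΓ

theorem isospectral_of_transfer (hL : IsLie β) (hθ : IsCartan θ) {G G' Z : Type} [Group G]
    [Group G'] [Countable G] [Countable G'] [MulAction G Z] [MulAction G' Z]
    {ρ : G →* AutL β} {ρ' : G' →* AutL β} (N : NiceL G Z ρ) (N' : NiceL G' Z ρ')
    {κ : Z → Z → ℕ} (hκ : HK κ) (hinv : ∀ (g : G) z z', κ (g • z) (g • z') = κ z z')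
    (hinv' : ∀ (g : G') z z', κ (g • z) (g • z') = κ z z')
    (tr : TransferL ρ ρ' κ) (tr' : TransferL ρ' ρ κ) (z₀ : Z)
    (hconj : ∀ z : Z, ∃ g : G, MulAction.stabilizer G z = MulAction.stabilizer G (g • z₀))
    (hconj' : ∀ z : Z, ∃ g : G', MulAction.stabilizer G' z = MulAction.stabilizer G' (g • z₀)) :
    Isospectral θ ((MulAction.stabilizer G z₀).map ρ) ((MulAction.stabilizer G' z₀).map ρ') := by
  have : Countable Z := N.countable
  let _ : TopologicalSpace Z := ⊥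
  have : DiscreteTopology Z := ⟨rfl⟩
  let _ : MeasurableSpace Z := ⊤
  have : DiscreteMeasurableSpace Z := ⟨fun _ => trivial⟩
  let _ : MulAction G (AutL β) := MulAction.compHom _ ρ
  let _ : MulAction G' (AutL β) := MulAction.compHom _ ρ'
  have M : NiceA G Z ρ := ⟨N, fun _ _ => rfl⟩
  have M' : NiceA G' Z ρ' := ⟨N', fun _ _ => rfl⟩
  have key := AnMainAux.total hL hθ M M' hκ hinv hinv' tr tr'
  obtain ⟨r, hr, h0, H⟩ := AnMainAux.comp hL hθ M z₀ hconj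
  obtain ⟨r', -, h0', H'⟩ := AnMainAux.comp hL hθ M' z₀ hconj'
  have hrr : r = r' := by rw [← h0, ← h0', (key 0).2.2]
  intro ev
  obtain ⟨k1, k2, k3⟩ := key ev
  refine ⟨(H ev k1).1, (H' ev k2).1, ?_⟩
  rw [(H ev k1).2, (H' ev k2).2, ← hrr] at k3
  exact Nat.eq_of_mul_eq_mul_left hr k3

end Pool.Agent.P.MP_3c2f8c_gt.E6
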