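import Pool.Agent.P.MP_3c2f8c_gt.E6.An.Defs

/-! E6AN-Diag: diagonalisation of self-adjoint matrices. -/

namespace Pool.Agent.P.MP_3c2f8c_gt.E6

open Matrix MeasureTheory Topology

variable {ι : Type} [Fintype ι] [DecidableEq ι]

theorem exists_diag {P A : Matrix ι ι ℝ} (hP : P.PosDef) (hA : P * A = Aᵀ * P) :
    ∃ (V : GL ι ℝ) (d : ι → ℝ), A = V.1 * diagonal d * (V⁻¹).1 := by
  open scoped MatrixOrder in
  obtain ⟨C, hC, rfl⟩ := CStarAlgebra.isStrictlyPositive_iff_eq_star_mul_self.mp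
    hP.isStrictlyPositive
  lift C to GL ι ℝ using hC
  have hs : star (C.1 : Matrix ι ι ℝ) = C.1ᵀ := by
    rw [star_eq_conjTranspose, conjTranspose_eq_transpose_of_trivial]
  rw [hs] at hA
  have h1 : (C⁻¹).1ᵀ * C.1ᵀ = 1 := by
    rw [← transpose_mul, Units.mul_inv, transpose_one]
  have h2 : C.1ᵀ * (C⁻¹).1ᵀ = 1 := by
    rw [← transpose_mul, Units.inv_mul, transpose_one]
  have hH : (C.1 * A * (C⁻¹).1).IsHermitian := by
    rw [IsHermitian, conjTranspose_eq_transpose_of_trivial, transpose_mul, transpose_mul]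
    calc (C⁻¹).1ᵀ * (Aᵀ * C.1ᵀ) = (C⁻¹).1ᵀ * (Aᵀ * (C.1ᵀ * C.1)) * (C⁻¹).1 := by
          simp only [Matrix.mul_assoc, Units.mul_inv, Matrix.mul_one]
      _ = (C⁻¹).1ᵀ * (C.1ᵀ * C.1 * A) * (C⁻¹).1 := by rw [hA]
      _ = ((C⁻¹).1ᵀ * C.1ᵀ) * (C.1 * A * (C⁻¹).1) := by simp only [Matrix.mul_assoc]
      _ = C.1 * A * (C⁻¹).1 := by rw [h1, Matrix.one_mul]
  have hsp := hH.spectral_theorem
  rw [Unitary.conjStarAlgAut_apply] at hsp
  set U := hH.eigenvectorUnitary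
  refine ⟨C⁻¹ * Unitary.toUnits U, RCLike.ofReal ∘ hH.eigenvalues, ?_⟩
  have e : A = (C⁻¹).1 * (C.1 * A * (C⁻¹).1) * C.1 := by
    simp only [Matrix.mul_assoc, Units.inv_mul, Matrix.mul_one]
    rw [← Matrix.mul_assoc, Units.inv_mul, Matrix.one_mul]
  refine e.trans ?_
  conv_lhs => rw [hsp]
  rw [_root_.mul_inv_rev, inv_inv, Units.val_mul, Units.val_mul]
  simp only [Matrix.mul_assoc]
  rfl

theorem exp_diag (V : GL ι ℝ) (d : ι → ℝ) :
    NormedSpace.exp (V.1 * diagonal d * (V⁻¹).1) =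
      V.1 * diagonal (fun i => Real.exp (d i)) * (V⁻¹).1 := by
  rw [Matrix.exp_units_conj, Matrix.exp_diagonal, Pi.exp_def, Real.exp_eq_exp_ℝ]

theorem diag_mulVec_col (V : GL ι ℝ) (d : ι → ℝ) (i : ι) :
    (V.1 * diagonal d * (V⁻¹).1) *ᵥ (V.1 *ᵥ Pi.single i 1) = d i • (V.1 *ᵥ Pi.single i 1) := by
  rw [mulVec_mulVec, Matrix.mul_assoc, Units.inv_mul, Matrix.mul_one, ← mulVec_mulVec,
    ← mulVec_smul]
  congr 1
  ext j
  by_cases h : j = i
  · subst h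
    simp [mulVec_diagonal]
  · simp [mulVec_diagonal, h]

theorem diag_mulVec_eigen (V : GL ι ℝ) (d : ι → ℝ) (h : ℝ → ℝ) {v : ι → ℝ} {c : ℝ}
    (hv : (V.1 * diagonal d * (V⁻¹).1) *ᵥ v = c • v) :
    (V.1 * diagonal (fun i => h (d i)) * (V⁻¹).1) *ᵥ v = h c • v := by
  have h1 : diagonal d *ᵥ ((V⁻¹).1 *ᵥ v) = c • ((V⁻¹).1 *ᵥ v) := by
    have h0 := congrArg (fun w => (V⁻¹).1 *ᵥ w) hv
    simp only [mulVec_mulVec, ← Matrix.mul_assoc, Units.inv_mul, Matrix.one_mul,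
      mulVec_smul] at h0
    rw [mulVec_mulVec]
    exact h0
  have h2 : diagonal (fun i => h (d i)) *ᵥ ((V⁻¹).1 *ᵥ v) = h c • ((V⁻¹).1 *ᵥ v) := by
    ext i
    have h3 := congrFun h1 i
    simp only [mulVec_diagonal, Pi.smul_apply, smul_eq_mul] at h3 ⊢
    by_cases hw : ((V⁻¹).1 *ᵥ v) i = 0
    · rw [hw, mul_zero, mul_zero]
    · rw [mul_right_cancel₀ hw h3]
  rw [← mulVec_mulVec, ← mulVec_mulVec, h2, mulVec_smul, mulVec_mulVec, Units.mul_inv,
    one_mulVec]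

namespace DiagAux

theorem trace_sq (V : GL ι ℝ) (d : ι → ℝ) :
    (V.1 * diagonal d * (V⁻¹).1 * (V.1 * diagonal d * (V⁻¹).1)).trace = ∑ i, d i * d i := by
  have e : V.1 * diagonal d * (V⁻¹).1 * (V.1 * diagonal d * (V⁻¹).1) =
      V.1 * (diagonal d * diagonal d) * (V⁻¹).1 := by
    calc V.1 * diagonal d * (V⁻¹).1 * (V.1 * diagonal d * (V⁻¹).1)
        = V.1 * diagonal d * ((V⁻¹).1 * V.1) * diagonal d * (V⁻¹).1 := by
          simp only [Matrix.mul_assoc]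
      _ = _ := by rw [Units.inv_mul, Matrix.mul_one, Matrix.mul_assoc V.1]
  rw [e, trace_mul_cycle, Units.inv_mul, Matrix.one_mul, diagonal_mul_diagonal, trace_diagonal]

theorem cosh_le (x : ℝ) :
    2 * (1 + 2 * (x * x)) ≤ Real.exp x * Real.exp x + Real.exp (-x) * Real.exp (-x) := by
  have h1 : Real.exp x * Real.exp (-x) = 1 := by rw [← Real.exp_add, add_neg_cancel, Real.exp_zero]
  have h2 : x * x ≤ Real.sinh x * Real.sinh x := by
    rcases le_total 0 x with h | h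
    · exact mul_self_le_mul_self h (Real.self_le_sinh_iff.2 h)
    · have h3 := Real.sinh_le_self_iff.2 h
      nlinarith
  rw [Real.sinh_eq] at h2
  nlinarith

end DiagAux

theorem trace_cosh (V : GL ι ℝ) (d : ι → ℝ) {A : Matrix ι ι ℝ}
    (hA : A = V.1 * diagonal d * (V⁻¹).1) :
    2 * (Fintype.card ι + 2 * (A * A).trace) ≤
      (NormedSpace.exp A * NormedSpace.exp A).trace +
        (NormedSpace.exp (-A) * NormedSpace.exp (-A)).trace := by
  have hn : -A = V.1 * diagonal (fun i => -d i) * (V⁻¹).1 := by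
    rw [hA, ← diagonal_neg, Matrix.mul_neg, Matrix.neg_mul]
  rw [hn, hA, exp_diag, exp_diag, DiagAux.trace_sq, DiagAux.trace_sq, DiagAux.trace_sq,
    ← Finset.sum_add_distrib, Finset.mul_sum]
  have hc : (Fintype.card ι : ℝ) = ∑ _i : ι, (1 : ℝ) := by simp
  rw [hc, ← Finset.sum_add_distrib, Finset.mul_sum]
  exact Finset.sum_le_sum fun i _ => DiagAux.cosh_le (d i)

end Pool.Agent.P.MP_3c2f8c_gt.E6
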