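import Pool.Agent.P.MP_3c2f8c_gt.E6.An.Top

/-! E6AN-Norm: the function NN and a Cauchy-Schwarz inequality. -/

namespace Pool.Agent.P.MP_3c2f8c_gt.E6

open Matrix MeasureTheory Topology

variable {ι : Type} [Fintype ι] [DecidableEq ι] {β : Tens ι ℝ} {θ : AutL β}

namespace NormAux

theorem tr_comm (a b : AutL β) : (a * b).1.1.trace = (b * a).1.1.trace := trace_mul_comm _ _

theorem sq_val (hθ : IsCartan θ) : θ.1.1 * θ.1.1 = 1 :=
  congrArg (fun g : AutL β => g.1.1) hθ.1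

theorem sq_vec (hθ : IsCartan θ) (x : ι → ℝ) : θ.1.1 *ᵥ (θ.1.1 *ᵥ x) = x := by
  rw [mulVec_mulVec, sq_val hθ, one_mulVec]

open scoped MatrixOrder in
theorem exists_sq {P : Matrix ι ι ℝ} (hP : P.PosDef) : ∃ C : GL ι ℝ, P = C.1ᵀ * C.1 := by
  obtain ⟨C, ⟨C, rfl⟩, h⟩ :=
    CStarAlgebra.isStrictlyPositive_iff_eq_star_mul_self.mp hP.isStrictlyPositive
  exact ⟨C, by rw [h, star_eq_conjTranspose, conjTranspose_eq_transpose_of_trivial]⟩

omit [DecidableEq ι] in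
theorem entry_le (M : Matrix ι ι ℝ) (i j : ι) : M i j ^ 2 ≤ (Mᵀ * M).trace := by
  have e : (Mᵀ * M).trace = ∑ b, ∑ a, M a b ^ 2 := by
    simp [trace, mul_apply, sq]
  rw [e]
  refine le_trans ?_ (Finset.single_le_sum (f := fun b => ∑ a, M a b ^ 2)
    (fun b _ => Finset.sum_nonneg fun a _ => sq_nonneg _) (Finset.mem_univ j))
  exact Finset.single_le_sum (f := fun a => M a j ^ 2) (fun a _ => sq_nonneg _) (Finset.mem_univ i)

end NormAux

open NormAux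

theorem continuous_NN : Continuous (NN θ) :=
  (continuous_val.comp (by fun_prop : Continuous fun g : AutL β => θ * g⁻¹ * θ * g)).matrix_trace

theorem NN_inv (g : AutL β) : NN θ g⁻¹ = NN θ g := by
  rw [NN, NN, inv_inv, mul_assoc (θ * g), tr_comm, ← mul_assoc]

theorem NN_mul_left {u : AutL β} (hu : u * θ = θ * u) (g : AutL β) : NN θ (u * g) = NN θ g := by
  have e : θ * (u * g)⁻¹ * θ * (u * g) = θ * g⁻¹ * θ * g := by
    rw [← mul_assoc, mul_assoc _ θ u, ← hu]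
    group
  rw [NN, NN, e]

theorem NN_mul_right {u : AutL β} (hu : u * θ = θ * u) (g : AutL β) : NN θ (g * u) = NN θ g := by
  have hu' : u⁻¹ * θ = θ * u⁻¹ := (Commute.inv_left hu).eq
  rw [← NN_inv, _root_.mul_inv_rev, NN_mul_left hu', NN_inv]

theorem NN_one (hθ : IsCartan θ) : NN θ 1 = Fintype.card ι := by
  rw [NN, inv_one, mul_one, mul_one, hθ.1]
  exact trace_one

theorem NN_eq (hθ : IsCartan θ) (g : AutL β) :
    NN θ g = (θ.1.1 * ((kilM β)⁻¹ * g.1.1ᵀ * kilM β) * θ.1.1 * g.1.1).trace := by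
  rw [← hθ.inv_val]
  rfl

theorem isCompact_NN (hθ : IsCartan θ) (R : ℝ) : IsCompact {g : AutL β | NN θ g ≤ R} := by
  obtain ⟨C, hC⟩ := exists_sq hθ.posDef
  have hB : kilM β * (kilM β)⁻¹ = 1 := mul_nonsing_inv _ hθ.det_ne.isUnit
  have c1 : C.1 * (C⁻¹).1 = 1 := C.mul_inv
  have c2 : (C⁻¹).1 * C.1 = 1 := C.inv_mul
  have h1 : C.1ᵀ * C.1 * -(θ.1.1 * (kilM β)⁻¹) = 1 := by
    rw [← hC, neg_mul_neg, Matrix.mul_assoc, ← Matrix.mul_assoc θ.1.1, sq_val hθ, Matrix.one_mul,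
      hB]
  have h2 : -(θ.1.1 * (kilM β)⁻¹) = (C⁻¹).1 * (C⁻¹).1ᵀ := by
    have h3 : (C⁻¹).1 * (C⁻¹).1ᵀ * (C.1ᵀ * C.1) = 1 := by
      rw [Matrix.mul_assoc, ← Matrix.mul_assoc (C⁻¹).1ᵀ, ← transpose_mul, c1, transpose_one,
        Matrix.one_mul, c2]
    rw [← Matrix.one_mul (-(θ.1.1 * (kilM β)⁻¹)), ← h3, Matrix.mul_assoc, h1, Matrix.mul_one]
  have h4 : ∀ g : AutL β,
      NN θ g = ((C.1 * g.1.1 * (C⁻¹).1)ᵀ * (C.1 * g.1.1 * (C⁻¹).1)).trace := fun g => by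
    have e : θ.1.1 * ((kilM β)⁻¹ * g.1.1ᵀ * kilM β) * θ.1.1 * g.1.1 =
        -(θ.1.1 * (kilM β)⁻¹) * (g.1.1ᵀ * -(kilM β * θ.1.1) * g.1.1) := by
      simp only [Matrix.mul_neg, Matrix.neg_mul, neg_neg, Matrix.mul_assoc]
    rw [NN_eq hθ, e, h2, hC, Matrix.mul_assoc, trace_mul_comm]
    simp only [transpose_mul, Matrix.mul_assoc]
  have hc : Continuous fun M : ι → ι → ℝ => (C⁻¹).1 * Matrix.of M * C.1 :=
    (continuous_const.matrix_mul continuous_id).matrix_mul continuous_const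
  refine (hθ.isClosedEmbedding.isCompact_preimage
    ((isCompact_closedBall (0 : ι → ι → ℝ) √R).image hc)).of_isClosed_subset
      (isClosed_le continuous_NN continuous_const) fun g hg => ?_
  refine ⟨fun i j => (C.1 * g.1.1 * (C⁻¹).1) i j, ?_, ?_⟩
  · rw [mem_closedBall_zero_iff, pi_norm_le_iff_of_nonneg (Real.sqrt_nonneg _)]
    intro i
    rw [pi_norm_le_iff_of_nonneg (Real.sqrt_nonneg _)]
    intro j
    exact Real.abs_le_sqrt ((entry_le _ i j).trans ((h4 g).symm.trans_le hg))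
  · change (C⁻¹).1 * (C.1 * g.1.1 * (C⁻¹).1) * C.1 = g.1.1
    rw [← Matrix.mul_assoc, ← Matrix.mul_assoc, c2, Matrix.one_mul, Matrix.mul_assoc, c2,
      Matrix.mul_one]

theorem cs_dual (hθ : IsCartan θ) (l : (ι → ℝ) →ₗ[ℝ] ℝ) (hl : ∀ x, θ.1.1 *ᵥ x = x → l x = 0)
    {X : ι → ℝ} (hX : θ.1.1 *ᵥ X = -X) :
    l X ^ 2 ≤ kil β X X *
      ∑ i, ∑ j, (kilM β)⁻¹ i j * (l (Pi.single i 1) * l (Pi.single j 1)) := by
  have hB : kilM β * (kilM β)⁻¹ = 1 := mul_nonsing_inv _ hθ.det_ne.isUnit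
  obtain ⟨c, hc⟩ : ∃ c : ι → ℝ, ∀ i, l (Pi.single i 1) = c i := ⟨_, fun _ => rfl⟩
  obtain ⟨v, hv⟩ : ∃ v, v = (kilM β)⁻¹ *ᵥ c := ⟨_, rfl⟩
  have h1 : ∀ x, kil β x v = x ⬝ᵥ c := fun x => by
    rw [kil_eq, hv, mulVec_mulVec, hB, one_mulVec]
  have h2 : ∀ x, l x = kil β x v := fun x => by
    rw [h1, LinearMap.pi_apply_eq_sum_univ l x, dotProduct]
    refine Finset.sum_congr rfl fun i _ => ?_
    rw [← hc, smul_eq_mul]
    congr 2
    funext j
    simp [Pi.single_apply, eq_comm]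
  have h3 : ∑ i, ∑ j, (kilM β)⁻¹ i j * (l (Pi.single i 1) * l (Pi.single j 1)) = kil β v v := by
    rw [h1]
    simp only [hc, hv, dotProduct, mulVec, Finset.sum_mul]
    exact Finset.sum_congr rfl fun i _ => Finset.sum_congr rfl fun j _ => by ring
  have h4 : θ.1.1 *ᵥ v = -v := by
    refine eq_neg_of_add_eq_zero_left (hθ.kilND _ fun y => ?_)
    have e := IsoL.kil θ.2 v (θ.1.1 *ᵥ y)
    rw [sq_vec hθ] at e
    rw [← kilL_apply, map_add, LinearMap.add_apply, kilL_apply, kilL_apply, e, kil_comm v,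
      kil_comm v, ← h2, ← h2, ← map_add]
    exact hl _ (by rw [mulVec_add, sq_vec hθ, add_comm])
  have h5 : ∀ t : ℝ, 0 ≤ kil β X X * (t * t) + 2 * kil β X v * t + kil β v v := fun t => by
    have e := hθ.kil_nonneg (X := t • X + v) (by
      rw [mulVec_add, mulVec_smul, hX, h4, smul_neg, neg_add])
    simp only [← kilL_apply, map_add, map_smul, LinearMap.add_apply, LinearMap.smul_apply,
      smul_eq_mul] at e
    simp only [kilL_apply, kil_comm v X] at e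
    linarith
  have h6 := discrim_le_zero h5
  rw [discrim] at h6
  rw [h3, h2]
  linarith

end Pool.Agent.P.MP_3c2f8c_gt.E6
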