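import Pool.Agent.P.MP_3c2f8c_gt.E6.An.Exp
import Pool.Agent.P.MP_3c2f8c_gt.E6.An.Norm
import Pool.Agent.P.MP_3c2f8c_gt.E6.An.Diag

/-! E6AN-Cosh: growth of NN, and the easy parts of the interface. -/

namespace Pool.Agent.P.MP_3c2f8c_gt.E6

open Matrix MeasureTheory Topology

variable {ι : Type} [Fintype ι] [DecidableEq ι] {β : Tens ι ℝ} {θ : AutL β}

theorem CoshAux.sq (hL : IsLie β) (hθ : IsCartan θ) {X : ι → ℝ} (hX : θ.1.1 *ᵥ X = -X) :
    NN θ (eA β X) = (NormedSpace.exp (adM β X) * NormedSpace.exp (adM β X)).trace := by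
  have h1 : θ⁻¹ = θ := inv_eq_of_mul_eq_one_right hθ.1
  have h2 : θ * (eA β X)⁻¹ * θ = eA β X := by
    have h := conj_eA hL θ (-X)
    rwa [h1, mulVec_neg, hX, neg_neg, eA_neg hL] at h
  rw [NN, h2, Subgroup.coe_mul, Units.val_mul, eA_val hL]

theorem CoshAux.ext2 {M N : Matrix ι ι ℝ} (h : ∀ x y, x ⬝ᵥ M *ᵥ y = x ⬝ᵥ N *ᵥ y) : M = N := by
  ext i j
  simpa using h (Pi.single i 1) (Pi.single j 1)

theorem CoshAux.skew (hL : IsLie β) (X : ι → ℝ) :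
    kilM β * adM β X = -((adM β X)ᵀ * kilM β) := by
  refine CoshAux.ext2 fun x y => ?_
  have h1 : kil β x (br β X y) = -kil β (br β X x) y := by
    rw [← hL.kil_br, hL.anti x X, ← kilL_apply, map_neg, LinearMap.neg_apply, kilL_apply]
  rw [kil_eq, kil_eq, br, br] at h1
  rw [← mulVec_mulVec, h1, neg_mulVec, dotProduct_neg, ← mulVec_mulVec, mulVec_transpose,
    dotProduct_comm x, ← dotProduct_mulVec, dotProduct_comm]

theorem CoshAux.symm (hL : IsLie β) {X : ι → ℝ} (hX : θ.1.1 *ᵥ X = -X) :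
    -(kilM β * θ.1.1) * adM β X = (adM β X)ᵀ * -(kilM β * θ.1.1) := by
  have h1 : θ.1.1 * adM β X = -(adM β X * θ.1.1) := by
    have e : adM β (-X) = -adM β X := map_neg (adL β) X
    rw [isoL_iff_adM.1 θ.2 X, hX, e, Matrix.neg_mul]
  rw [Matrix.neg_mul, Matrix.mul_assoc, h1, Matrix.mul_neg, neg_neg, ← Matrix.mul_assoc,
    CoshAux.skew hL, Matrix.neg_mul, Matrix.mul_neg, Matrix.mul_assoc]

theorem le_NN_eA (hL : IsLie β) (hθ : IsCartan θ) {X : ι → ℝ} (hX : θ.1.1 *ᵥ X = -X)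
    {u : AutL β} (hu : u * θ = θ * u) :
    Fintype.card ι + 2 * kil β X X ≤ NN θ (eA β X * u) := by
  obtain ⟨V, d, hA⟩ := exists_diag hθ.posDef (CoshAux.symm hL hX)
  have h1 := trace_cosh V d hA
  have h2 := CoshAux.sq hL hθ hX
  have h3 := CoshAux.sq hL hθ (X := -X) (by rw [mulVec_neg, hX])
  have e : adM β (-X) = -adM β X := map_neg (adL β) X
  rw [eA_neg hL, NN_inv, e] at h3
  rw [NN_mul_right hu, kil]
  linarith

theorem infinite_of_cocompact' (hL : IsLie β) (hθ : IsCartan θ) (h1 : θ ≠ 1)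
    {Γ : Subgroup (AutL β)}
    (hΓ : ∃ C : Set (AutL β), IsCompact C ∧ ∀ g : AutL β, ∃ γ ∈ Γ, γ * g ∈ C) :
    Infinite Γ := by
  obtain ⟨C, hC, h⟩ := hΓ
  by_contra hf
  rw [not_infinite_iff_finite] at hf
  have hc : IsCompact (⋃ γ : Γ, (fun c => (γ : AutL β)⁻¹ * c) '' C) :=
    isCompact_iUnion fun γ => hC.image (continuous_const.mul continuous_id)
  obtain ⟨R, hR⟩ := (hc.image (continuous_NN (θ := θ))).bddAbove
  have hb : ∀ g, NN θ g ≤ R := by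
    intro g
    obtain ⟨γ, hγ, hg⟩ := h g
    exact hR ⟨g, Set.mem_iUnion.2 ⟨⟨γ, hγ⟩, γ * g, hg, inv_mul_cancel_left γ g⟩, rfl⟩
  obtain ⟨x, hx⟩ : ∃ x, x - θ.1.1 *ᵥ x ≠ 0 := by
    by_contra hn
    refine h1 (Subtype.ext (Units.ext (Matrix.toLin'.injective (LinearMap.ext fun x => ?_))))
    have h0 : x - θ.1.1 *ᵥ x = 0 := by_contra fun h0 => hn ⟨x, h0⟩
    rw [toLin'_apply, toLin'_apply, ← sub_eq_zero.1 h0]
    exact (one_mulVec x).symm
  have hsq : θ.1.1 * θ.1.1 = 1 := congrArg (fun g : AutL β => g.1.1) hθ.1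
  have hX : θ.1.1 *ᵥ (x - θ.1.1 *ᵥ x) = -(x - θ.1.1 *ᵥ x) := by
    rw [mulVec_sub, mulVec_mulVec, hsq, one_mulVec, neg_sub]
  generalize x - θ.1.1 *ᵥ x = X at hx hX
  have hk := hθ.kil_pos hX hx
  obtain ⟨t, ht⟩ : ∃ t : ℝ, t * t * kil β X X = |R| + 1 := by
    refine ⟨√((|R| + 1) / kil β X X), ?_⟩
    rw [Real.mul_self_sqrt (by positivity), div_mul_cancel₀ _ hk.ne']
  have h2 := le_NN_eA hL hθ (X := t • X) (by rw [mulVec_smul, hX, smul_neg]) (u := 1)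
    (by rw [one_mul, mul_one])
  have h3 : kil β (t • X) (t • X) = t * t * kil β X X := by
    rw [← kilL_apply, map_smul, map_smul, LinearMap.smul_apply, kilL_apply, smul_eq_mul,
      smul_eq_mul, mul_assoc]
  have h4 := hb (eA β (t • X) * 1)
  have h5 := le_abs_self R
  have h6 := abs_nonneg R
  have h7 : (0 : ℝ) ≤ Fintype.card ι := Nat.cast_nonneg _
  rw [h3, ht] at h2
  linarith

theorem NiceL.cocompact' {G Z : Type} [Group G] [MulAction G Z] {ρ : G →* AutL β}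
    (hθ : IsCartan θ) (N : NiceL G Z ρ) (z : Z) : ∃ C : Set (AutL β), IsCompact C ∧
      ∀ g : AutL β, ∃ γ ∈ (MulAction.stabilizer G z).map ρ, γ * g ∈ C := by
  obtain ⟨R, s, h⟩ := N.cocpt
  have hc : ∀ z' : Z, ∃ k : G, (∃ g : G, g • z = z') → k • z = z' := by
    intro z'
    by_cases h0 : ∃ g : G, g • z = z'
    · obtain ⟨g, hg⟩ := h0
      exact ⟨g, fun _ => hg⟩
    · exact ⟨1, fun h1 => absurd h1 h0⟩
  choose k hk using hc
  refine ⟨⋃ z' ∈ s, (fun c => (ρ (k z'))⁻¹ * c) '' {g | Bd R g},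
    s.isCompact_biUnion fun z' _ =>
      (isCompact_bd' hθ R).image (continuous_const.mul continuous_id), fun x => ?_⟩
  obtain ⟨g, h1, h2⟩ := h x z
  refine ⟨ρ ((k (g • z))⁻¹ * g), ⟨_, ?_, rfl⟩, Set.mem_iUnion₂.2 ⟨g • z, h2, ρ g * x, h1, ?_⟩⟩
  · show ((k (g • z))⁻¹ * g) • z = z
    rw [mul_smul, inv_smul_eq_iff, hk _ ⟨g, rfl⟩]
  · show (ρ (k (g • z)))⁻¹ * (ρ g * x) = _
    rw [map_mul, map_inv, mul_assoc]

theorem NiceL.discrete' {G Z : Type} [Group G] [MulAction G Z] {ρ : G →* AutL β}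
    (N : NiceL G Z ρ) (z : Z) (R : ℝ) :
    {g : AutL β | g ∈ (MulAction.stabilizer G z).map ρ ∧ ∀ i j, |g.1.1 i j| ≤ R}.Finite := by
  refine ((N.proper z z R).image ρ).subset ?_
  rintro _ ⟨⟨g, hg, rfl⟩, h⟩
  exact ⟨g, ⟨hg, h⟩, rfl⟩

theorem NiceL.countable {G Z : Type} [Group G] [Countable G] [MulAction G Z] {ρ : G →* AutL β}
    (N : NiceL G Z ρ) : Countable Z := by
  obtain ⟨R, s, h⟩ := N.cocpt
  have hs : Function.Surjective fun p : G × s => p.1 • (p.2 : Z) := by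
    intro z
    obtain ⟨g, -, hg⟩ := h 1 z
    exact ⟨(g⁻¹, ⟨g • z, hg⟩), inv_smul_smul g z⟩
  exact hs.countable

end Pool.Agent.P.MP_3c2f8c_gt.E6
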