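import Pool.Agent.P.MP_3c2f8c_gt.E6.An.Defs
import Pool.Agent.P.MP_3c2f8c_gt.An.Moment

/-! E6AN-Count1: multiplicities from traces in finite dimension. -/

namespace Pool.Agent.P.MP_3c2f8c_gt.E6

open Matrix MeasureTheory Topology

variable {E E' : Type} [AddCommGroup E] [Module ℝ E] [Module.Finite ℝ E] [AddCommGroup E']
  [Module ℝ E'] [Module.Finite ℝ E']

omit [Module.Finite ℝ E] in
theorem Count1Aux.trace_mul_aeval (R U : Module.End ℝ E) (c : Polynomial ℝ) :
    LinearMap.trace ℝ E (R * Polynomial.aeval U c) = c.coeff 0 * LinearMap.trace ℝ E R +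
      ∑ i ∈ Finset.range c.natDegree, c.coeff (i + 1) * LinearMap.trace ℝ E (R * U ^ (i + 1)) := by
  rw [Polynomial.aeval_eq_sum_range, Finset.sum_range_succ', mul_add, Finset.mul_sum, map_add,
    map_sum, pow_zero, mul_smul_comm, mul_one, map_smul, add_comm]
  simp only [mul_smul_comm, map_smul, smul_eq_mul]

theorem Count1Aux.isInternal (b : E →ₗ[ℝ] E →ₗ[ℝ] ℝ) (hb : ∀ x y, b x y = b y x)
    (hp : ∀ x, x ≠ 0 → 0 < b x x) (S : Module.End ℝ E) (hS : ∀ x y, b (S x) y = b x (S y)) :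
    DirectSum.IsInternal fun c : ℝ => S.eigenspace c := by
  let core : InnerProductSpace.Core ℝ E :=
    { inner := fun x y => b x y
      conj_inner_symm := fun x y => by simp [hb y x]
      re_inner_nonneg := fun x => by
        by_cases hx : x = 0
        · simp [hx]
        · simpa using (hp x hx).le
      add_left := fun x y z => by simp
      smul_left := fun x y r => by simp
      definite := fun x hx => by
        by_contra h0
        exact (hp x h0).ne' hx }
  let : NormedAddCommGroup E := core.toNormedAddCommGroup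
  let : InnerProductSpace ℝ E := InnerProductSpace.ofCore core.toCore
  have hT : S.IsSymmetric := hS
  exact hT.orthogonalFamily_eigenspaces.isInternal_iff.mpr
    hT.orthogonalComplement_iSup_eigenspaces_eq_bot

theorem trace_eq_of_mul_pow (R U : Module.End ℝ E) (R' U' : Module.End ℝ E')
    (hU : Function.Injective U) (hU' : Function.Injective U')
    (h : ∀ m : ℕ, LinearMap.trace ℝ E (R * U ^ (m + 1)) =
      LinearMap.trace ℝ E' (R' * U' ^ (m + 1))) :
    LinearMap.trace ℝ E R = LinearMap.trace ℝ E' R' := by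
  have h1 := Count1Aux.trace_mul_aeval R U (U.charpoly * U'.charpoly)
  have h2 := Count1Aux.trace_mul_aeval R' U' (U.charpoly * U'.charpoly)
  rw [map_mul (Polynomial.aeval U), LinearMap.aeval_self_charpoly, zero_mul, mul_zero,
    map_zero] at h1
  rw [map_mul (Polynomial.aeval U'), LinearMap.aeval_self_charpoly, mul_zero, mul_zero,
    map_zero] at h2
  simp only [h] at h1
  have h3 : (U.charpoly * U'.charpoly).coeff 0 ≠ 0 := by
    rw [Polynomial.mul_coeff_zero]
    exact mul_ne_zero (MomentAux.coeff_ne U hU) (MomentAux.coeff_ne U' hU')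
  exact mul_left_cancel₀ h3 (add_right_cancel (h1.symm.trans h2))

theorem trace_pow_symm (b : E →ₗ[ℝ] E →ₗ[ℝ] ℝ) (hb : ∀ x y, b x y = b y x)
    (hp : ∀ x, x ≠ 0 → 0 < b x x) (S : Module.End ℝ E) (hS : ∀ x y, b (S x) y = b x (S y)) :
    ∃ s : Finset ℝ, (∀ c, c ∉ s → S.eigenspace c = ⊥) ∧ ∀ n : ℕ, LinearMap.trace ℝ E (S ^ n) =
      ∑ c ∈ s, c ^ n * (Module.finrank ℝ (S.eigenspace c) : ℝ) := by
  have hfin : {c : ℝ | S.eigenspace c ≠ ⊥}.Finite := S.finite_hasEigenvalue
  refine ⟨hfin.toFinset, fun c hc => by simpa using hc, fun n => ?_⟩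
  have hv : ∀ c : ℝ, ∀ x ∈ S.eigenspace c, (S ^ n) x = c ^ n • x := fun c x hx => by
    by_cases h0 : x = 0
    · simp [h0]
    · exact Module.End.HasEigenvector.pow_apply ⟨hx, h0⟩ n
  have hm : ∀ c : ℝ, Set.MapsTo (S ^ n) (S.eigenspace c) (S.eigenspace c) := fun c x hx => by
    rw [hv c x hx]
    exact Submodule.smul_mem _ _ hx
  rw [LinearMap.trace_eq_sum_trace_restrict' (Count1Aux.isInternal b hb hp S hS) hfin hm]
  refine Finset.sum_congr rfl fun c _ => ?_
  have he : (S ^ n).restrict (hm c) = c ^ n • (1 : Module.End ℝ (S.eigenspace c)) :=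
    LinearMap.ext fun x => Subtype.ext (hv c x.1 x.2)
  rw [he, map_smul, LinearMap.trace_one, smul_eq_mul]

theorem finrank_eigenspace_eq (b : E →ₗ[ℝ] E →ₗ[ℝ] ℝ) (hb : ∀ x y, b x y = b y x)
    (hp : ∀ x, x ≠ 0 → 0 < b x x) (S : Module.End ℝ E) (hS : ∀ x y, b (S x) y = b x (S y))
    (b' : E' →ₗ[ℝ] E' →ₗ[ℝ] ℝ) (hb' : ∀ x y, b' x y = b' y x)
    (hp' : ∀ x, x ≠ 0 → 0 < b' x x) (S' : Module.End ℝ E')
    (hS' : ∀ x y, b' (S' x) y = b' x (S' y))
    (h : ∀ n : ℕ, LinearMap.trace ℝ E (S ^ n) = LinearMap.trace ℝ E' (S' ^ n)) (c : ℝ) :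
    Module.finrank ℝ (S.eigenspace c) = Module.finrank ℝ (S'.eigenspace c) := by
  classical
  obtain ⟨s, hs, ht⟩ := trace_pow_symm b hb hp S hS
  obtain ⟨s', hs', ht'⟩ := trace_pow_symm b' hb' hp' S' hS'
  set u : Finset ℝ := insert c (s ∪ s') with hu
  have e1 : ∀ n : ℕ, ∑ x ∈ s, x ^ n * (Module.finrank ℝ (S.eigenspace x) : ℝ) =
      ∑ x ∈ u, x ^ n * (Module.finrank ℝ (S.eigenspace x) : ℝ) := fun n =>
    Finset.sum_subset (Finset.subset_union_left.trans (Finset.subset_insert _ _))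
      fun x _ hx => by rw [hs x hx, finrank_bot, Nat.cast_zero, mul_zero]
  have e2 : ∀ n : ℕ, ∑ x ∈ s', x ^ n * (Module.finrank ℝ (S'.eigenspace x) : ℝ) =
      ∑ x ∈ u, x ^ n * (Module.finrank ℝ (S'.eigenspace x) : ℝ) := fun n =>
    Finset.sum_subset (Finset.subset_union_right.trans (Finset.subset_insert _ _))
      fun x _ hx => by rw [hs' x hx, finrank_bot, Nat.cast_zero, mul_zero]
  have key := eq_zero_of_moments (ι := u) (fun x => x.1) (∑ x ∈ u, |x|)
    (fun x => Finset.single_le_sum (f := fun x : ℝ => |x|) (fun _ _ => abs_nonneg _) x.2)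
    Subtype.val_injective
    (fun x => (Module.finrank ℝ (S.eigenspace x.1) : ℝ) - Module.finrank ℝ (S'.eigenspace x.1))
    Summable.of_finite fun n => by
      rw [tsum_fintype, Finset.sum_coe_sort u fun x => x ^ n *
        ((Module.finrank ℝ (S.eigenspace x) : ℝ) - Module.finrank ℝ (S'.eigenspace x))]
      simp only [mul_sub, Finset.sum_sub_distrib]
      rw [← e1, ← e2, ← ht, ← ht', h, sub_self]
  have := congrFun key ⟨c, Finset.mem_insert_self _ _⟩
  exact_mod_cast sub_eq_zero.1 this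

end Pool.Agent.P.MP_3c2f8c_gt.E6
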