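import Pool.Agent.P.MP_3c2f8c_gt.E6.An.Smo

/-! E6AN-DInt: differentiation under the integral, convolution. -/

namespace Pool.Agent.P.MP_3c2f8c_gt.E6

open Matrix MeasureTheory Topology

variable {ι : Type} [Fintype ι] [DecidableEq ι] {β : Tens ι ℝ} {θ : AutL β}

namespace DIntAux

theorem exists_cpt (hL : IsLie β) {T : Set (AutL β)} (hT : IsCompact T) (b : AutL β ≃ₜ AutL β)
    (X : ι → ℝ) : ∃ C : Set (AutL β), IsCompact C ∧
      ∀ s ∈ Metric.ball (0 : ℝ) 1, ∀ y, b y * eA β (s • X) ∈ T → y ∈ C := by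
  have he : Continuous fun s : ℝ => eA β (s • X) :=
    (continuous_eA hL).comp (continuous_id.smul continuous_const)
  have hc : Continuous fun p : AutL β × ℝ => b.symm (p.1 * (eA β (p.2 • X))⁻¹) :=
    b.symm.continuous.comp (continuous_fst.mul (he.comp continuous_snd).inv)
  refine ⟨_, (hT.prod (isCompact_closedBall (0 : ℝ) 1)).image hc, fun s hs y hy => ?_⟩
  refine ⟨(b y * eA β (s • X), s), ⟨hy, Metric.ball_subset_closedBall hs⟩, ?_⟩
  simp

end DIntAux

theorem hasDerivAt_integral_eA (hL : IsLie β) {F f : AutL β → ℝ} (hF : Smooth F)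
    (hs : HasCompactSupport F) (b : AutL β ≃ₜ AutL β) (hf : Continuous f) (X : ι → ℝ) :
    HasDerivAt (fun s : ℝ => ∫ y, F (b y * eA β (s • X)) * f y ∂mu β)
      (∫ y, LD X F (b y) * f y ∂mu β) 0 := by
  have hD := hF.ld hL X
  have hDs := hasCompactSupport_LD hL hs X
  obtain ⟨c, hc⟩ := hDs.exists_bound_of_continuous hD.continuous
  obtain ⟨C, hC, hCm⟩ := DIntAux.exists_cpt hL hDs.isCompact b X
  have hcont : ∀ {H : AutL β → ℝ}, Continuous H → ∀ s : ℝ,
      Continuous fun y => H (b y * eA β (s • X)) * f y := fun hH s =>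
    (hH.comp (b.continuous.mul continuous_const)).mul hf
  have h0 : Integrable (fun y => F (b y * eA β ((0 : ℝ) • X)) * f y) (mu β) := by
    refine (hcont hF.continuous 0).integrable_of_hasCompactSupport ?_
    simp only [zero_smul, eA_zero, mul_one]
    exact (hs.comp_homeomorph b).mul_right
  have hb : Integrable (C.indicator fun y => c * ‖f y‖) (mu β) := by
    rw [integrable_indicator_iff hC.measurableSet]
    exact (continuous_const.mul hf.norm).continuousOn.integrableOn_compact hC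
  have key := (hasDerivAt_integral_of_dominated_loc_of_deriv_le (μ := mu β)
    (F := fun (s : ℝ) y => F (b y * eA β (s • X)) * f y)
    (F' := fun (s : ℝ) y => LD X F (b y * eA β (s • X)) * f y) (x₀ := (0 : ℝ))
    (bound := C.indicator fun y => c * ‖f y‖) (Metric.ball_mem_nhds (0 : ℝ) one_pos)
    (Filter.Eventually.of_forall fun s => (hcont hF.continuous s).aestronglyMeasurable) h0
    (hcont hD.continuous 0).aestronglyMeasurable
    (Filter.Eventually.of_forall fun y s hs' => ?_) hb
    (Filter.Eventually.of_forall fun y s _ =>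
      (hF.hasDerivAt hL X (b y) s).mul_const (f y))).2
  · simpa only [zero_smul, eA_zero, mul_one] using key
  · by_cases hy : y ∈ C
    · rw [Set.indicator_of_mem hy, norm_mul]
      exact mul_le_mul_of_nonneg_right (hc _) (norm_nonneg _)
    · rw [Set.indicator_of_notMem hy,
        image_eq_zero_of_notMem_tsupport fun h => hy (hCm s hs' y h), zero_mul, norm_zero]

theorem LD_integral (hL : IsLie β) {Θ f : AutL β → ℝ} (hΘ : Smooth Θ)
    (hs : HasCompactSupport Θ) (hf : Continuous f)
    (hr : Smooth fun x => ∫ y, Θ (y⁻¹ * x) * f y ∂mu β) (X : ι → ℝ) (x : AutL β) :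
    LD X (fun x => ∫ y, Θ (y⁻¹ * x) * f y ∂mu β) x = ∫ y, LD X Θ (y⁻¹ * x) * f y ∂mu β := by
  have h1 := hr.hasDerivAt hL X x 0
  have h2 := hasDerivAt_integral_eA hL hΘ hs
    ((Homeomorph.inv (AutL β)).trans (Homeomorph.mulRight x)) hf X
  simp only [zero_smul, eA_zero, mul_one, ← mul_assoc] at h1
  exact h1.unique h2

theorem cv_eq (Θ f : AutL β → ℝ) (x : AutL β) : cv Θ f x = ∫ y, Θ y * f (x * y) ∂mu β := by
  unfold cv
  rw [← integral_mul_left_eq_self (fun y => Θ (x⁻¹ * y) * f y) x]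
  simp only [inv_mul_cancel_left]

theorem cv_right {Θ : AutL β → ℝ} (hK : ∀ u, u * θ = θ * u → ∀ g, Θ (u * g) = Θ g)
    (f : AutL β → ℝ) {u : AutL β} (hu : u * θ = θ * u) (x : AutL β) :
    cv Θ f (x * u) = cv Θ f x := by
  unfold cv
  have hu' : u⁻¹ * θ = θ * u⁻¹ := (show Commute u θ from hu).inv_left
  simp only [_root_.mul_inv_rev, mul_assoc, hK _ hu']

theorem cv_scal (Θ f : AutL β → ℝ) (c : ℝ) (x : AutL β) :
    cv Θ (fun y => c * f y) x = c * cv Θ f x := by
  unfold cv
  rw [← integral_const_mul]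
  simp only [mul_left_comm]

end Pool.Agent.P.MP_3c2f8c_gt.E6
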