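import Pool.Agent.P.MP_3c2f8c_gt.E6.ADefs
import Pool.Agent.P.MP_3c2f8c_gt.E6.Lie

/-!
Definitions for the proof of the analytic main theorem: one-parameter groups, left invariant
vector fields, Haar measure, properly supported kernels and their operators.
-/

namespace Pool.Agent.P.MP_3c2f8c_gt.E6

open Matrix MeasureTheory Topology

section Grp

variable {ι : Type} [Fintype ι] [DecidableEq ι] {β : Tens ι ℝ}

variable (β) in
/-- The automorphism `exp (ad x)`. -/
noncomputable def eA (x : ι → ℝ) : AutL β := pick fun u => u.1.1 = NormedSpace.exp (adM β x)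

/-- The square of the Hilbert-Schmidt norm of `g`. -/
noncomputable def NN (θ g : AutL β) : ℝ := (θ * g⁻¹ * θ * g).1.1.trace

/-- The left invariant vector field of `X`. -/
noncomputable def LD (X : ι → ℝ) (f : AutL β → ℝ) (g : AutL β) : ℝ := fderiv ℝ (chart f g) 0 X

/-- The square of the gradient. -/
noncomputable def gam (f : AutL β → ℝ) (g : AutL β) : ℝ :=
  ∑ i, ∑ j, (kilM β)⁻¹ i j * (LD (Pi.single i 1) f g * LD (Pi.single j 1) f g)

instance : MeasurableSpace (AutL β) := borel _

instance : BorelSpace (AutL β) := ⟨rfl⟩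

theorem isClosed_AutL : IsClosed (AutL β : Set (GL ι ℝ)) := by
  have e : (AutL β : Set (GL ι ℝ)) = ⋂ x, ⋂ y,
      {g : GL ι ℝ | g.1 *ᵥ br β x y = br β (g.1 *ᵥ x) (g.1 *ᵥ y)} := by
    ext g
    simp only [Set.mem_iInter, Set.mem_ofPred_eq]
    rfl
  rw [e]
  refine isClosed_iInter fun x => isClosed_iInter fun y => isClosed_eq
    (Units.continuous_val.matrix_mulVec continuous_const) ?_
  refine Continuous.matrix_mulVec ?_ (Units.continuous_val.matrix_mulVec continuous_const)
  refine continuous_matrix fun k j => continuous_finsetSum _ fun i _ => ?_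
  exact ((continuous_apply i).comp
    (Units.continuous_val.matrix_mulVec continuous_const)).mul continuous_const

instance : LocallyCompactSpace (AutL β) :=
  haveI : LocallyCompactSpace (Matrix ι ι ℝ) := inferInstanceAs (LocallyCompactSpace (ι → ι → ℝ))
  isClosed_AutL.locallyCompactSpace

instance : SecondCountableTopology (AutL β) :=
  haveI : SecondCountableTopology (Matrix ι ι ℝ) :=
    inferInstanceAs (SecondCountableTopology (ι → ι → ℝ))
  haveI : SecondCountableTopology (Matrix ι ι ℝ)ᵐᵒᵖ :=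
    MulOpposite.opHomeomorph.symm.secondCountableTopology
  haveI : SecondCountableTopology (GL ι ℝ) := Units.isEmbedding_embedProduct.secondCountableTopology
  TopologicalSpace.Subtype.secondCountableTopology _

variable (β) in
/-- A left Haar measure. -/
noncomputable def mu : Measure (AutL β) := Measure.haar

instance : (mu β).IsHaarMeasure := inferInstanceAs (Measure.haar : Measure (AutL β)).IsHaarMeasure

/-- The convolution operator of `Θ`. -/
noncomputable def cv (Θ f : AutL β → ℝ) (x : AutL β) : ℝ := ∫ y, Θ (x⁻¹ * y) * f y ∂mu β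

/-- A smoothing probability kernel concentrated near the centraliser of `θ`. -/
structure Ker (θ : AutL β) (δ : ℝ) (φ : AutL β → ℝ) : Prop where
  smooth : Smooth φ
  supp : HasCompactSupport φ
  nonneg : ∀ g, 0 ≤ φ g
  int : ∫ g, φ g ∂mu β = 1
  symm : ∀ g, φ g⁻¹ = φ g
  kinv : ∀ u, u * θ = θ * u → ∀ g, φ (u * g) = φ g
  near : ∀ g, φ g ≠ 0 → NN θ g ≤ Fintype.card ι + δ
  reg : ∀ f : AutL β → ℝ, Continuous f → Smooth (cv φ f)

end Grp

section Abstract

variable {Y : Type}

/-- Continuous, properly supported kernels. -/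
structure PK [TopologicalSpace Y] (k : Y → Y → ℝ) : Prop where
  cont : Continuous (Function.uncurry k)
  supp : ∀ C : Set Y, IsCompact C →
    ∃ C' : Set Y, IsCompact C' ∧ ∀ w ∈ C, ∀ v, k w v ≠ 0 → v ∈ C'

/-- Invariant kernels. -/
def KInv (G : Type) [Group G] [MulAction G Y] (k : Y → Y → ℝ) : Prop :=
  ∀ (g : G) (w v : Y), k (g • w) (g • v) = k w v

/-- A proper measure preserving action with a bounded strict fundamental domain `D`. -/
structure Act (G : Type) [Group G] [MulAction G Y] [TopologicalSpace Y] [MeasurableSpace Y]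
    (ν : Measure Y) (D : Set Y) : Prop where
  cont : ∀ g : G, Continuous fun w : Y => g • w
  mp : ∀ g : G, MeasurePreserving (fun w : Y => g • w) ν ν
  proper : ∀ C : Set Y, IsCompact C → {g : G | ∃ w ∈ C, g • w ∈ C}.Finite
  meas : MeasurableSet D
  strict : StrictFD G D
  bdd : ∃ C : Set Y, IsCompact C ∧ D ⊆ C

/-- The periodised kernel. -/
noncomputable def perK (G : Type) [Group G] [MulAction G Y] (k : Y → Y → ℝ) (w v : Y) : ℝ :=
  ∑' g : G, k w (g • v)

/-- Composition of kernels. -/
noncomputable def kcomp [MeasurableSpace Y] (ν : Measure Y) (k k' : Y → Y → ℝ) (w v : Y) : ℝ :=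
  ∫ t, k w t * k' t v ∂ν

variable (Y) in
/-- Continuous invariant functions. -/
def CI (G : Type) [Group G] [MulAction G Y] [TopologicalSpace Y] : Submodule ℝ (Y → ℝ) where
  carrier := {f | Continuous f ∧ ∀ (g : G) (w : Y), f (g • w) = f w}
  zero_mem' := ⟨continuous_const, fun _ _ => rfl⟩
  add_mem' := fun hf hg => ⟨hf.1.add hg.1, fun g w => by simp [hf.2 g w, hg.2 g w]⟩
  smul_mem' := fun c _ hf => ⟨hf.1.const_smul c, fun g w => by simp [hf.2 g w]⟩

/-- `L` is the integral operator with kernel `k` on continuous invariant functions. -/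
def IsK {G : Type} [Group G] [MulAction G Y] [TopologicalSpace Y] [MeasurableSpace Y]
    (ν : Measure Y) (k : Y → Y → ℝ) (L : Module.End ℝ (CI Y G)) : Prop :=
  ∀ (f : CI Y G) (w : Y), (L f).1 w = ∫ v, k w v * f.1 v ∂ν

/-- The linear algebra that is needed to compute the dimension of `W` from traces. -/
structure SpecData {V : Type} [AddCommGroup V] [Module ℝ V] (L S U : Module.End ℝ V)
    (W : Submodule ℝ V) (ev : ℝ) : Prop where
  ip : ∃ b : V →ₗ[ℝ] V →ₗ[ℝ] ℝ, (∀ x y, b x y = b y x) ∧ (∀ x, x ≠ 0 → 0 < b x x) ∧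
    (∀ x y, b (L x) y = b x (L y)) ∧ ∀ x y, b (S x) y = b x (S y)
  fin : ∀ t : ℝ, t ≠ 0 → Module.Finite ℝ (L.eigenspace t)
  ls : Commute L S
  lu : Commute L U
  inj : Function.Injective U
  wfin : Module.Finite ℝ W
  wmap : ∀ x ∈ W, L x ∈ W
  winj : ∀ x ∈ W, L x = 0 → x = 0
  wiff : ∀ t : ℝ, t ≠ 0 → ∀ x ∈ L.eigenspace t, x ∈ W ↔ S x = -(t * ev) • x

end Abstract

section Concrete

variable {ι : Type} [Fintype ι] [DecidableEq ι] {β : Tens ι ℝ} {Z : Type}

/-- `NiceL` with the action on `AutL β` as an instance. -/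
structure NiceA (G : Type) [Group G] [MulAction G (AutL β)] (Z : Type) [MulAction G Z]
    (ρ : G →* AutL β) : Prop extends NiceL G Z ρ where
  act : ∀ (g : G) (x : AutL β), g • x = ρ g * x

variable (β Z) in
/-- The measure on `AutL β × Z`. -/
noncomputable def nu [MeasurableSpace Z] : Measure (AutL β × Z) := (mu β).prod Measure.count

section Inst

variable [TopologicalSpace Z] [DiscreteTopology Z] [MeasurableSpace Z] [DiscreteMeasurableSpace Z]
  [Countable Z]

instance : IsFiniteMeasureOnCompacts (nu β Z) :=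
  haveI : IsFiniteMeasureOnCompacts (Measure.count : Measure Z) :=
    ⟨fun _ h => Measure.count_apply_lt_top.2 h.finite_of_discrete⟩
  inferInstanceAs (IsFiniteMeasureOnCompacts ((mu β).prod Measure.count))

instance : (nu β Z).IsOpenPosMeasure :=
  haveI : (Measure.count : Measure Z).IsOpenPosMeasure :=
    ⟨fun _ _ h => Measure.count_ne_zero_iff.2 h⟩
  inferInstanceAs ((mu β).prod Measure.count).IsOpenPosMeasure

end Inst

/-- The product kernel `Θ ⊗ κ ^ m`. -/
noncomputable def pk (Θ : AutL β → ℝ) (κ : Z → Z → ℕ) (m : ℕ) (w v : AutL β × Z) : ℝ :=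
  Θ (w.1⁻¹ * v.1) * (kpow κ m w.2 v.2).toReal

/-- Kernels invariant under `AutL β` and the automorphisms of `(Z, κ)`. -/
def KSym (κ : Z → Z → ℕ) (q : AutL β × Z → AutL β × Z → ℝ) : Prop :=
  ∀ (g : AutL β) (Ψ : Z ≃ Z), (∀ z z', κ (Ψ z) (Ψ z') = κ z z') →
    ∀ w v, q (g * w.1, Ψ w.2) (g * v.1, Ψ v.2) = q w v

/-- Kernels supported on pairs joined by a chain of length `m`. -/
def KCh (κ : Z → Z → ℕ) (m : ℕ) (q : AutL β × Z → AutL β × Z → ℝ) : Prop :=
  ∀ w v, q w v ≠ 0 → Chain κ m w.2 v.2

variable (Z) in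
/-- The total eigenspace. -/
def EigY (θ : AutL β) (G : Type) [Group G] [MulAction G (AutL β)] [MulAction G Z]
    [TopologicalSpace Z] (ev : ℝ) : Submodule ℝ (CI (AutL β × Z) G) where
  carrier := {f | ∀ z, (fun x => f.1 (x, z)) ∈ Eig θ ⊥ ev}
  zero_mem' := fun _ => Submodule.zero_mem _
  add_mem' := fun hf hg z => Submodule.add_mem _ (hf z) (hg z)
  smul_mem' := fun c _ hf z => Submodule.smul_mem _ c (hf z)

/-- `U` is the operator of `κ` on continuous invariant functions. -/
def IsU {G : Type} [Group G] [MulAction G (AutL β)] [MulAction G Z] [TopologicalSpace Z]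
    (κ : Z → Z → ℕ) (U : Module.End ℝ (CI (AutL β × Z) G)) : Prop :=
  ∀ (f : CI (AutL β × Z) G) (w : AutL β × Z), (U f).1 w = UU κ f.1 w

/-- The left invariant vector field of `X` in the first variable. -/
noncomputable def LDY (X : ι → ℝ) (F : AutL β × Z → ℝ) (w : AutL β × Z) : ℝ :=
  LD X (fun x => F (x, w.2)) w.1

end Concrete

end Pool.Agent.P.MP_3c2f8c_gt.E6
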