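import Pool.Agent.P.MP_3c2f8c_gt.E6.An.Defs
import Pool.Agent.P.MP_3c2f8c_gt.E6.Lie1

/-! E6AN-Exp: one-parameter groups of automorphisms. -/

namespace Pool.Agent.P.MP_3c2f8c_gt.E6

open Matrix MeasureTheory Topology

variable {ι : Type} [Fintype ι] [DecidableEq ι] {β : Tens ι ℝ} {θ : AutL β}

namespace ExpAux

theorem exp_mul_neg (D : Matrix ι ι ℝ) : NormedSpace.exp D * NormedSpace.exp (-D) = 1 := by
  rw [← Matrix.exp_add_of_commute _ _ (Commute.refl D).neg_right, add_neg_cancel,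
    NormedSpace.exp_zero]

theorem exp_neg_mul (D : Matrix ι ι ℝ) : NormedSpace.exp (-D) * NormedSpace.exp D = 1 := by
  rw [← Matrix.exp_add_of_commute _ _ (Commute.refl D).neg_left, neg_add_cancel,
    NormedSpace.exp_zero]

open scoped Matrix.Norms.Operator in
theorem exp_der {D : Matrix ι ι ℝ} (hD : IsDer β D) (y : ι → ℝ) :
    NormedSpace.exp D * adM β y = adM β (NormedSpace.exp D *ᵥ y) * NormedSpace.exp D := by
  let L : Matrix ι ι ℝ →L[ℝ] Matrix ι ι ℝ :=
    LinearMap.toContinuousLinearMap (adL β ∘ₗ (Matrix.mulVecBilin ℝ ℝ).flip y)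
  have hL : ∀ M, L M = adM β (M *ᵥ y) := fun _ => rfl
  have h : ∀ t : ℝ, HasDerivAt (fun t : ℝ => NormedSpace.exp (t • -D) *
      L (NormedSpace.exp (t • D)) * NormedSpace.exp (t • D)) 0 t := fun t => by
    have h1 := ((hasDerivAt_exp_smul_const (-D) t).mul
      (L.hasFDerivAt.comp_hasDerivAt t (hasDerivAt_exp_smul_const' D t))).mul
        (hasDerivAt_exp_smul_const' D t)
    refine h1.congr_deriv ?_
    change (NormedSpace.exp (t • -D) * -D * adM β (NormedSpace.exp (t • D) *ᵥ y) +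
      NormedSpace.exp (t • -D) * adM β ((D * NormedSpace.exp (t • D)) *ᵥ y)) *
        NormedSpace.exp (t • D) + NormedSpace.exp (t • -D) *
          adM β (NormedSpace.exp (t • D) *ᵥ y) * (D * NormedSpace.exp (t • D)) = 0
    rw [← mulVec_mulVec, Lie1Aux.der_adM hD]
    noncomm_ring
  have h2 := is_const_of_deriv_eq_zero (fun t => (h t).differentiableAt) (fun t => (h t).deriv) 1 0
  simp only [one_smul, zero_smul, NormedSpace.exp_zero, hL, one_mulVec, Matrix.one_mul,
    Matrix.mul_one] at h2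
  rw [← h2, ← Matrix.mul_assoc, ← Matrix.mul_assoc, exp_mul_neg, Matrix.one_mul]

omit [DecidableEq ι] in
theorem adM_smul (s : ℝ) (x : ι → ℝ) : adM β (s • x) = s • adM β x := map_smul (adL β) s x

end ExpAux

open ExpAux

theorem eA_val (hL : IsLie β) (x : ι → ℝ) : (eA β x).1.1 = NormedSpace.exp (adM β x) :=
  pick_spec (P := fun u : AutL β => u.1.1 = NormedSpace.exp (adM β x))
    ⟨⟨⟨_, _, exp_mul_neg _, exp_neg_mul _⟩, isoL_iff_adM.2 (exp_der (hL.isDer x))⟩, rfl⟩

theorem eA_zero : eA β 0 = 1 := by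
  have e : NormedSpace.exp (adM β 0) = 1 := by
    rw [← adL_apply, map_zero, NormedSpace.exp_zero]
  exact Lie1Aux.aut_ext ((pick_spec (P := fun u : AutL β => u.1.1 = NormedSpace.exp (adM β 0))
    ⟨1, e.symm⟩).trans e)

theorem eA_add_smul (hL : IsLie β) (x : ι → ℝ) (s t : ℝ) :
    eA β ((s + t) • x) = eA β (s • x) * eA β (t • x) := by
  refine Lie1Aux.aut_ext ?_
  rw [Subgroup.coe_mul, Units.val_mul, eA_val hL, eA_val hL, eA_val hL, adM_smul, adM_smul,
    adM_smul, add_smul,
    Matrix.exp_add_of_commute _ _ (((Commute.refl (adM β x)).smul_left s).smul_right t)]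

theorem eA_neg (hL : IsLie β) (x : ι → ℝ) : eA β (-x) = (eA β x)⁻¹ := by
  have e : adM β (-x) = -adM β x := map_neg (adL β) x
  refine eq_inv_of_mul_eq_one_left (Lie1Aux.aut_ext ?_)
  rw [Subgroup.coe_mul, Units.val_mul, eA_val hL, eA_val hL, e]
  exact exp_neg_mul _

theorem conj_eA (hL : IsLie β) (g : AutL β) (x : ι → ℝ) :
    g * eA β x * g⁻¹ = eA β (g.1.1 *ᵥ x) := by
  refine Lie1Aux.aut_ext ?_
  rw [eA_val hL, Lie1Aux.adM_conj g.2, Matrix.exp_units_conj, ← eA_val hL]
  rfl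

theorem contDiff_exp_adM :
    ContDiff ℝ (⊤ : ℕ∞) fun (x : ι → ℝ) (i j : ι) => NormedSpace.exp (adM β x) i j := by
  open scoped Matrix.Norms.Operator in
  have h : ContDiff ℝ (⊤ : ℕ∞) fun x : ι → ℝ => NormedSpace.exp (adM β x) :=
    (contDiff_iff_contDiffAt.2 fun M => (NormedSpace.exp_analytic (𝕂 := ℝ) M).contDiffAt).comp
      (LinearMap.toContinuousLinearMap (adL β)).contDiff
  open scoped Matrix.Norms.Operator in
  exact contDiff_pi.2 fun i => contDiff_pi.2 fun j =>
    (LinearMap.toContinuousLinearMap (Matrix.entryLinearMap ℝ ℝ i j)).contDiff.comp h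

theorem hasDerivAt_exp_adM (X : ι → ℝ) :
    HasDerivAt (fun (s : ℝ) (i j : ι) => NormedSpace.exp (adM β (s • X)) i j)
      (fun i j => adM β X i j) 0 := by
  simp only [adM_smul]
  open scoped Matrix.Norms.Operator in
  have h := hasDerivAt_exp_smul_const (adM β X) (0 : ℝ)
  rw [zero_smul, NormedSpace.exp_zero, Matrix.one_mul] at h
  exact h

theorem continuous_eA (hL : IsLie β) : Continuous (eA β) := by
  have h : Continuous fun x => (eA β x).1.1 := by
    simp only [eA_val hL]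
    exact contDiff_exp_adM.continuous
  refine continuous_induced_rng.2 (Units.continuous_iff.2 ⟨h, ?_⟩)
  refine (h.comp continuous_neg).congr fun x => ?_
  rw [Function.comp_apply, eA_neg hL]
  rfl

theorem chart_eq (hL : IsLie β) (f : AutL β → ℝ) (g : AutL β) (x : ι → ℝ) :
    chart f g x = f (g * eA β x) := by
  rw [chart, ← eA_val hL]
  exact Function.Injective.extend_apply (f := fun u : AutL β => u.1.1)
    (fun _ _ => Lie1Aux.aut_ext) f 0 (g * eA β x)

end Pool.Agent.P.MP_3c2f8c_gt.E6
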