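import Pool.Agent.P.MP_3c2f8c_gt.E6.An.Defs
import Pool.Agent.P.MP_3c2f8c_gt.An.FD

/-! E6AN-FD1: existence of a bounded strict fundamental domain. -/

namespace Pool.Agent.P.MP_3c2f8c_gt.E6

open Matrix MeasureTheory Topology

variable {Y : Type} [TopologicalSpace Y] [T2Space Y] [LocallyCompactSpace Y]
  [SecondCountableTopology Y] [MeasurableSpace Y] [BorelSpace Y] {ν : Measure Y}
  [IsFiniteMeasureOnCompacts ν] [ν.IsOpenPosMeasure] {G : Type} [Group G] [Countable G]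
  [MulAction G Y] {D : Set Y}

namespace FD1Aux

omit [LocallyCompactSpace Y] [SecondCountableTopology Y] [MeasurableSpace Y] [BorelSpace Y]
  [Countable G] in
/-- Small neighbourhoods are wandering inside `C`. -/
theorem exists_wandering (cont : ∀ g : G, Continuous fun w : Y => g • w)
    (free : ∀ (g : G) (w : Y), g • w = w → g = 1) {C : Set Y}
    (hC : {g : G | ∃ w ∈ C, g • w ∈ C}.Finite) (x : Y) :
    ∃ V : Set Y, IsOpen V ∧ x ∈ V ∧ ∀ g : G, ∀ y ∈ V, y ∈ C → g • y ∈ V → g • y ∈ C → g = 1 := by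
  have hfin := hC.subset (Set.sdiff_subset (t := ({1} : Set G)))
  have hloc : ∀ g : G, ∃ V ∈ nhds x, g ≠ 1 → ∀ y ∈ V, g • y ∉ V := by
    intro g
    by_cases h : g • x = x
    · exact ⟨Set.univ, Filter.univ_mem, fun h2 => absurd (free g x h) h2⟩
    · obtain ⟨u, v, hu, hv, huv⟩ := t2_separation_nhds h
      refine ⟨v ∩ (fun y => g • y) ⁻¹' u,
        Filter.inter_mem hv ((cont g).continuousAt.preimage_mem_nhds hu), ?_⟩
      intro _ y hy hgy
      exact Set.disjoint_left.1 huv hy.2 hgy.1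
  choose V hV hV' using hloc
  have hmem := (Filter.biInter_mem hfin).2 fun g _ => hV g
  refine ⟨_, isOpen_interior, mem_interior_iff_mem_nhds.2 hmem, ?_⟩
  intro g y hy h1 hgy h2
  by_contra hg
  have b1 := Set.mem_iInter₂.1 (interior_subset hy) g ⟨⟨y, h1, h2⟩, hg⟩
  have b2 := Set.mem_iInter₂.1 (interior_subset hgy) g ⟨⟨y, h1, h2⟩, hg⟩
  exact hV' g hg y b1 b2

end FD1Aux

theorem exists_act (cont : ∀ g : G, Continuous fun w : Y => g • w)
    (mp : ∀ g : G, MeasurePreserving (fun w : Y => g • w) ν ν)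
    (proper : ∀ C : Set Y, IsCompact C → {g : G | ∃ w ∈ C, g • w ∈ C}.Finite)
    (free : ∀ (g : G) (w : Y), g • w = w → g = 1)
    (cocpt : ∃ C : Set Y, IsCompact C ∧ ∀ w : Y, ∃ g : G, g • w ∈ C) :
    ∃ D : Set Y, Act G ν D := by
  have : MeasurableConstSMul G Y := ⟨fun g => (cont g).measurable⟩
  obtain ⟨C, hC, hcov⟩ := cocpt
  choose V hVo hVx hV using FD1Aux.exists_wandering cont free (proper C hC)
  obtain ⟨T, hT, hT'⟩ :=
    TopologicalSpace.countable_cover_nhds fun x => (hVo x).mem_nhds (hVx x)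
  have : Countable T := hT.to_subtype
  obtain ⟨D, h1, h2, h3⟩ := FDAux.exists_strict (G := G) (fun i : T => V i ∩ C)
    (fun i => (hVo _).measurableSet.inter hC.isClosed.measurableSet)
    (fun i g w hw hgw => hV _ g w hw.1 hw.2 hgw.1 hgw.2)
    (fun w => by
      obtain ⟨g, hg⟩ := hcov w
      obtain ⟨y, hy, hy'⟩ := Set.mem_iUnion₂.1 (Set.eq_univ_iff_forall.1 hT' (g • w))
      exact ⟨⟨y, hy⟩, g, hy', hg⟩)
  refine ⟨D, cont, mp, proper, h1, h2, C, hC, fun w hw => ?_⟩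
  obtain ⟨i, hi⟩ := h3 w hw
  exact hi.2

end Pool.Agent.P.MP_3c2f8c_gt.E6
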