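import Pool.Agent.P.MP_3c2f8c_gt.E6.An.Defs
import Pool.Agent.P.MP_3c2f8c_gt.An.FD

/-! E6AN-FD2: continuous invariant functions and the fundamental domain. -/

namespace Pool.Agent.P.MP_3c2f8c_gt.E6

open Matrix MeasureTheory Topology

variable {Y : Type} [TopologicalSpace Y] [T2Space Y] [LocallyCompactSpace Y]
  [SecondCountableTopology Y] [MeasurableSpace Y] [BorelSpace Y] {ν : Measure Y}
  [IsFiniteMeasureOnCompacts ν] [ν.IsOpenPosMeasure] {G : Type} [Group G] [Countable G]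
  [MulAction G Y] {D : Set Y}

theorem Act.measurableConstSMul (A : Act G ν D) : MeasurableConstSMul G Y :=
  ⟨fun g => (A.cont g).measurable⟩

theorem Act.invariant (A : Act G ν D) : SMulInvariantMeasure G Y ν :=
  ⟨fun g _ hs => (A.mp g).measure_preimage hs.nullMeasurableSet⟩

theorem Act.finite (A : Act G ν D) : IsFiniteMeasure (ν.restrict D) := by
  obtain ⟨C, hC, hD⟩ := A.bdd
  exact isFiniteMeasure_restrict.2 ((measure_mono hD).trans_lt hC.measure_lt_top).ne

theorem Act.isFD (A : Act G ν D) : IsFundamentalDomain G D ν :=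
  A.strict.isFundamentalDomain A.meas ν

theorem Act.bound (A : Act G ν D) (f : CI Y G) : ∃ C : ℝ, ∀ w, |f.1 w| ≤ C := by
  obtain ⟨C, hC, hD⟩ := A.bdd
  obtain ⟨c, hc⟩ := hC.exists_bound_of_continuousOn f.2.1.continuousOn
  refine ⟨c, fun w => ?_⟩
  obtain ⟨g, hg, -⟩ := A.strict w
  rw [← f.2.2 g w]
  exact hc _ (hD hg)

theorem Act.integrableOn (A : Act G ν D) {f : Y → ℝ} (hf : Continuous f) :
    IntegrableOn f D ν := by
  obtain ⟨C, hC, hD⟩ := A.bdd
  exact (hf.continuousOn.integrableOn_compact hC).mono_set hD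

theorem Act.eq_zero_of_ae (A : Act G ν D) (f : CI Y G) (h : f.1 =ᵐ[ν.restrict D] 0) : f = 0 := by
  have := A.measurableConstSMul
  have := A.invariant
  have h1 : ν {w | f.1 w ≠ 0} = 0 := by
    refine A.isFD.measure_zero_of_invariant _ (fun g => ?_) ?_
    · ext w
      rw [Set.mem_smul_set_iff_inv_smul_mem, Set.mem_ofPred_eq, Set.mem_ofPred_eq, f.2.2]
    · rw [← Measure.restrict_apply' A.meas]
      exact h
  have h2 : f.1 =ᵐ[ν] fun _ => 0 := h1
  exact Subtype.ext ((f.2.1.ae_eq_iff_eq ν continuous_const).1 h2)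

theorem Act.eq_zero_of_sq (A : Act G ν D) (f : CI Y G) (h : ∫ w in D, f.1 w ^ 2 ∂ν ≤ 0) :
    f = 0 := by
  have h1 := le_antisymm h (integral_nonneg fun w => sq_nonneg (f.1 w))
  rw [integral_eq_zero_iff_of_nonneg (fun w => sq_nonneg (f.1 w))
    (A.integrableOn (f.2.1.pow 2))] at h1
  exact A.eq_zero_of_ae f (h1.mono fun w hw => pow_eq_zero_iff two_ne_zero |>.1 hw)

theorem Act.exists_toL2 (A : Act G ν D) : ∃ r : CI Y G →ₗ[ℝ] Lp ℝ 2 (ν.restrict D),
    Function.Injective r ∧ (∀ f, (r f : Y → ℝ) =ᵐ[ν.restrict D] f.1) ∧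
      ∀ f g, inner ℝ (r f) (r g) = ∫ w in D, f.1 w * g.1 w ∂ν := by
  have := A.finite
  have hm : ∀ f : CI Y G, MemLp f.1 2 (ν.restrict D) := fun f => by
    obtain ⟨c, hc⟩ := A.bound f
    exact MemLp.of_bound f.2.1.aestronglyMeasurable c (Filter.Eventually.of_forall hc)
  let r : CI Y G →ₗ[ℝ] Lp ℝ 2 (ν.restrict D) :=
    { toFun := fun f => (hm f).toLp f.1
      map_add' := fun f g => MemLp.toLp_add (hm f) (hm g)
      map_smul' := fun c f => MemLp.toLp_const_smul c (hm f) }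
  have hr : ∀ f, (r f : Y → ℝ) =ᵐ[ν.restrict D] f.1 := fun f => (hm f).coeFn_toLp
  refine ⟨r, (injective_iff_map_eq_zero r).2 fun f hf => A.eq_zero_of_ae f ?_, hr, fun f g => ?_⟩
  · refine (hr f).symm.trans ?_
    rw [hf]
    exact Lp.coeFn_zero _ _ _
  · rw [L2.inner_def]
    refine integral_congr_ae ?_
    filter_upwards [hr f, hr g] with w h1 h2
    rw [h1, h2, real_inner_comm]
    simp

theorem Act.exists_ip (A : Act G ν D) : ∃ b : CI Y G →ₗ[ℝ] CI Y G →ₗ[ℝ] ℝ,
    (∀ f g, b f g = ∫ w in D, f.1 w * g.1 w ∂ν) ∧ ∀ f, f ≠ 0 → 0 < b f f := by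
  obtain ⟨r, h1, -, h2⟩ := A.exists_toL2
  refine ⟨(innerₗ _).compl₁₂ r r, fun f g => h2 f g, fun f hf => ?_⟩
  exact real_inner_self_pos.2 fun h0 => hf ((injective_iff_map_eq_zero r).1 h1 f h0)

theorem Act.integral_comp (A : Act G ν D) (e : Y ≃ₜ Y) (he : MeasurePreserving e ν ν)
    (hc : ∀ (g : G) (w : Y), e (g • w) = g • e w) (f : CI Y G) :
    ∫ w in D, f.1 (e w) ∂ν = ∫ w in D, f.1 w ∂ν := by
  have := A.measurableConstSMul
  have := A.invariant
  have hs : StrictFD G (e '' D) := by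
    intro w
    refine (existsUnique_congr fun g => ?_).1 (A.strict (e.symm w))
    rw [← e.injective.mem_set_image, hc, e.apply_symm_apply]
  have hF := hs.isFundamentalDomain (e.measurableEmbedding.measurableSet_image.2 A.meas) ν
  rw [← he.setIntegral_image_emb e.measurableEmbedding]
  exact hF.setIntegral_eq A.isFD f.2.2

end Pool.Agent.P.MP_3c2f8c_gt.E6
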