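import Pool.Agent.P.MP_3c2f8c_gt.E6.An.Defs
import Pool.Agent.P.MP_3c2f8c_gt.E6.Lie1

/-! E6AN-Top: the Killing matrix and the topology of the automorphism group. -/

namespace Pool.Agent.P.MP_3c2f8c_gt.E6

open Matrix MeasureTheory Topology

variable {ι : Type} [Fintype ι] [DecidableEq ι] {β : Tens ι ℝ} {θ : AutL β}

theorem kil_eq (x y : ι → ℝ) : kil β x y = x ⬝ᵥ kilM β *ᵥ y := by
  rw [← toBilin'_apply', ← kilL_apply, ← toBilin'_toMatrix' (kilL β)]
  rfl

theorem kilM_symm : (kilM β)ᵀ = kilM β := Matrix.ext fun _ _ => kil_comm _ _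

theorem kilM_inv (g : AutL β) : g.1.1ᵀ * kilM β * g.1.1 = kilM β := by
  refine toBilin'.injective (LinearMap.ext₂ fun x y => ?_)
  rw [toBilin'_apply', toBilin'_apply', ← kil_eq, ← IsoL.kil g.2, kil_eq, ← mulVec_mulVec,
    ← mulVec_mulVec, dotProduct_mulVec x, vecMul_transpose]

theorem IsCartan.kilND (hθ : IsCartan θ) : KilND β := fun x h =>
  by_contra fun e => (hθ.2 x e).ne (h _)

theorem IsCartan.det_ne (hθ : IsCartan θ) : (kilM β).det ≠ 0 := kilND_iff_det.1 hθ.kilND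

theorem IsCartan.inv_val (hθ : IsCartan θ) (g : AutL β) :
    (g⁻¹).1.1 = (kilM β)⁻¹ * g.1.1ᵀ * kilM β :=
  Units.inv_eq_of_mul_eq_one_left <| by
    rw [Matrix.mul_assoc, Matrix.mul_assoc, ← Matrix.mul_assoc _ (kilM β), kilM_inv,
      nonsing_inv_mul _ hθ.det_ne.isUnit]

theorem IsCartan.posDef (hθ : IsCartan θ) : (-(kilM β * θ.1.1)).PosDef := by
  refine .of_dotProduct_mulVec_pos (IsHermitian.neg ?_) fun x hx => ?_
  · have h : θ.1.1 * θ.1.1 = 1 := congrArg (·.1.1) hθ.1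
    rw [IsHermitian, conjTranspose_eq_transpose_of_trivial, transpose_mul, kilM_symm,
      ← Matrix.mul_one (_ᵀ * _), ← h, ← Matrix.mul_assoc, kilM_inv]
  · rw [star_trivial, neg_mulVec, dotProduct_neg, ← mulVec_mulVec, ← kil_eq]
    exact neg_pos.2 (hθ.2 x hx)

theorem IsCartan.kil_pos (hθ : IsCartan θ) {X : ι → ℝ} (hX : θ.1.1 *ᵥ X = -X) (h0 : X ≠ 0) :
    0 < kil β X X := by
  have h := hθ.2 X h0
  rwa [hX, ← kilL_apply, map_neg, neg_lt_zero] at h

theorem IsCartan.kil_nonneg (hθ : IsCartan θ) {X : ι → ℝ} (hX : θ.1.1 *ᵥ X = -X) :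
    0 ≤ kil β X X := by
  rcases eq_or_ne X 0 with rfl | h
  · simp [kil_eq]
  · exact (hθ.kil_pos hX h).le

theorem continuous_val : Continuous fun g : AutL β => g.1.1 :=
  Units.continuous_val.comp continuous_subtype_val

theorem IsCartan.isClosedEmbedding (hθ : IsCartan θ) :
    IsClosedEmbedding fun g : AutL β => g.1.1 := by
  have h := Units.isClosedEmbedding_embedProduct.comp
    (isClosed_AutL (β := β)).isClosedEmbedding_subtypeVal
  refine IsClosedEmbedding.of_comp (Function.LeftInverse.isEmbedding (f := Prod.fst)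
    (g := fun A : Matrix ι ι ℝ => (A, MulOpposite.op ((kilM β)⁻¹ * Aᵀ * kilM β))) (fun _ => rfl)
    continuous_fst (by fun_prop)) (Eq.subst ?_ h)
  exact funext fun g => Prod.ext rfl (congrArg MulOpposite.op (hθ.inv_val g))

theorem isCompact_bd' (hθ : IsCartan θ) (R : ℝ) : IsCompact {g : AutL β | Bd R g} := by
  have h := hθ.isClosedEmbedding.isCompact_preimage (isCompact_univ_pi fun _ : ι =>
    isCompact_univ_pi fun _ : ι => isCompact_Icc (a := -R) (b := R))
  refine Eq.subst ?_ h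
  ext g
  simp only [Bd, abs_le, Set.mem_ofPred_eq]
  exact ⟨fun H i j => H i trivial j trivial, fun H i _ j _ => H i j⟩

theorem bd_of_isCompact' {C : Set (AutL β)} (hC : IsCompact C) : ∃ R, ∀ g ∈ C, Bd R g := by
  obtain ⟨R, h⟩ := hC.exists_bound_of_continuousOn (f := fun (g : AutL β) (i j : ι) => g.1.1 i j)
    continuous_val.continuousOn
  exact ⟨R, fun g hg i j =>
    ((norm_le_pi_norm (g.1.1 i) j).trans (norm_le_pi_norm (fun i j => g.1.1 i j) i)).trans (h g hg)⟩

end Pool.Agent.P.MP_3c2f8c_gt.E6
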