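import Pool.Agent.P.MP_3c2f8c_gt.E6.An.Exp
import Pool.Agent.P.MP_3c2f8c_gt.E6.An.Top

/-! E6AN-Smo: smooth functions and left invariant vector fields. -/

namespace Pool.Agent.P.MP_3c2f8c_gt.E6

open Matrix MeasureTheory Topology

variable {ι : Type} [Fintype ι] [DecidableEq ι] {β : Tens ι ℝ} {θ : AutL β}
  {f h : AutL β → ℝ}

namespace SmoAux

theorem cont : Continuous fun (g : AutL β) (i j : ι) => g.1.1 i j :=
  continuous_pi fun i => continuous_pi fun j =>
    (Units.continuous_val.comp continuous_subtype_val).matrix_elem i j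

theorem tend (hL : IsLie β) (g : AutL β) (x : ι → ℝ) :
    Filter.Tendsto (fun y => g * eA β y) (𝓝 x) (𝓝 (g * eA β x)) :=
  (continuous_const.mul (continuous_eA hL)).tendsto x

theorem tend0 (hL : IsLie β) (g : AutL β) :
    Filter.Tendsto (fun y => g * eA β y) (𝓝 0) (𝓝 g) := by
  simpa only [eA_zero, mul_one] using tend hL g 0

theorem val (hL : IsLie β) (g : AutL β) (x : ι → ℝ) :
    (fun i j => (g * eA β x).1.1 i j) =
      fun i j => ∑ k, g.1.1 i k * NormedSpace.exp (adM β x) k j := by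
  rw [← eA_val hL]
  rfl

theorem cd (g : AutL β) : ContDiff ℝ (⊤ : ℕ∞) fun (x : ι → ℝ) (i j : ι) =>
    ∑ k, g.1.1 i k * NormedSpace.exp (adM β x) k j :=
  contDiff_pi.2 fun _ => contDiff_pi.2 fun j => ContDiff.sum fun k _ =>
    contDiff_const.mul (contDiff_pi.1 (contDiff_pi.1 contDiff_exp_adM k) j)

end SmoAux

theorem Smooth.continuous (hf : Smooth f) : Continuous f :=
  continuous_iff_continuousAt.2 fun g => by
    obtain ⟨F, hF, e⟩ := hf g
    exact (hF.continuous.comp SmoAux.cont).continuousAt.congr (e.mono fun _ h => h.symm)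

theorem smooth_cst (c : ℝ) : Smooth fun _ : AutL β => c := fun _ =>
  ⟨fun _ => c, contDiff_const, Filter.Eventually.of_forall fun _ => rfl⟩

theorem Smooth.add (hf : Smooth f) (hh : Smooth h) : Smooth fun g => f g + h g := fun g => by
  obtain ⟨F, hF, e⟩ := hf g
  obtain ⟨H, hH, e'⟩ := hh g
  refine ⟨fun M => F M + H M, hF.add hH, ?_⟩
  filter_upwards [e, e'] with y a b
  rw [a, b]

theorem Smooth.mul (hf : Smooth f) (hh : Smooth h) : Smooth fun g => f g * h g := fun g => by
  obtain ⟨F, hF, e⟩ := hf g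
  obtain ⟨H, hH, e'⟩ := hh g
  refine ⟨fun M => F M * H M, hF.mul hH, ?_⟩
  filter_upwards [e, e'] with y a b
  rw [a, b]

theorem Smooth.sum {α : Type} (s : Finset α) {F : α → AutL β → ℝ} (hF : ∀ a ∈ s, Smooth (F a)) :
    Smooth fun g => ∑ a ∈ s, F a g := by
  classical
  induction s using Finset.induction_on with
  | empty => simpa using smooth_cst 0
  | insert a s ha ih =>
    simp only [Finset.sum_insert ha]
    exact (hF a (Finset.mem_insert_self _ _)).add
      (ih fun b hb => hF b (Finset.mem_insert_of_mem hb))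

theorem Smooth.left (hf : Smooth f) (a : AutL β) : Smooth fun g => f (a * g) := fun g => by
  obtain ⟨F, hF, e⟩ := hf (a * g)
  refine ⟨fun M => F fun i j => ∑ k, a.1.1 i k * M k j, hF.comp (by fun_prop), ?_⟩
  exact ((continuous_const.mul continuous_id).tendsto g).eventually e

theorem Smooth.contDiff_chart (hL : IsLie β) (hf : Smooth f) (g : AutL β) :
    ContDiff ℝ (⊤ : ℕ∞) (chart f g) :=
  contDiff_iff_contDiffAt.2 fun x => by
    obtain ⟨F, hF, e⟩ := hf (g * eA β x)
    refine (hF.comp (SmoAux.cd g)).contDiffAt.congr_of_eventuallyEq ?_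
    filter_upwards [(SmoAux.tend hL g x).eventually e] with y hy
    rw [chart_eq hL, hy, SmoAux.val hL]
    rfl

theorem Smooth.hasDerivAt (hL : IsLie β) (hf : Smooth f) (X : ι → ℝ) (g : AutL β) (s : ℝ) :
    HasDerivAt (fun t : ℝ => f (g * eA β (t • X))) (LD X f (g * eA β (s • X))) s := by
  have h1 : HasFDerivAt (chart f (g * eA β (s • X))) (fderiv ℝ (chart f (g * eA β (s • X))) 0)
      ((s - s) • X) := by
    rw [sub_self, zero_smul]
    exact ((hf.contDiff_chart hL _).differentiable (by simp) 0).hasFDerivAt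
  have h2 : HasDerivAt (fun t : ℝ => (t - s) • X) X s := by
    simpa using ((hasDerivAt_id s).sub_const s).smul_const X
  refine (h1.comp_hasDerivAt s h2).congr_of_eventuallyEq (Filter.Eventually.of_forall fun t => ?_)
  show _ = chart f (g * eA β (s • X)) ((t - s) • X)
  rw [chart_eq hL, mul_assoc, ← eA_add_smul hL, add_sub_cancel]

theorem Smooth.ld (hL : IsLie β) (hf : Smooth f) (X : ι → ℝ) : Smooth (LD X f) := fun g => by
  obtain ⟨F, hF, e⟩ := hf g
  refine ⟨fun M => fderiv ℝ F M fun i j => ∑ k, M i k * adM β X k j,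
    (hF.fderiv_right (m := (⊤ : ℕ∞)) (by simp)).clm_apply (by fun_prop), ?_⟩
  filter_upwards [e.eventually_nhds] with y hy
  have h1 := hf.hasDerivAt hL X y 0
  rw [zero_smul, eA_zero, mul_one] at h1
  have h2 : HasDerivAt (fun (s : ℝ) (i j : ι) =>
      ∑ k, y.1.1 i k * NormedSpace.exp (adM β (s • X)) k j)
      (fun i j => ∑ k, y.1.1 i k * adM β X k j) 0 :=
    hasDerivAt_pi.2 fun i => hasDerivAt_pi.2 fun j => HasDerivAt.fun_sum fun k _ =>
      (hasDerivAt_pi.1 (hasDerivAt_pi.1 (hasDerivAt_exp_adM X) k) j).const_mul _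
  have h3 : HasFDerivAt F (fderiv ℝ F fun i j => y.1.1 i j)
      fun i j => ∑ k, y.1.1 i k * NormedSpace.exp (adM β ((0 : ℝ) • X)) k j := by
    rw [← SmoAux.val hL, zero_smul, eA_zero, mul_one]
    exact (hF.differentiable (by simp) _).hasFDerivAt
  refine h1.unique ((h3.comp_hasDerivAt (0 : ℝ) h2).congr_of_eventuallyEq ?_)
  have h4 : Filter.Tendsto (fun s : ℝ => s • X) (𝓝 0) (𝓝 0) :=
    (continuous_id.smul continuous_const).tendsto' 0 0 (zero_smul ℝ X)
  filter_upwards [((SmoAux.tend0 hL y).comp h4).eventually hy] with t ht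
  exact ht.trans (congrArg F (SmoAux.val hL y (t • X)))

theorem LD_mul (hL : IsLie β) (hf : Smooth f) (hh : Smooth h) (X : ι → ℝ) (g : AutL β) :
    LD X (fun g => f g * h g) g = LD X f g * h g + f g * LD X h g := by
  have h1 := (hf.mul hh).hasDerivAt hL X g 0
  have h2 := (hf.hasDerivAt hL X g 0).mul (hh.hasDerivAt hL X g 0)
  simpa only [zero_smul, eA_zero, mul_one] using h1.unique h2

theorem LD_left (hL : IsLie β) (f : AutL β → ℝ) (a : AutL β) (X : ι → ℝ) (g : AutL β) :
    LD X (fun g => f (a * g)) g = LD X f (a * g) := by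
  have e : chart (fun g => f (a * g)) g = chart f (a * g) := funext fun x => by
    rw [chart_eq hL, chart_eq hL, mul_assoc]
  rw [LD, e, LD]

theorem hasCompactSupport_LD (hL : IsLie β) (hs : HasCompactSupport f) (X : ι → ℝ) :
    HasCompactSupport (LD X f) := by
  refine hs.mono' fun g hg => by_contra fun hn => hg ?_
  have e : chart f g =ᶠ[𝓝 0] fun _ => 0 := by
    filter_upwards [(SmoAux.tend0 hL g).eventually (notMem_tsupport_iff_eventuallyEq.1 hn)]
      with y hy
    rw [chart_eq hL, hy]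
    rfl
  rw [LD, e.fderiv_eq]
  simp

theorem LD_eq_zero (hL : IsLie β) (hf : Smooth f)
    (hK : ∀ u, u * θ = θ * u → ∀ g, f (g * u) = f g) {X : ι → ℝ} (hX : θ.1.1 *ᵥ X = X)
    (g : AutL β) : LD X f g = 0 := by
  have h1 := hf.hasDerivAt hL X g 0
  have e : (fun t : ℝ => f (g * eA β (t • X))) = fun _ => f g := funext fun t => by
    refine hK _ ?_ g
    have h2 := conj_eA hL θ (t • X)
    rw [mulVec_smul, hX] at h2
    exact (mul_inv_eq_iff_eq_mul.1 h2).symm
  rw [e, zero_smul, eA_zero, mul_one] at h1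
  exact h1.unique (hasDerivAt_const _ _)

end Pool.Agent.P.MP_3c2f8c_gt.E6
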