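import Pool.Agent.P.MP_3c2f8c_gt.E6.An.Nice
import Pool.Agent.P.MP_3c2f8c_gt.E6.An.Smo

/-! E6AN-Green1: differentiation under the integral over the fundamental domain. -/

namespace Pool.Agent.P.MP_3c2f8c_gt.E6

open Matrix MeasureTheory Topology

variable {ι : Type} [Fintype ι] [DecidableEq ι] {β : Tens ι ℝ} {θ : AutL β} {Z : Type}
  [TopologicalSpace Z] [DiscreteTopology Z] [MeasurableSpace Z] [DiscreteMeasurableSpace Z]
  [Countable Z] {G : Type} [Group G] [Countable G] [MulAction G (AutL β)] [MulAction G Z]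
  {ρ : G →* AutL β} {D : Set (AutL β × Z)} {κ : Z → Z → ℕ}

theorem NiceA.ldy_mem (hL : IsLie β) (N : NiceA G Z ρ) (F : CI (AutL β × Z) G)
    (hF : ∀ z, Smooth fun x => F.1 (x, z)) (X : ι → ℝ) : LDY X F.1 ∈ CI (AutL β × Z) G := by
  refine N.mem_CI.2 ⟨fun z => ((hF z).ld hL X).continuous, fun g x z => ?_⟩
  have h1 := LD_left hL (fun y => F.1 (y, g • z)) (ρ g) X x
  simp only [(N.mem_CI.1 F.2).2 g] at h1
  exact h1.symm

theorem NiceA.hasDerivAt_corr (hL : IsLie β) (N : NiceA G Z ρ) (A : Act G (nu β Z) D)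
    (f F : CI (AutL β × Z) G) (hF : ∀ z, Smooth fun x => F.1 (x, z)) (X : ι → ℝ) (s : ℝ) :
    HasDerivAt (fun t : ℝ => ∫ w in D, f.1 w * F.1 (w.1 * eA β (t • X), w.2) ∂nu β Z)
      (∫ w in D, f.1 w * LDY X F.1 (w.1 * eA β (s • X), w.2) ∂nu β Z) s := by
  have := A.finite
  let F' : CI (AutL β × Z) G := ⟨LDY X F.1, N.ldy_mem hL F hF X⟩
  obtain ⟨c, hc⟩ := A.bound f
  obtain ⟨c', hc'⟩ := A.bound F'
  have h1 : ∀ (H : CI (AutL β × Z) G) (t : ℝ),
      Continuous fun w : AutL β × Z => f.1 w * H.1 (w.1 * eA β (t • X), w.2) :=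
    fun H t => f.2.1.mul (N.right_mem H _).1
  refine (hasDerivAt_integral_of_dominated_loc_of_deriv_le (μ := (nu β Z).restrict D)
    (F := fun (t : ℝ) (w : AutL β × Z) => f.1 w * F.1 (w.1 * eA β (t • X), w.2))
    (F' := fun (t : ℝ) (w : AutL β × Z) => f.1 w * F'.1 (w.1 * eA β (t • X), w.2))
    (bound := fun _ => c * c') (s := Set.univ) Filter.univ_mem
    (Filter.Eventually.of_forall fun t => (h1 F t).aestronglyMeasurable)
    (A.integrableOn (h1 F s)) (h1 F' s).aestronglyMeasurable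
    (Filter.Eventually.of_forall fun w t _ => ?_) (integrable_const _)
    (Filter.Eventually.of_forall fun w t _ => ?_)).2
  · rw [Real.norm_eq_abs, abs_mul]
    exact mul_le_mul (hc w) (hc' _) (abs_nonneg _) ((abs_nonneg _).trans (hc w))
  · exact ((hF w.2).hasDerivAt hL X w.1 t).const_mul (f.1 w)

theorem NiceA.integral_ldy (hL : IsLie β) (hθ : IsCartan θ) (N : NiceA G Z ρ)
    (A : Act G (nu β Z) D) (F : CI (AutL β × Z) G) (hF : ∀ z, Smooth fun x => F.1 (x, z))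
    (X : ι → ℝ) : ∫ w in D, LDY X F.1 w ∂nu β Z = 0 := by
  have h1 := N.hasDerivAt_corr hL A ⟨fun _ => 1, continuous_const, fun _ _ => rfl⟩ F hF X 0
  simp only [one_mul, N.integral_right hL hθ A F, zero_smul, eA_zero, mul_one] at h1
  exact h1.unique (hasDerivAt_const _ _)

end Pool.Agent.P.MP_3c2f8c_gt.E6
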