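import Pool.Agent.P.MP_3c2f8c_gt.E6.An.Green1
import Pool.Agent.P.MP_3c2f8c_gt.E6.An.Lap1

/-! E6AN-Green2: the energy identity. -/

namespace Pool.Agent.P.MP_3c2f8c_gt.E6

open Matrix MeasureTheory Topology

variable {ι : Type} [Fintype ι] [DecidableEq ι] {β : Tens ι ℝ} {θ : AutL β} {Z : Type}
  [TopologicalSpace Z] [DiscreteTopology Z] [MeasurableSpace Z] [DiscreteMeasurableSpace Z]
  [Countable Z] {G : Type} [Group G] [Countable G] [MulAction G (AutL β)] [MulAction G Z]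
  {ρ : G →* AutL β} {D : Set (AutL β × Z)} {κ : Z → Z → ℕ}
  {ev : ℝ} {f : CI (AutL β × Z) G}

theorem LD_sq_le (hL : IsLie β) (hθ : IsCartan θ) {h : AutL β → ℝ} (hh : Smooth h)
    (hK : ∀ u, u * θ = θ * u → ∀ g, h (g * u) = h g) {X : ι → ℝ} (hX : θ.1.1 *ᵥ X = -X)
    (g : AutL β) : LD X h g ^ 2 ≤ kil β X X * gam h g :=
  cs_dual hθ (fderiv ℝ (chart h g) 0).toLinearMap (fun _ hx => LD_eq_zero hL hh hK hx g) hX

namespace Green2Aux

theorem exists_div (hL : IsLie β) (N : NiceA G Z ρ) (hf : f ∈ EigY Z θ G ev) :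
    ∃ F : ι → CI (AutL β × Z) G, (∀ j z, Smooth fun x => (F j).1 (x, z)) ∧
      ∀ w, gam (fun x => f.1 (x, w.2)) w.1 =
        ∑ i, ∑ j, (kilM β)⁻¹ i j * LDY (Pi.single i 1) (F j).1 w + ev * f.1 w ^ 2 := by
  have hs : ∀ z, Smooth fun x => f.1 (x, z) := fun z => ((mem_eig_iff hL).1 (hf z)).1
  have hm := fun j => N.ldy_mem hL f hs (Pi.single j 1)
  refine ⟨fun j => ⟨fun w => f.1 w * LDY (Pi.single j 1) f.1 w, f.2.1.mul (hm j).1,
    fun g w => congrArg₂ (· * ·) (f.2.2 g w) ((hm j).2 g w)⟩, fun j z => (hs z).mul ((hs z).ld hL _), fun w => ?_⟩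
  have h1 := ((mem_eig_iff hL).1 (hf w.2)).2.2.2 w.1
  rw [lap_eq_LD hL (hs w.2)] at h1
  have h2 : ∀ i j, LDY (Pi.single i 1) (fun w => f.1 w * LDY (Pi.single j 1) f.1 w) w =
      LD (Pi.single i 1) (fun x => f.1 (x, w.2)) w.1 * LD (Pi.single j 1) (fun x => f.1 (x, w.2)) w.1 +
        f.1 w * LD (Pi.single i 1) (LD (Pi.single j 1) fun x => f.1 (x, w.2)) w.1 :=
    fun i j => LD_mul hL (hs w.2) ((hs w.2).ld hL _) _ _
  simp only [h2, mul_add, Finset.sum_add_distrib, mul_left_comm _ (f.1 w), ← Finset.mul_sum, h1, gam]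
  ring

theorem int_div (hL : IsLie β) (N : NiceA G Z ρ) (A : Act G (nu β Z) D)
    {F : ι → CI (AutL β × Z) G} (hF : ∀ j z, Smooth fun x => (F j).1 (x, z)) (i j : ι) :
    Integrable (fun w => (kilM β)⁻¹ i j * LDY (Pi.single i 1) (F j).1 w) ((nu β Z).restrict D) :=
  (A.integrableOn (N.ldy_mem hL (F j) (hF j) _).1).const_mul _

theorem int_sq (A : Act G (nu β Z) D) (f : CI (AutL β × Z) G) (c : ℝ) :
    Integrable (fun w => c * f.1 w ^ 2) ((nu β Z).restrict D) :=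
  (A.integrableOn (f.2.1.pow 2)).const_mul _

end Green2Aux

theorem NiceA.green (hL : IsLie β) (hθ : IsCartan θ) (N : NiceA G Z ρ) (A : Act G (nu β Z) D)
    (hf : f ∈ EigY Z θ G ev) : ∫ w in D, gam (fun x => f.1 (x, w.2)) w.1 ∂nu β Z =
      ev * ∫ w in D, f.1 w ^ 2 ∂nu β Z := by
  obtain ⟨F, hF, e⟩ := Green2Aux.exists_div hL N hf
  have hi := Green2Aux.int_div hL N A hF
  simp only [e]
  rw [integral_add (integrable_finsetSum _ fun i _ => integrable_finsetSum _ fun j _ => hi i j)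
    (Green2Aux.int_sq A f ev), integral_const_mul,
    integral_finsetSum _ fun i _ => integrable_finsetSum _ fun j _ => hi i j,
    Finset.sum_eq_zero fun i _ => ?_, zero_add]
  rw [integral_finsetSum _ fun j _ => hi i j]
  exact Finset.sum_eq_zero fun j _ => by
    rw [integral_const_mul, N.integral_ldy hL hθ A (F j) (hF j), mul_zero]

theorem NiceA.integral_ldy_sq (hL : IsLie β) (hθ : IsCartan θ) (N : NiceA G Z ρ)
    (A : Act G (nu β Z) D) (hf : f ∈ EigY Z θ G ev) {X : ι → ℝ} (hX : θ.1.1 *ᵥ X = -X) :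
    ∫ w in D, LDY X f.1 w ^ 2 ∂nu β Z ≤ kil β X X * (ev * ∫ w in D, f.1 w ^ 2 ∂nu β Z) := by
  obtain ⟨F, hF, e⟩ := Green2Aux.exists_div hL N hf
  have hi := Green2Aux.int_div hL N A hF
  have hs := fun z => (mem_eig_iff hL).1 (hf z)
  rw [← N.green hL hθ A hf, ← integral_const_mul]
  refine integral_mono (A.integrableOn ((N.ldy_mem hL f (fun z => (hs z).1) X).1.pow 2)) ?_
    fun w => LD_sq_le hL hθ (hs w.2).1 (hs w.2).2.2.1 hX w.1
  simp only [e]
  exact ((integrable_finsetSum _ fun i _ => integrable_finsetSum _ fun j _ => hi i j).add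
    (Green2Aux.int_sq A f ev)).const_mul _

end Pool.Agent.P.MP_3c2f8c_gt.E6
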