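import Pool.Agent.P.MP_3c2f8c_gt.E6.An.Polar
import Pool.Agent.P.MP_3c2f8c_gt.E6.An.Norm

/-! E6AN-Haar: the automorphism group is unimodular. -/

namespace Pool.Agent.P.MP_3c2f8c_gt.E6

open Matrix MeasureTheory Topology

variable {ι : Type} [Fintype ι] [DecidableEq ι] {β : Tens ι ℝ} {θ : AutL β}

namespace HaarAux

open scoped NNReal ENNReal

theorem map_eq (g : AutL β) :
    Measure.map (· * g) (mu β) = Measure.modularCharacterFun g • mu β :=
  Measure.map_right_mul_eq_modularCharacterFun_smul (mu β) g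

theorem mod_K (hθ : IsCartan θ) {u : AutL β} (hu : u * θ = θ * u) :
    Measure.modularCharacterFun u = 1 := by
  set A : Set (AutL β) := {g | NN θ g ≤ Fintype.card ι + 1} with hA
  have hc : IsCompact A := isCompact_NN hθ _
  have hm : MeasurableSet A := (isClosed_le continuous_NN continuous_const).measurableSet
  have hfin : mu β A ≠ ⊤ := hc.measure_lt_top.ne
  have hpos : mu β A ≠ 0 := by
    have ho : IsOpen {g : AutL β | NN θ g < Fintype.card ι + 1} :=
      isOpen_lt continuous_NN continuous_const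
    have hne : ({g : AutL β | NN θ g < Fintype.card ι + 1}).Nonempty :=
      ⟨1, by
        change NN θ 1 < _
        rw [NN_one hθ]
        exact lt_add_one _⟩
    have h1 := ho.measure_pos (mu β) hne
    have hsub : {g : AutL β | NN θ g < Fintype.card ι + 1} ⊆ A := by
      intro g hg
      have hg' : NN θ g < Fintype.card ι + 1 := hg
      exact hg'.le
    exact (lt_of_lt_of_le h1 (measure_mono hsub)).ne'
  have h1 : Measure.map (· * u) (mu β) A = mu β A := by
    rw [Measure.map_apply (measurable_mul_const u) hm]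
    congr 1
    ext g
    simp only [hA, Set.mem_preimage, Set.mem_ofPred_eq, NN_mul_right hu]
  rw [map_eq, Measure.smul_apply, ENNReal.smul_def, smul_eq_mul] at h1
  have h2 : (Measure.modularCharacterFun u : ℝ≥0∞) * mu β A = 1 * mu β A := by
    rw [h1, one_mul]
  have h3 := (ENNReal.mul_left_inj hpos hfin).1 h2
  exact_mod_cast h3

theorem mod_exp (hL : IsLie β) (hθ : IsCartan θ) {X : ι → ℝ} (hX : θ.1.1 *ᵥ X = -X) :
    Measure.modularCharacterFun (eA β X) = 1 := by
  have h1 : θ * eA β X * θ⁻¹ = (eA β X)⁻¹ := by rw [conj_eA hL, hX, eA_neg hL]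
  have h2 : θ * eA β X * θ⁻¹ * eA β X = 1 := by rw [h1, inv_mul_cancel]
  have hθ1 : Measure.modularCharacterFun θ = 1 := mod_K hθ rfl
  have hθ2 : Measure.modularCharacterFun θ⁻¹ = 1 :=
    mod_K hθ (by rw [inv_mul_cancel, mul_inv_cancel])
  have h3 := congrArg Measure.modularCharacterFun h2
  rw [Measure.modularCharacterFun_map_mul, Measure.modularCharacterFun_map_mul,
    Measure.modularCharacterFun_map_mul, Measure.modularCharacterFun_map_one, hθ1, hθ2, one_mul,
    mul_one] at h3
  have h4 : Measure.modularCharacterFun (eA β X) ^ 2 = 1 := by rw [sq, h3]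
  exact (pow_eq_one_iff_of_nonneg zero_le two_ne_zero).1 h4

end HaarAux

theorem mu_right (hL : IsLie β) (hθ : IsCartan θ) : (mu β).IsMulRightInvariant := by
  refine ⟨fun g => ?_⟩
  obtain ⟨X, u, hX, hu, rfl⟩ := exists_polar hL hθ g
  rw [HaarAux.map_eq, Measure.modularCharacterFun_map_mul, HaarAux.mod_exp hL hθ hX,
    HaarAux.mod_K hθ hu, one_mul, one_smul]

end Pool.Agent.P.MP_3c2f8c_gt.E6
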