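import Pool.Agent.P.MP_3c2f8c_gt.E6.An.Unf

/-! E6AN-Model: the operators on the Hilbert space of the fundamental domain. -/

namespace Pool.Agent.P.MP_3c2f8c_gt.E6

set_option linter.unusedSectionVars false

open Matrix MeasureTheory Topology

variable {Y : Type} [TopologicalSpace Y] [T2Space Y] [LocallyCompactSpace Y]
  [SecondCountableTopology Y] [MeasurableSpace Y] [BorelSpace Y] {ν : Measure Y}
  [IsFiniteMeasureOnCompacts ν] [ν.IsOpenPosMeasure] {G : Type} [Group G] [Countable G]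
  [MulAction G Y] {D : Set Y}
  {k : Y → Y → ℝ} {L : Module.End ℝ (CI Y G)}

theorem Act.exists_model (A : Act G ν D) (hk : PK k) (hi : KInv G k) (hL : IsK ν k L)
    {r : CI Y G →ₗ[ℝ] Lp ℝ 2 (ν.restrict D)} (hr : ∀ f, (r f : Y → ℝ) =ᵐ[ν.restrict D] f.1) :
    ∃ T : Lp ℝ 2 (ν.restrict D) →L[ℝ] Lp ℝ 2 (ν.restrict D), IsOp (ν.restrict D) (perK G k) T ∧
      (∀ f, T (r f) = r (L f)) ∧ ∀ φ, ∃ f, T φ = r f := by
  have := A.finite
  obtain ⟨T, hT⟩ := exists_op (ν.restrict D) (A.bk hk hi)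
  refine ⟨T, hT, fun f => Lp.ext ((hT _).trans (.trans (.of_forall fun y => ?_) (hr _).symm)),
    fun φ => ⟨⟨_, A.lift hk hi φ⟩, Lp.ext ((hT φ).trans (hr ⟨_, A.lift hk hi φ⟩).symm)⟩⟩
  rw [hL, ← A.unfold hk]
  refine integral_congr_ae ?_
  filter_upwards [hr f] with v hv
  rw [hv]

theorem Act.isK_symm (A : Act G ν D) (hk : PK k) (hi : KInv G k) (hs : ∀ w v, k w v = k v w)
    (hL : IsK ν k L) (f g : CI Y G) :
    ∫ w in D, (L f).1 w * g.1 w ∂ν = ∫ w in D, f.1 w * (L g).1 w ∂ν := by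
  have := A.finite
  obtain ⟨r, -, hr, hp⟩ := A.exists_toL2
  obtain ⟨T, hT, h1, -⟩ := A.exists_model hk hi hL hr
  rw [← hp, ← hp, ← h1, ← h1]
  exact hT.isSymmetric (A.bk hk hi) (perK_symm hi hs) _ _

theorem finite_of_compact_of_le {H V : Type} [NormedAddCommGroup H] [NormedSpace ℝ H]
    [AddCommGroup V] [Module ℝ V] {T : H →L[ℝ] H} (hT : IsCompactOperator T) (r : V →ₗ[ℝ] H)
    (hr : Function.Injective r) {c : ℝ} (hc : 0 < c) (h : ∀ x, c * ‖r x‖ ≤ ‖T (r x)‖) :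
    Module.Finite ℝ V := by
  suffices h : FiniteDimensional ℝ (LinearMap.range r) from
    Module.Finite.equiv (LinearEquiv.ofInjective r hr).symm
  by_contra hf
  obtain ⟨R, f, -, h1, h2⟩ := exists_seq_norm_le_one_le_norm_sub hf
  obtain ⟨K, hK, hs⟩ := IsCompactOperator.image_closedBall_subset_compact (f := T.toLinearMap) hT R
  obtain ⟨a, -, φ, hφ, hl⟩ := hK.tendsto_subseq (x := fun n => T (f n)) fun n =>
    hs ⟨f n, mem_closedBall_zero_iff.2 (h1 n), rfl⟩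
  obtain ⟨N, hN⟩ := Metric.cauchySeq_iff'.1 hl.cauchySeq c hc
  have h3 := hN (N + 1) (Nat.le_succ N)
  have h4 : 1 ≤ ‖(f (φ (N + 1)) : H) - f (φ N)‖ := h2 (hφ.injective.ne (Nat.succ_ne_self N))
  obtain ⟨x, hx⟩ : ∃ x, r x = f (φ (N + 1)) - f (φ N) := (f (φ (N + 1)) - f (φ N)).2
  have h5 := h x
  rw [dist_eq_norm, Function.comp_apply, Function.comp_apply, ← map_sub] at h3
  rw [hx] at h5
  nlinarith

theorem Act.finite_eigenspace (A : Act G ν D) (hk : PK k) (hi : KInv G k) (hL : IsK ν k L)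
    {t : ℝ} (ht : t ≠ 0) : Module.Finite ℝ (L.eigenspace t) := by
  have := A.finite
  obtain ⟨r, hr0, hr, -⟩ := A.exists_toL2
  obtain ⟨T, hT, h1, -⟩ := A.exists_model hk hi hL hr
  refine finite_of_compact_of_le (V := L.eigenspace t) (hT.isCompact (A.bk hk hi) (A.equi hk hi))
    (r.domRestrict (L.eigenspace t)) (fun _ _ h => Subtype.ext (hr0 h)) (abs_pos.2 ht) fun x => ?_
  change |t| * ‖r x‖ ≤ ‖T (r x)‖
  rw [h1, Module.End.mem_eigenspace_iff.1 x.2, map_smul, norm_smul, Real.norm_eq_abs]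

theorem Act.eigenspace_eq_bot (A : Act G ν D) (hk : PK k) (hi : KInv G k) (hL : IsK ν k L) :
    ∃ M : ℝ, ∀ t : ℝ, M < |t| → L.eigenspace t = ⊥ := by
  obtain ⟨r, hr0, hr, -⟩ := A.exists_toL2
  obtain ⟨T, -, h1, -⟩ := A.exists_model hk hi hL hr
  refine ⟨‖T‖, fun t ht => (Submodule.eq_bot_iff _).2 fun x hx => hr0 ?_⟩
  have h2 := T.le_opNorm (r x)
  rw [h1, Module.End.mem_eigenspace_iff.1 hx, map_smul, norm_smul, Real.norm_eq_abs] at h2
  rw [map_zero, ← norm_le_zero_iff]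
  exact le_of_not_gt fun h => absurd (mul_lt_mul_of_pos_right ht h) h2.not_gt

theorem Act.finite_of_coercive (A : Act G ν D) (hk : PK k) (hi : KInv G k) (hL : IsK ν k L)
    (W : Submodule ℝ (CI Y G))
    (h : ∀ f ∈ W, 1 / 2 * ∫ w in D, f.1 w ^ 2 ∂ν ≤ ∫ w in D, (L f).1 w * f.1 w ∂ν) :
    Module.Finite ℝ W := by
  have := A.finite
  obtain ⟨r, hr0, hr, hp⟩ := A.exists_toL2
  obtain ⟨T, hT, h1, -⟩ := A.exists_model hk hi hL hr
  refine finite_of_compact_of_le (V := W) (hT.isCompact (A.bk hk hi) (A.equi hk hi))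
    (r.domRestrict W) (fun _ _ h => Subtype.ext (hr0 h)) one_half_pos fun x => ?_
  change 1 / 2 * ‖r x‖ ≤ ‖T (r x)‖
  have h2 := h x x.2
  simp only [sq] at h2
  rw [← hp, ← hp, ← h1, real_inner_self_eq_norm_mul_norm, ← mul_assoc] at h2
  rcases (norm_nonneg (r x)).eq_or_lt with h3 | h3
  · rw [← h3, mul_zero]
    exact norm_nonneg _
  · exact le_of_mul_le_mul_right (h2.trans (real_inner_le_norm _ _)) h3

end Pool.Agent.P.MP_3c2f8c_gt.E6
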