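import Pool.Agent.P.MP_3c2f8c_gt.E6.An.Smo

/-! E6AN-Lap2: invariance of the Casimir operator. -/

namespace Pool.Agent.P.MP_3c2f8c_gt.E6

open Matrix MeasureTheory Topology

variable {ι : Type} [Fintype ι] [DecidableEq ι] {β : Tens ι ℝ} {θ : AutL β}
  {f h : AutL β → ℝ}

namespace Lap2Aux

theorem pd_comp {F : (ι → ℝ) → ℝ} (hF : Differentiable ℝ F) (M : Matrix ι ι ℝ) (j : ι)
    (x : ι → ℝ) : pd j (fun x => F (M *ᵥ x)) x = ∑ l, M l j * pd l F (M *ᵥ x) := by
  let L : (ι → ℝ) →L[ℝ] (ι → ℝ) := LinearMap.toContinuousLinearMap M.mulVecLin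
  have h1 : HasFDerivAt (fun x => F (M *ᵥ x)) ((fderiv ℝ F (M *ᵥ x)).comp L) x :=
    (hF (M *ᵥ x)).hasFDerivAt.comp x L.hasFDerivAt
  have h2 : L (Pi.single j 1) = ∑ l, M l j • (Pi.single l 1 : ι → ℝ) := by
    funext k
    simp [L, Finset.sum_apply, Pi.single_apply]
  rw [pd, h1.fderiv, ContinuousLinearMap.comp_apply, h2, map_sum]
  simp only [map_smul, smul_eq_mul, pd]

theorem pd_pd_comp {H : (ι → ℝ) → ℝ} (hH : ContDiff ℝ (⊤ : ℕ∞) H) (M : Matrix ι ι ℝ) (i j : ι) :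
    pd i (pd j fun x => H (M *ᵥ x)) 0 = ∑ k, ∑ l, M k i * M l j * pd k (pd l H) 0 := by
  have h1 : ∀ l, Differentiable ℝ (pd l H) := fun l =>
    ((hH.fderiv_right (m := (⊤ : ℕ∞)) le_rfl).clm_apply contDiff_const).differentiable (by simp)
  have e : (pd j fun x => H (M *ᵥ x)) = fun x => (fun y => ∑ l, M l j * pd l H y) (M *ᵥ x) :=
    funext fun x => pd_comp (hH.differentiable (by simp)) M j x
  rw [e, pd_comp (F := fun y => ∑ l, M l j * pd l H y)
    (Differentiable.fun_sum fun l _ => (h1 l).const_mul _), mulVec_zero]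
  refine Finset.sum_congr rfl fun k _ => ?_
  have h2 : HasFDerivAt (fun y => ∑ l, M l j * pd l H y) (∑ l, M l j • fderiv ℝ (pd l H) 0) 0 :=
    HasFDerivAt.fun_sum fun l _ => (h1 l 0).hasFDerivAt.const_mul _
  rw [pd, h2.fderiv, _root_.sum_apply, Finset.mul_sum]
  refine Finset.sum_congr rfl fun l _ => ?_
  rw [mul_assoc]
  rfl

end Lap2Aux

theorem lap_congr (hL : IsLie β) (hθ : IsCartan θ) (hf : Smooth f) {g g' : AutL β}
    {M : Matrix ι ι ℝ} (hM : Mᵀ * kilM β * M = kilM β)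
    (e : ∀ x, chart h g' x = chart f g (M *ᵥ x)) : lap h g' = lap f g := by
  have hu : IsUnit (kilM β).det := isUnit_iff_ne_zero.2 hθ.det_ne
  have h1 : (kilM β)⁻¹ * Mᵀ * kilM β * M = 1 := by
    rw [Matrix.mul_assoc, Matrix.mul_assoc, ← Matrix.mul_assoc Mᵀ, hM, nonsing_inv_mul _ hu]
  have h2 : M * (kilM β)⁻¹ * Mᵀ = (kilM β)⁻¹ := by
    refine (inv_eq_left_inv ?_).symm
    simpa only [Matrix.mul_assoc] using mul_eq_one_comm.1 h1
  have h3 : ∀ k l, (kilM β)⁻¹ k l = ∑ i, ∑ j, (kilM β)⁻¹ i j * (M k i * M l j) := fun k l => by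
    conv_lhs => rw [← h2]
    simp only [mul_apply, transpose_apply, Finset.sum_mul]
    rw [Finset.sum_comm]
    exact Finset.sum_congr rfl fun i _ => Finset.sum_congr rfl fun j _ => by ring
  rw [lap, lap, show chart h g' = fun x => chart f g (M *ᵥ x) from funext e]
  simp only [Lap2Aux.pd_pd_comp (hf.contDiff_chart hL g)]
  symm
  calc ∑ k, ∑ l, (kilM β)⁻¹ k l * pd k (pd l (chart f g)) 0
      = ∑ k, ∑ l, ∑ i, ∑ j, (kilM β)⁻¹ i j * (M k i * M l j * pd k (pd l (chart f g)) 0) := by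
        refine Finset.sum_congr rfl fun k _ => Finset.sum_congr rfl fun l _ => ?_
        rw [h3 k l]
        simp only [Finset.sum_mul, mul_assoc]
    _ = ∑ k, ∑ i, ∑ j, ∑ l, (kilM β)⁻¹ i j * (M k i * M l j * pd k (pd l (chart f g)) 0) := by
        refine Finset.sum_congr rfl fun k _ => ?_
        rw [Finset.sum_comm]
        exact Finset.sum_congr rfl fun i _ => Finset.sum_comm
    _ = _ := by
        rw [Finset.sum_comm]
        refine Finset.sum_congr rfl fun i _ => ?_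
        rw [Finset.sum_comm]
        simp only [Finset.mul_sum]

theorem lap_inv (hL : IsLie β) (hθ : IsCartan θ) (hf : Smooth f) (hs : ∀ g, f g⁻¹ = f g)
    (g : AutL β) : lap f g⁻¹ = lap f g := by
  refine lap_congr hL hθ hf (M := -(g⁻¹).1.1) ?_ fun x => ?_
  · rw [transpose_neg, Matrix.neg_mul, Matrix.neg_mul, Matrix.mul_neg, neg_neg, kilM_inv]
  · rw [chart_eq hL, chart_eq hL, neg_mulVec, ← mulVec_neg, ← conj_eA hL, eA_neg hL, ← hs]
    congr 1
    group

end Pool.Agent.P.MP_3c2f8c_gt.E6
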