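import Pool.Agent.P.MP_3c2f8c_gt.E6.An.DInt
import Pool.Agent.P.MP_3c2f8c_gt.E6.An.Lap1
import Pool.Agent.P.MP_3c2f8c_gt.E6.An.Lap2
import Pool.Agent.P.MP_3c2f8c_gt.E6.An.Haar

/-! E6AN-Parts: integration by parts on the group. -/

namespace Pool.Agent.P.MP_3c2f8c_gt.E6

open Matrix MeasureTheory Topology

variable {ι : Type} [Fintype ι] [DecidableEq ι] {β : Tens ι ℝ} {θ : AutL β}

theorem integral_LD (hL : IsLie β) (hθ : IsCartan θ) {F : AutL β → ℝ} (hF : Smooth F)
    (hs : HasCompactSupport F) (X : ι → ℝ) : ∫ g, LD X F g ∂mu β = 0 := by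
  have := mu_right hL hθ
  have h := hasDerivAt_integral_eA hL hF hs (Homeomorph.refl _) (f := fun _ => 1)
    continuous_const X
  simp only [Homeomorph.refl_apply, id, mul_one, integral_mul_right_eq_self] at h
  exact h.unique (hasDerivAt_const _ _)

namespace PartsAux

theorem integrable {A h : AutL β → ℝ} (hA : Continuous A) (hs : HasCompactSupport A)
    (hh : Continuous h) : Integrable (fun y => A y * h y) (mu β) :=
  (hA.mul hh).integrable_of_hasCompactSupport hs.mul_right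

theorem parts (hL : IsLie β) (hθ : IsCartan θ) {A h : AutL β → ℝ} (hA : Smooth A)
    (hs : HasCompactSupport A) (hh : Smooth h) (X : ι → ℝ) :
    ∫ y, LD X A y * h y ∂mu β = -∫ y, A y * LD X h y ∂mu β := by
  have h1 := integral_LD hL hθ (hA.mul hh) hs.mul_right X
  simp only [LD_mul hL hA hh] at h1
  rw [integral_add (integrable (hA.ld hL X).continuous (hasCompactSupport_LD hL hs X) hh.continuous)
    (integrable hA.continuous hs (hh.ld hL X).continuous)] at h1
  exact eq_neg_of_add_eq_zero_left h1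

theorem integral_sum (c : ι → ι → ℝ) {G : ι → ι → AutL β → ℝ}
    (hG : ∀ i j, Integrable (G i j) (mu β)) :
    ∫ y, ∑ i, ∑ j, c i j * G i j y ∂mu β = ∑ i, ∑ j, c i j * ∫ y, G i j y ∂mu β := by
  rw [integral_finsetSum _ fun i _ => integrable_finsetSum _ fun j _ => (hG i j).const_mul _]
  refine Finset.sum_congr rfl fun i _ => ?_
  rw [integral_finsetSum _ fun j _ => (hG i j).const_mul _]
  exact Finset.sum_congr rfl fun j _ => integral_const_mul _ _

theorem green (hL : IsLie β) (hθ : IsCartan θ) {A h : AutL β → ℝ} (hA : Smooth A)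
    (hs : HasCompactSupport A) (hh : Smooth h) :
    ∫ y, lap A y * h y ∂mu β = ∫ y, A y * lap h y ∂mu β := by
  simp only [lap_eq_LD hL hA, lap_eq_LD hL hh, Finset.sum_mul, Finset.mul_sum, mul_assoc,
    mul_left_comm (A _)]
  rw [integral_sum _ fun i j => integrable ((hA.ld hL _).ld hL _).continuous
      (hasCompactSupport_LD hL (hasCompactSupport_LD hL hs _) _) hh.continuous,
    integral_sum _ fun i j => integrable hA.continuous hs ((hh.ld hL _).ld hL _).continuous,
    Finset.sum_comm]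
  refine Finset.sum_congr rfl fun i _ => Finset.sum_congr rfl fun j _ => ?_
  have e : (kilM β)⁻¹ j i = (kilM β)⁻¹ i j := by
    rw [← transpose_apply (kilM β)⁻¹, transpose_nonsing_inv, kilM_symm]
  rw [e, parts hL hθ (hA.ld hL _) (hasCompactSupport_LD hL hs _) hh,
    parts hL hθ hA hs (hh.ld hL _), neg_neg]

end PartsAux

theorem cv_lap (hL : IsLie β) (hθ : IsCartan θ) {Θ f : AutL β → ℝ} (hΘ : Smooth Θ)
    (hs : HasCompactSupport Θ) (hf : Smooth f) : cv (lap Θ) f = cv Θ (lap f) := by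
  funext x
  rw [cv_eq, cv_eq, PartsAux.green hL hθ hΘ hs (hf.left x)]
  simp only [lap_left hL]

theorem lap_cv (hL : IsLie β) (hθ : IsCartan θ) {Θ f : AutL β → ℝ} (hΘ : Smooth Θ)
    (hs : HasCompactSupport Θ) (hsym : ∀ g, Θ g⁻¹ = Θ g) (hf : Continuous f)
    (hr : Smooth (cv Θ f)) : lap (cv Θ f) = cv (lap Θ) f := by
  have e : ∀ A : AutL β → ℝ, (∀ g, A g⁻¹ = A g) →
      cv A f = fun x => ∫ y, A (y⁻¹ * x) * f y ∂mu β := fun A hA => by
    funext x
    refine integral_congr_ae (Filter.Eventually.of_forall fun y => ?_)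
    change A (x⁻¹ * y) * f y = A (y⁻¹ * x) * f y
    rw [← hA, _root_.mul_inv_rev, inv_inv]
  rw [e _ hsym] at hr
  rw [e _ hsym, e _ (lap_inv hL hθ hΘ hsym)]
  funext x
  have e1 : ∀ X, LD X (fun x => ∫ y, Θ (y⁻¹ * x) * f y ∂mu β) =
      fun x => ∫ y, LD X Θ (y⁻¹ * x) * f y ∂mu β := fun X =>
    funext fun x => LD_integral hL hΘ hs hf hr X x
  have e2 : ∀ X Y, LD Y (fun x => ∫ y, LD X Θ (y⁻¹ * x) * f y ∂mu β) x =
      ∫ y, LD Y (LD X Θ) (y⁻¹ * x) * f y ∂mu β := fun X Y =>
    LD_integral hL (hΘ.ld hL X) (hasCompactSupport_LD hL hs X) hf (e1 X ▸ hr.ld hL X) Y x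
  simp only [lap_eq_LD hL hr, lap_eq_LD hL hΘ, e1, e2, Finset.sum_mul, mul_assoc]
  refine (PartsAux.integral_sum _ fun i j => PartsAux.integrable
    (((hΘ.ld hL _).ld hL _).continuous.comp (continuous_inv.mul continuous_const)) ?_ hf).symm
  exact (hasCompactSupport_LD hL (hasCompactSupport_LD hL hs _) _).comp_homeomorph
    ((Homeomorph.inv _).trans (Homeomorph.mulRight x))

end Pool.Agent.P.MP_3c2f8c_gt.E6
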