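import Pool.Agent.P.MP_3c2f8c_gt.E6.An.Poin2
import Pool.Agent.P.MP_3c2f8c_gt.E6.An.Parts
import Pool.Agent.P.MP_3c2f8c_gt.E6.An.Model

/-! E6AN-Ident: the spectral data of the total eigenspace. -/

namespace Pool.Agent.P.MP_3c2f8c_gt.E6

open Matrix MeasureTheory Topology

variable {ι : Type} [Fintype ι] [DecidableEq ι] {β : Tens ι ℝ} {θ : AutL β} {Z : Type}
  [TopologicalSpace Z] [DiscreteTopology Z] [MeasurableSpace Z] [DiscreteMeasurableSpace Z]
  [Countable Z] {G : Type} [Group G] [Countable G] [MulAction G (AutL β)] [MulAction G Z]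
  {ρ : G →* AutL β} {D : Set (AutL β × Z)} {κ : Z → Z → ℕ}
  {ev δ : ℝ} {φ : AutL β → ℝ} {L S U : Module.End ℝ (CI (AutL β × Z) G)}

theorem NiceA.specData (hL : IsLie β) (hθ : IsCartan θ) (N : NiceA G Z ρ) (A : Act G (nu β Z) D)
    (hκ : HK κ) (hinv : ∀ (g : G) z z', κ (g • z) (g • z') = κ z z') (hφ : Ker θ δ φ)
    (hδ : δ * |ev| ≤ 1 / 2) (hk : IsK (nu β Z) (pk φ κ 0) L)
    (hS : IsK (nu β Z) (pk (lap φ) κ 0) S) (hU : IsU κ U) :
    SpecData L S U (EigY Z θ G ev) ev := by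
  have c1 : Continuous φ := hφ.smooth.continuous
  have c2 : Continuous (lap φ) := (hφ.smooth.laplace hL).continuous
  have s2 : HasCompactSupport (lap φ) := hasCompactSupport_lap hL hφ.smooth hφ.supp
  have p1 : PK (pk φ κ 0) := pk_PK c1 hφ.supp hκ.fin 0
  have p2 : PK (pk (lap φ) κ 0) := pk_PK c2 s2 hκ.fin 0
  have i1 : KInv G (pk φ κ 0) := (pk_ksym φ κ 0).kinv N hinv
  have i2 : KInv G (pk (lap φ) κ 0) := (pk_ksym (lap φ) κ 0).kinv N hinv
  have cs : ∀ (f : CI (AutL β × Z) G) (z : Z), Continuous fun x => f.1 (x, z) := fun f z =>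
    continuous_iff_slice.1 f.2.1 z
  have eL := hk.slice c1 hφ.supp hκ.fin
  have eS := hS.slice c2 s2 hκ.fin
  have eLS : ∀ (f : CI (AutL β × Z) G) (z : Z),
      lap (fun x => (L f).1 (x, z)) = fun x => (S f).1 (x, z) := fun f z => by
    rw [eL, eS, lap_cv hL hθ hφ.smooth hφ.supp hφ.symm (cs f z) (hφ.reg _ (cs f z))]
  have sL : ∀ (f : CI (AutL β × Z) G) (z : Z), Smooth fun x => (L f).1 (x, z) := fun f z => by
    rw [eL]
    exact hφ.reg _ (cs f z)
  have kL : ∀ (f : CI (AutL β × Z) G) (z : Z) (u : AutL β), u * θ = θ * u → ∀ x,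
      (L f).1 (x * u, z) = (L f).1 (x, z) := fun f z u hu x => by
    have h1 := congrFun (eL f z) (x * u)
    have h2 := congrFun (eL f z) x
    rw [cv_right hφ.kinv _ hu] at h1
    exact h1.trans h2.symm
  have co := fun f (hf : f ∈ EigY Z θ G ev) => N.coercive hL hθ A hφ hδ hκ.fin hk hf
  obtain ⟨b, hb, hp⟩ := A.exists_ip
  refine ⟨⟨b, fun x y => ?_, hp, fun x y => ?_, fun x y => ?_⟩,
    fun t ht => A.finite_eigenspace p1 i1 hk ht, ?_, hU.commute c1 hφ.supp hκ.fin hk,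
    hU.injective hκ, A.finite_of_coercive p1 i1 hk _ co, fun f hf z => ?_, fun f hf h0 => ?_,
    fun t ht f hf => ?_⟩
  · rw [hb, hb]
    simp only [mul_comm]
  · rw [hb, hb]
    exact A.isK_symm p1 i1 (pk_symm hφ.symm κ) hk x y
  · rw [hb, hb]
    exact A.isK_symm p2 i2 (pk_symm (lap_inv hL hθ hφ.smooth hφ.symm) κ) hS x y
  · refine LinearMap.ext fun f => Subtype.ext (funext fun w => ?_)
    have h1 := congrFun (eL (S f) w.2) w.1
    have h2 := congrFun (eS (L f) w.2) w.1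
    rw [← eLS, ← cv_lap hL hθ hφ.smooth hφ.supp (sL f w.2)] at h1
    exact h1.trans h2.symm
  · obtain ⟨h1, -, -, h4⟩ := (mem_eig_iff hL).1 (hf z)
    refine (mem_eig_iff hL).2 ⟨sL f z, fun γ hγ g => by rw [Subgroup.mem_bot.1 hγ, one_mul],
      kL f z, fun g => ?_⟩
    have h5 := congrFun (eL f z) g
    rw [eLS, eS, cv_lap hL hθ hφ.smooth hφ.supp h1, funext h4, cv_scal, ← h5]
  · refine A.eq_zero_of_sq f ?_
    have h1 := co f hf
    rw [h0] at h1
    simp only [Submodule.coe_zero, Pi.zero_apply, zero_mul, integral_zero] at h1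
    linarith
  · have h1 : L f = t • f := Module.End.mem_eigenspace_iff.1 hf
    have h2 : ∀ z, (fun x => f.1 (x, z)) = fun x => t⁻¹ * (L f).1 (x, z) := fun z => by
      funext x
      rw [h1, Submodule.coe_smul, Pi.smul_apply, smul_eq_mul, inv_mul_cancel_left₀ ht]
    have h3 : ∀ z g, lap (fun x => f.1 (x, z)) g = t⁻¹ * (S f).1 (g, z) := fun z g => by
      rw [h2, lap_scal hL (sL f z), eLS]
    constructor
    · intro hW
      refine Subtype.ext (funext fun w => ?_)
      have h4 := ((mem_eig_iff hL).1 (hW w.2)).2.2.2 w.1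
      rw [h3, inv_mul_eq_iff_eq_mul₀ ht] at h4
      rw [Submodule.coe_smul, Pi.smul_apply, smul_eq_mul]
      exact h4.trans (by ring)
    · intro hW z
      refine (mem_eig_iff hL).2 ⟨?_, fun γ hγ g => by rw [Subgroup.mem_bot.1 hγ, one_mul],
        fun u hu g => ?_, fun g => ?_⟩
      · rw [h2]
        exact (smooth_cst _).mul (sL f z)
      · have h4 := congrFun (h2 z) (g * u)
        have h5 := congrFun (h2 z) g
        rw [kL f z u hu] at h4
        exact h4.trans h5.symm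
      · rw [h3, hW, Submodule.coe_smul, Pi.smul_apply, smul_eq_mul]
        field_simp

end Pool.Agent.P.MP_3c2f8c_gt.E6
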