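import Pool.Agent.P.MP_3c2f8c_gt.E6.An.FD1
import Pool.Agent.P.MP_3c2f8c_gt.E6.An.FD2
import Pool.Agent.P.MP_3c2f8c_gt.E6.An.Haar

/-! E6AN-Nice: the action on the product of the group with a discrete set. -/

namespace Pool.Agent.P.MP_3c2f8c_gt.E6

open Matrix MeasureTheory Topology

variable {ι : Type} [Fintype ι] [DecidableEq ι] {β : Tens ι ℝ} {θ : AutL β} {Z : Type}
  [TopologicalSpace Z] [DiscreteTopology Z] [MeasurableSpace Z] [DiscreteMeasurableSpace Z]
  [Countable Z] {G : Type} [Group G] [Countable G] [MulAction G (AutL β)] [MulAction G Z]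
  {ρ : G →* AutL β} {D : Set (AutL β × Z)} {κ : Z → Z → ℕ}

theorem nu_left (g : AutL β) (Ψ : Z ≃ Z) : ∃ Θ : AutL β × Z ≃ᵐ AutL β × Z,
    (∀ w, Θ w = (g * w.1, Ψ w.2)) ∧ MeasurePreserving Θ (nu β Z) (nu β Z) :=
  ⟨(MeasurableEquiv.mulLeft g).prodCongr ⟨Ψ, Measurable.of_discrete, Measurable.of_discrete⟩,
    fun _ => rfl, (measurePreserving_mul_left (mu β) g).prod (FDAux.count_equiv Ψ)⟩

theorem continuous_iff_slice {F : AutL β × Z → ℝ} :
    Continuous F ↔ ∀ z, Continuous fun x => F (x, z) :=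
  continuous_prod_of_discrete_right

theorem NiceAux.smul_eq (N : NiceA G Z ρ) (g : G) (w : AutL β × Z) :
    g • w = (ρ g * w.1, g • w.2) := Prod.ext (N.act g w.1) rfl

theorem NiceA.mem_CI (N : NiceA G Z ρ) {F : AutL β × Z → ℝ} :
    F ∈ CI (AutL β × Z) G ↔ (∀ z, Continuous fun x => F (x, z)) ∧
      ∀ (g : G) (x : AutL β) (z : Z), F (ρ g * x, g • z) = F (x, z) := by
  refine and_congr continuous_iff_slice ⟨fun h g x z => ?_, fun h g w => ?_⟩
  · rw [← h g (x, z), NiceAux.smul_eq N]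
  · rw [NiceAux.smul_eq N, h]

theorem NiceA.exists_act (hθ : IsCartan θ) (N : NiceA G Z ρ) :
    ∃ D : Set (AutL β × Z), Act G (nu β Z) D := by
  have e : ∀ g : G, (fun w : AutL β × Z => g • w) = fun w => (ρ g * w.1, g • w.2) := fun g =>
    funext (NiceAux.smul_eq N g)
  refine E6.exists_act (fun g => ?_) (fun g => ?_) (fun C hC => ?_) (fun g w h => ?_) ?_
  · rw [e]
    exact (continuous_const.mul continuous_fst).prodMk
      ((continuous_of_discreteTopology (f := fun z : Z => g • z)).comp continuous_snd)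
  · rw [e]
    exact (measurePreserving_mul_left (mu β) (ρ g)).prod
      (FDAux.count_equiv (MulAction.toPerm g : Z ≃ Z))
  · have h1 := hC.image continuous_fst
    have h2 := (hC.image continuous_snd).finite_of_discrete
    obtain ⟨R, hR⟩ := bd_of_isCompact' ((h1.prod h1).image (continuous_fst.mul continuous_snd.inv))
    refine (h2.biUnion fun z _ => h2.biUnion fun z' _ => N.proper z z' R).subset ?_
    rintro g ⟨w, hw, hg⟩
    refine Set.mem_biUnion ⟨w, hw, rfl⟩ (Set.mem_biUnion ⟨_, hg, rfl⟩ ⟨rfl, hR _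
      ⟨((g • w).1, w.1), ⟨⟨_, hg, rfl⟩, ⟨w, hw, rfl⟩⟩, ?_⟩⟩)
    rw [NiceAux.smul_eq N]
    exact mul_inv_cancel_right _ _
  · rw [NiceAux.smul_eq N] at h
    exact N.inj ((mul_eq_right.1 (congrArg Prod.fst h)).trans (map_one ρ).symm)
  · obtain ⟨R, s, h⟩ := N.cocpt
    refine ⟨_, (isCompact_bd' hθ R).prod s.finite_toSet.isCompact, fun w => ?_⟩
    obtain ⟨g, hg⟩ := h w.1 w.2
    exact ⟨g, by rw [NiceAux.smul_eq N]; exact hg⟩

theorem NiceA.right_mem (N : NiceA G Z ρ) (f : CI (AutL β × Z) G) (y : AutL β) :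
    (fun w : AutL β × Z => f.1 (w.1 * y, w.2)) ∈ CI (AutL β × Z) G := by
  refine ⟨f.2.1.comp ((continuous_fst.mul continuous_const).prodMk continuous_snd), fun g w => ?_⟩
  dsimp only
  rw [← f.2.2 g (w.1 * y, w.2), NiceAux.smul_eq N, NiceAux.smul_eq N, mul_assoc]

theorem NiceA.integral_right (hL : IsLie β) (hθ : IsCartan θ) (N : NiceA G Z ρ)
    (A : Act G (nu β Z) D) (f : CI (AutL β × Z) G) (y : AutL β) :
    ∫ w in D, f.1 (w.1 * y, w.2) ∂nu β Z = ∫ w in D, f.1 w ∂nu β Z := by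
  haveI := mu_right hL hθ
  refine A.integral_comp ((Homeomorph.mulRight y).prodCongr (Homeomorph.refl Z))
    ((measurePreserving_mul_right (mu β) y).prod (MeasurePreserving.id _)) (fun g w => ?_) f
  rw [NiceAux.smul_eq N, NiceAux.smul_eq N]
  exact Prod.ext (mul_assoc _ _ _) rfl

end Pool.Agent.P.MP_3c2f8c_gt.E6
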