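import Pool.Agent.P.MP_3c2f8c_gt.E6.An.FD2
import Pool.Agent.P.MP_3c2f8c_gt.An.Op

/-! E6AN-Per: periodised kernels. -/

namespace Pool.Agent.P.MP_3c2f8c_gt.E6

open Matrix MeasureTheory Topology

variable {Y : Type} [TopologicalSpace Y] [T2Space Y] [LocallyCompactSpace Y]
  [SecondCountableTopology Y] [MeasurableSpace Y] [BorelSpace Y] {ν : Measure Y}
  [IsFiniteMeasureOnCompacts ν] [ν.IsOpenPosMeasure] {G : Type} [Group G] [Countable G]
  [MulAction G Y] {D : Set Y}
  {k : Y → Y → ℝ}

theorem Act.per_finite (A : Act G ν D) (hk : PK k) {C C' : Set Y} (hC : IsCompact C)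
    (hC' : IsCompact C') : {g : G | ∃ w ∈ C, ∃ v ∈ C', k w (g • v) ≠ 0}.Finite := by
  obtain ⟨C'', h1, h2⟩ := hk.supp C hC
  refine (A.proper (C' ∪ C'') (hC'.union h1)).subset ?_
  rintro g ⟨w, hw, v, hv, h⟩
  exact ⟨v, Or.inl hv, Or.inr (h2 w hw _ h)⟩

theorem Act.continuous_per (A : Act G ν D) (hk : PK k) :
    Continuous (Function.uncurry (perK G k)) := by
  rw [continuous_iff_continuousAt]
  rintro ⟨w, v⟩
  obtain ⟨C, hC, hw⟩ := exists_compact_mem_nhds w
  obtain ⟨C', hC', hv⟩ := exists_compact_mem_nhds v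
  have hf := A.per_finite hk hC hC'
  have hc : Continuous fun p : Y × Y => ∑ g ∈ hf.toFinset, k p.1 (g • p.2) :=
    continuous_finsetSum _ fun g _ =>
      hk.cont.comp (continuous_fst.prodMk ((A.cont g).comp continuous_snd))
  refine hc.continuousAt.congr ?_
  filter_upwards [prod_mem_nhds hw hv] with p hp
  refine (tsum_eq_sum fun g hg => ?_).symm
  by_contra h
  exact hg (hf.mem_toFinset.2 ⟨p.1, hp.1, p.2, hp.2, h⟩)

theorem perK_smul_right (k : Y → Y → ℝ) (g : G) (w v : Y) :
    perK G k w (g • v) = perK G k w v := by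
  unfold perK
  simp only [← mul_smul]
  exact (Equiv.mulRight g).tsum_eq fun x => k w (x • v)

theorem perK_smul_left (hi : KInv G k) (g : G) (w v : Y) :
    perK G k (g • w) v = perK G k w v := by
  unfold perK
  rw [← (Equiv.mulLeft g).tsum_eq]
  exact tsum_congr fun x => by rw [Equiv.coe_mulLeft, mul_smul, hi]

theorem perK_symm (hi : KInv G k) (hs : ∀ w v, k w v = k v w) (w v : Y) :
    perK G k w v = perK G k v w := by
  unfold perK
  rw [← (Equiv.inv G).tsum_eq]
  exact tsum_congr fun x => by rw [Equiv.inv_apply, hs, ← hi x, smul_inv_smul]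

theorem Act.bk (A : Act G ν D) (hk : PK k) (hi : KInv G k) : BK (perK G k) := by
  have hc := A.continuous_per hk
  refine ⟨hc.measurable, ?_⟩
  obtain ⟨C, hC, hD⟩ := A.bdd
  obtain ⟨c, h⟩ := (hC.prod hC).exists_bound_of_continuousOn hc.continuousOn
  refine ⟨c, fun y v => ?_⟩
  obtain ⟨g, hg, -⟩ := A.strict y
  obtain ⟨g', hg', -⟩ := A.strict v
  rw [← perK_smul_left hi g, ← perK_smul_right k g']
  exact h (g • y, g' • v) ⟨hD hg, hD hg'⟩

theorem Act.equi (A : Act G ν D) (hk : PK k) (hi : KInv G k) :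
    Equi (ν.restrict D) (perK G k) := by
  intro ε hε
  have hc := A.continuous_per hk
  obtain ⟨C, hC, hD⟩ := A.bdd
  have h1 : ∀ y₀ : Y, ∀ᶠ y in 𝓝 y₀, ∀ v ∈ C, |perK G k y v - perK G k y₀ v| < ε / 2 := by
    intro y₀
    refine hC.eventually_forall_of_forall_eventually
      (P := fun y v => |perK G k y v - perK G k y₀ v| < ε / 2) fun v _ => ?_
    have h2 : Continuous fun z : Y × Y => |perK G k z.1 z.2 - perK G k y₀ z.2| :=
      (hc.sub (hc.comp (continuous_const.prodMk continuous_snd))).abs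
    refine h2.continuousAt.eventually_lt continuousAt_const ?_
    simp only [sub_self, abs_zero]
    exact half_pos hε
  obtain ⟨t, -, ht⟩ := hC.elim_nhds_subcover
    (fun y₀ => interior {y | ∀ v ∈ C, |perK G k y v - perK G k y₀ v| < ε / 2})
    fun y₀ _ => interior_mem_nhds.2 (h1 y₀)
  refine ⟨t.card, fun i => interior
    {y | ∀ v ∈ C, |perK G k y v - perK G k (t.equivFin.symm i).1 v| < ε / 2},
    fun i => isOpen_interior.measurableSet, ?_, fun i y hy y' hy' v => ?_⟩
  · filter_upwards [ae_restrict_mem A.meas] with y hy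
    obtain ⟨y₀, h0, h3⟩ := Set.mem_iUnion₂.1 (ht (hD hy))
    refine ⟨t.equivFin ⟨y₀, h0⟩, ?_⟩
    rw [Equiv.symm_apply_apply]
    exact h3
  · obtain ⟨g, hg, -⟩ := A.strict v
    have h4 := abs_lt.1 (interior_subset hy (g • v) (hD hg))
    have h5 := abs_lt.1 (interior_subset hy' (g • v) (hD hg))
    rw [← perK_smul_right k g y, ← perK_smul_right k g y', abs_le]
    constructor <;> linarith [h4.1, h4.2, h5.1, h5.2]

theorem Act.lift (A : Act G ν D) (hk : PK k) (hi : KInv G k) (φ : Lp ℝ 2 (ν.restrict D)) :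
    (fun w => ∫ v in D, perK G k w v * φ v ∂ν) ∈ CI Y G := by
  refine ⟨?_, fun g w => by simp only [perK_smul_left hi]⟩
  have hc := A.continuous_per hk
  obtain ⟨c, h⟩ := (A.bk hk hi).bdd
  have := A.finite
  have hφ : Integrable φ (ν.restrict D) := (Lp.memLp φ).integrable one_le_two
  refine continuous_of_dominated (bound := fun v => c * ‖φ v‖) (fun w => ?_)
    (fun w => Filter.Eventually.of_forall fun v => ?_) (hφ.norm.const_mul c)
    (Filter.Eventually.of_forall fun v => ?_)
  · exact (hc.comp (Continuous.prodMk_right w)).aestronglyMeasurable.mul hφ.aestronglyMeasurable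
  · rw [norm_mul]
    exact mul_le_mul_of_nonneg_right (h w v) (norm_nonneg _)
  · exact (hc.comp (Continuous.prodMk_left v)).mul continuous_const

end Pool.Agent.P.MP_3c2f8c_gt.E6
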