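import Pool.Agent.P.MP_3c2f8c_gt.E6.An.Pk1
import Pool.Agent.P.MP_3c2f8c_gt.E6.An.Kc
import Pool.Agent.P.MP_3c2f8c_gt.An.Moment

/-! E6AN-Pk2: operators of product kernels. -/

namespace Pool.Agent.P.MP_3c2f8c_gt.E6

open Matrix MeasureTheory Topology

variable {ι : Type} [Fintype ι] [DecidableEq ι] {β : Tens ι ℝ} {θ : AutL β} {Z : Type}
  [TopologicalSpace Z] [DiscreteTopology Z] [MeasurableSpace Z] [DiscreteMeasurableSpace Z]
  [Countable Z] {G : Type} [Group G] [Countable G] [MulAction G (AutL β)] [MulAction G Z]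
  {ρ : G →* AutL β} {D : Set (AutL β × Z)} {κ : Z → Z → ℕ}
  {Θ : AutL β → ℝ} {L U : Module.End ℝ (CI (AutL β × Z) G)}

theorem Pk2Aux.UU_eq {X Z : Type} {κ : Z → Z → ℕ} (hfin : ∀ z, {z' | κ z z' ≠ 0}.Finite)
    (f : X × Z → ℝ) (w : X × Z) :
    UU κ f w = ∑ z' ∈ (hfin w.2).toFinset, (κ w.2 z' : ℝ) * f (w.1, z') :=
  finsum_eq_sum_of_support_subset _ fun z' hz' => by simpa using left_ne_zero_of_mul hz'

theorem integral_pk (hΘ : Continuous Θ) (hs : HasCompactSupport Θ)
    (hfin : ∀ z, {z' | κ z z' ≠ 0}.Finite) (m : ℕ) {f : AutL β × Z → ℝ} (hf : Continuous f)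
    (w : AutL β × Z) : ∫ v, pk Θ κ m w v * f v ∂nu β Z =
      cv Θ (fun x => (UL (AutL β) κ hfin ^ m) f (x, w.2)) w.1 := by
  rw [nu, integral_prod _ ((pk_PK hΘ hs hfin m).integrable (ν := nu β Z) hf w), cv]
  refine integral_congr_ae (.of_forall fun y => ?_)
  have h1 : Integrable (fun z' => pk Θ κ m w (y, z') * f (y, z')) Measure.count := by
    refine integrable_count_iff.mpr (summable_of_ne_finset_zero
      (s := (kpow_finite hfin m w.2).toFinset) fun z' hz' => ?_)
    have : kpow κ m w.2 z' = 0 := by simpa using hz'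
    simp [pk, this]
  simp only
  rw [integral_countable h1]
  simp only [Measure.real, Measure.count_singleton, ENNReal.toReal_one, one_smul, pk, mul_assoc]
  exact ((PerAux.hasSum_UL hfin m f y w.2).mul_left _).tsum_eq

theorem IsK.slice (hΘ : Continuous Θ) (hs : HasCompactSupport Θ)
    (hfin : ∀ z, {z' | κ z z' ≠ 0}.Finite) (hL : IsK (nu β Z) (pk Θ κ 0) L)
    (f : CI (AutL β × Z) G) (z : Z) :
    (fun x => (L f).1 (x, z)) = cv Θ fun x => f.1 (x, z) :=
  funext fun x => (hL f (x, z)).trans (integral_pk hΘ hs hfin 0 f.2.1 (x, z))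

theorem NiceA.exists_isU (N : NiceA G Z ρ) (hfin : ∀ z, {z' | κ z z' ≠ 0}.Finite)
    (hinv : ∀ (g : G) z z', κ (g • z) (g • z') = κ z z') :
    ∃ U : Module.End ℝ (CI (AutL β × Z) G), IsU κ U := by
  refine ⟨(UL (AutL β) κ hfin).restrict (p := CI (AutL β × Z) G) (q := CI (AutL β × Z) G)
    fun f hf => ⟨continuous_iff_slice.mpr fun z => ?_, fun g w => ?_⟩, fun _ _ => rfl⟩
  · refine (continuous_finsetSum (hfin z).toFinset (f := fun z' x => (κ z z' : ℝ) * f (x, z'))
      fun z' _ => continuous_const.mul (hf.1.comp (continuous_id.prodMk continuous_const))).congr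
        fun x => (Pk2Aux.UU_eq hfin f (x, z)).symm
  · change ∑ᶠ z', (κ (g • w.2) z' : ℝ) * f (g • w.1, z') = ∑ᶠ z', (κ w.2 z' : ℝ) * f (w.1, z')
    rw [← finsum_comp_equiv (MulAction.toPerm g)]
    refine finsum_congr fun z' => ?_
    rw [MulAction.toPerm_apply, hinv, ← hf.2 g (w.1, z')]
    rfl

theorem IsU.injective (hκ : HK κ) (hU : IsU κ U) : Function.Injective U :=
  fun f g h => Subtype.ext (UL_injective hκ (funext fun w =>
    ((hU f w).symm.trans (congrFun (congrArg Subtype.val h) w)).trans (hU g w)))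

theorem IsU.commute (hΘ : Continuous Θ) (hs : HasCompactSupport Θ)
    (hfin : ∀ z, {z' | κ z z' ≠ 0}.Finite) (hL : IsK (nu β Z) (pk Θ κ 0) L) (hU : IsU κ U) :
    Commute L U := by
  refine LinearMap.ext fun f => Subtype.ext (funext fun w => ?_)
  have h1 := fun f z => congrFun (hL.slice hΘ hs hfin f z) w.1
  have h2 : ∀ z', Integrable (fun y => (κ w.2 z' : ℝ) * (Θ (w.1⁻¹ * y) * f.1 (y, z'))) (mu β) :=
    fun z' => (((hΘ.comp (continuous_const.mul continuous_id)).mul
      (f.2.1.comp (continuous_id.prodMk continuous_const))).integrable_of_hasCompactSupport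
        (hs.comp_homeomorph (Homeomorph.mulLeft w.1⁻¹)).mul_right).const_mul _
  rw [Module.End.mul_apply, Module.End.mul_apply, hU, Pk2Aux.UU_eq hfin]
  refine (h1 _ w.2).trans ?_
  simp only [h1, cv, hU f, Pk2Aux.UU_eq hfin, ← integral_const_mul]
  rw [← integral_finsetSum _ fun z' _ => h2 z']
  simp only [Finset.mul_sum, mul_left_comm]

theorem IsU.isK (hΘ : Continuous Θ) (hs : HasCompactSupport Θ)
    (hfin : ∀ z, {z' | κ z z' ≠ 0}.Finite) (hL : IsK (nu β Z) (pk Θ κ 0) L) (hU : IsU κ U)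
    (m : ℕ) : IsK (nu β Z) (pk Θ κ m) (L * U ^ m) := by
  intro f w
  have h1 : ((U ^ m) f).1 = (UL (AutL β) κ hfin ^ m) f.1 := by
    induction m with
    | zero => rfl
    | succ m ih =>
      rw [pow_succ', pow_succ', Module.End.mul_apply, Module.End.mul_apply, ← ih]
      exact funext (hU _)
  rw [integral_pk hΘ hs hfin m f.2.1, ← h1]
  exact congrFun (hL.slice hΘ hs hfin _ w.2) w.1

end Pool.Agent.P.MP_3c2f8c_gt.E6
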