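import Pool.Agent.P.MP_3c2f8c_gt.E6.An.Exp
import Pool.Agent.P.MP_3c2f8c_gt.E6.An.Top
import Pool.Agent.P.MP_3c2f8c_gt.E6.An.Diag

/-! E6AN-Polar: the polar decomposition. -/

namespace Pool.Agent.P.MP_3c2f8c_gt.E6

open Matrix MeasureTheory Topology

variable {ι : Type} [Fintype ι] [DecidableEq ι] {β : Tens ι ℝ} {θ : AutL β}

namespace PolarAux

theorem val_mul (a b : AutL β) : (a * b).1.1 = a.1.1 * b.1.1 := rfl

theorem act_mul (a b : AutL β) (x : ι → ℝ) : (a * b).1.1 *ᵥ x = a.1.1 *ᵥ (b.1.1 *ᵥ x) :=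
  (mulVec_mulVec _ _ _).symm

theorem act_one (x : ι → ℝ) : (1 : AutL β).1.1 *ᵥ x = x := one_mulVec x

theorem cind (V : GL ι ℝ) {P : (ι → ℝ) → Prop} (h0 : P 0) (ha : ∀ x y, P x → P y → P (x + y))
    (hs : ∀ (c : ℝ) x, P x → P (c • x)) (h1 : ∀ i, P (V.1 *ᵥ Pi.single i 1)) (x : ι → ℝ) :
    P x := by
  obtain ⟨y, rfl⟩ := Lie1Aux.surj V x
  refine Lie1Aux.ind (P := fun y => P (V.1 *ᵥ y)) ?_ (fun x y hx hy => ?_) (fun c x hx => ?_) h1 y
  · rwa [mulVec_zero]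
  · rw [mulVec_add]
    exact ha _ _ hx hy
  · rw [mulVec_smul]
    exact hs _ _ hx

theorem col_ext (V : GL ι ℝ) {A B : Matrix ι ι ℝ}
    (h : ∀ i, A *ᵥ (V.1 *ᵥ Pi.single i 1) = B *ᵥ (V.1 *ᵥ Pi.single i 1)) : A = B :=
  Lie1Aux.mat_ext (cind V (P := fun x => A *ᵥ x = B *ᵥ x) (by rw [mulVec_zero, mulVec_zero])
    (fun x y hx hy => by rw [mulVec_add, mulVec_add, hx, hy])
    (fun c x hx => by rw [mulVec_smul, mulVec_smul, hx]) h)

theorem col_ne (V : GL ι ℝ) (i : ι) : V.1 *ᵥ (Pi.single i 1 : ι → ℝ) ≠ 0 := fun h => by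
  have h1 := congrArg (fun x => ((V⁻¹).1 *ᵥ x) i) h
  simp only [mulVec_mulVec, Units.inv_mul, one_mulVec, mulVec_zero, Pi.single_eq_same,
    Pi.zero_apply] at h1
  exact one_ne_zero h1

theorem der_of_col (V : GL ι ℝ) {D : Matrix ι ι ℝ}
    (h : ∀ i j, D *ᵥ br β (V.1 *ᵥ Pi.single i 1) (V.1 *ᵥ Pi.single j 1) =
      br β (D *ᵥ (V.1 *ᵥ Pi.single i 1)) (V.1 *ᵥ Pi.single j 1) +
        br β (V.1 *ᵥ Pi.single i 1) (D *ᵥ (V.1 *ᵥ Pi.single j 1))) : IsDer β D := by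
  intro x y
  refine cind V (P := fun x => D *ᵥ br β x y = br β (D *ᵥ x) y + br β x (D *ᵥ y)) ?_
    (fun x x' hx hx' => ?_) (fun c x hx => ?_) (fun i => ?_) x
  · simp only [Lie1Aux.br_zero_left, mulVec_zero, add_zero]
  · simp only [Lie1Aux.br_add_left, mulVec_add, hx, hx']
    abel
  · simp only [Lie1Aux.br_smul_left, mulVec_smul, hx, smul_add]
  · refine cind V (P := fun y => D *ᵥ br β (V.1 *ᵥ Pi.single i 1) y =
      br β (D *ᵥ (V.1 *ᵥ Pi.single i 1)) y + br β (V.1 *ᵥ Pi.single i 1) (D *ᵥ y)) ?_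
      (fun x x' hx hx' => ?_) (fun c x hx => ?_) (h i) y
    · simp only [Lie1Aux.br_zero_right, mulVec_zero, add_zero]
    · simp only [Lie1Aux.br_add_right, mulVec_add, hx, hx']
      abel
    · simp only [Lie1Aux.br_smul_right, mulVec_smul, hx, smul_add]

theorem tr_kil (a : AutL β) : a.1.1ᵀ * kilM β = kilM β * (a⁻¹).1.1 := by
  conv_rhs => rw [← kilM_inv a, Matrix.mul_assoc, ← val_mul, mul_inv_cancel]
  exact (Matrix.mul_one _).symm

theorem sqrt (hL : IsLie β) (hθ : IsCartan θ) {p : AutL β} (h1 : p * θ * p = θ)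
    (h2 : ∀ v, v ≠ 0 → kil β v ((θ * p).1.1 *ᵥ v) < 0) :
    ∃ X : ι → ℝ, θ.1.1 *ᵥ X = -X ∧ eA β X * eA β X = p := by
  have h3 : θ * p = p⁻¹ * θ := by rw [eq_inv_mul_iff_mul_eq, ← mul_assoc, h1]
  obtain ⟨V, d, hp⟩ := exists_diag (A := p.1.1) hθ.posDef (by
    rw [Matrix.neg_mul, Matrix.mul_neg, ← Matrix.mul_assoc, tr_kil, Matrix.mul_assoc,
      Matrix.mul_assoc, ← val_mul, ← val_mul, h3])
  have hc : ∀ i, p.1.1 *ᵥ (V.1 *ᵥ Pi.single i 1) = d i • (V.1 *ᵥ Pi.single i 1) := fun i => by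
    rw [hp, diag_mulVec_col]
  have hd : ∀ i, 0 < d i := fun i => by
    have a1 := h2 _ (col_ne V i)
    rw [act_mul, hc, mulVec_smul, ← kilL_apply, map_smul, kilL_apply, smul_eq_mul] at a1
    exact pos_of_mul_neg_left a1 (hθ.2 _ (col_ne V i)).le
  have he : ∀ (v : ι → ℝ) (c : ℝ), p.1.1 *ᵥ v = c • v →
      (V.1 * diagonal (fun i => Real.log (d i) / 2) * (V⁻¹).1) *ᵥ v = (Real.log c / 2) • v :=
    fun v c hv => diag_mulVec_eigen V d (fun c => Real.log c / 2) (hp ▸ hv)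
  obtain ⟨X, hX⟩ := IsDer.exists_adM hL hθ.kilND
    (D := V.1 * diagonal (fun i => Real.log (d i) / 2) * (V⁻¹).1) (der_of_col V fun i j => by
      rw [he _ (d i * d j) (by
          rw [p.2, hc, hc, Lie1Aux.br_smul_left, Lie1Aux.br_smul_right, smul_smul]),
        he _ _ (hc i), he _ _ (hc j), Lie1Aux.br_smul_left, Lie1Aux.br_smul_right, ← add_smul,
        Real.log_mul (hd i).ne' (hd j).ne', add_div])
  refine ⟨X, hθ.kilND.adM_injective ?_, Lie1Aux.aut_ext (col_ext V fun i => ?_)⟩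
  · have a1 : adM β X * θ.1.1 = -(θ.1.1 * adM β X) := by
      refine col_ext V fun i => ?_
      have a2 : p.1.1 *ᵥ (θ.1.1 *ᵥ (V.1 *ᵥ Pi.single i 1)) =
          (d i)⁻¹ • (θ.1.1 *ᵥ (V.1 *ᵥ Pi.single i 1)) := by
        conv_rhs => rw [← h1, act_mul, act_mul, hc, mulVec_smul, mulVec_smul, smul_smul,
          inv_mul_cancel₀ (hd i).ne', one_smul]
      rw [neg_mulVec, ← mulVec_mulVec, ← mulVec_mulVec, ← hX, he _ _ a2, he _ _ (hc i),
        mulVec_smul, Real.log_inv, neg_div, neg_smul]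
    have a3 : (θ⁻¹).1.1 = θ.1.1 := by rw [inv_eq_of_mul_eq_one_right hθ.1]
    have a4 : θ.1.1 * θ.1.1 = 1 := by rw [← val_mul, hθ.1]; rfl
    have a5 : adM β (θ.1.1 *ᵥ X) = θ.1.1 * adM β X * (θ⁻¹).1.1 := Lie1Aux.adM_conj θ.2 X
    rw [a5, a3, Matrix.mul_assoc, a1, Matrix.mul_neg, ← Matrix.mul_assoc, a4, Matrix.one_mul]
    exact (map_neg (adL β) X).symm
  · rw [act_mul, eA_val hL, ← hX, exp_diag, diag_mulVec_col, mulVec_smul, diag_mulVec_col,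
      smul_smul, ← Real.exp_add, add_halves, Real.exp_log (hd i), hc]

end PolarAux

theorem exists_polar (hL : IsLie β) (hθ : IsCartan θ) (g : AutL β) :
    ∃ (X : ι → ℝ) (u : AutL β), θ.1.1 *ᵥ X = -X ∧ u * θ = θ * u ∧ g = eA β X * u := by
  have h0 : ∀ a : AutL β, θ * (θ * a) = a := fun a => by rw [← mul_assoc, hθ.1, one_mul]
  obtain ⟨X, h1, h2⟩ := PolarAux.sqrt hL hθ (p := g * θ * g⁻¹ * θ)
    (by simp only [mul_assoc, h0, inv_mul_cancel_left, mul_inv_cancel_left]) fun v hv => by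
      have a1 : (θ * g).1.1 *ᵥ ((g⁻¹ * θ).1.1 *ᵥ v) = v := by
        rw [← PolarAux.act_mul, mul_assoc, mul_inv_cancel_left, hθ.1, PolarAux.act_one]
      have a2 := hθ.2 ((g⁻¹ * θ).1.1 *ᵥ v) fun h => hv (by rw [← a1, h, mulVec_zero])
      rw [← IsoL.kil (θ * g).2, a1, ← PolarAux.act_mul, ← PolarAux.act_mul] at a2
      simpa only [mul_assoc] using a2
  have h3 := conj_eA hL θ X
  rw [h1, eA_neg hL] at h3
  have h4 : θ * (eA β X)⁻¹ = eA β X * θ := by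
    rw [← h3, mul_assoc, h0, inv_eq_of_mul_eq_one_right hθ.1]
  have h5 : g * θ = eA β X * eA β X * θ * g := by
    simp only [h2, mul_assoc, h0, inv_mul_cancel, mul_one]
  refine ⟨X, (eA β X)⁻¹ * g, h1, ?_, (mul_inv_cancel_left _ _).symm⟩
  rw [mul_assoc, h5, ← mul_assoc θ, h4]
  simp only [mul_assoc, inv_mul_cancel_left]

end Pool.Agent.P.MP_3c2f8c_gt.E6
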