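import Pool.Agent.P.MP_3c2f8c_gt.E6.An.Model
import Pool.Agent.P.MP_3c2f8c_gt.An.Spec

/-! E6AN-Trace1: the spectral expansion of the trace. -/

namespace Pool.Agent.P.MP_3c2f8c_gt.E6

set_option linter.unusedSectionVars false

open Matrix MeasureTheory Topology

variable {Y : Type} [TopologicalSpace Y] [T2Space Y] [LocallyCompactSpace Y]
  [SecondCountableTopology Y] [MeasurableSpace Y] [BorelSpace Y] {ν : Measure Y}
  [IsFiniteMeasureOnCompacts ν] [ν.IsOpenPosMeasure] {G : Type} [Group G] [Countable G]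
  [MulAction G Y] {D : Set Y}
  {k q : Y → Y → ℝ} {L Q : Module.End ℝ (CI Y G)}

theorem Act.trace_hasSum (A : Act G ν D) (hk : PK k) (hi : KInv G k) (hs : ∀ w v, k w v = k v w)
    (hq : PK q) (hqi : KInv G q) (hL : IsK ν k L) (hQ : IsK ν q Q) (hc : Commute L Q) :
    HasSum (fun t : ℝ => t ^ 2 * trOn (L.eigenspace t) Q)
      (∫ w in D, perK G (kcomp ν k (kcomp ν q k)) w w ∂ν) := by
  have := A.finite
  obtain ⟨r, hr0, hr, -⟩ := A.exists_toL2
  obtain ⟨T, hT, h1, h2⟩ := A.exists_model hk hi hL hr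
  obtain ⟨S, hS, h3, -⟩ := A.exists_model hq hqi hQ hr
  have bk := A.bk hk hi
  have bq := A.bk hq hqi
  have hc' : T.comp S = S.comp T := by
    have e1 := IsOp.comp bk bq hT hS
    have e2 := IsOp.comp bq bk hS hT
    have e3 := A.per_eq_of_isK (hk.comp hq) (hq.comp hk) (IsK.mul hk hq hL hQ)
      (by rw [hc.eq]; exact IsK.mul hq hk hQ hL)
    simp only [A.per_kcomp hk hq hqi, e3] at e1
    simp only [A.per_kcomp hq hk hi] at e2
    exact e1.unique e2
  have H := trace_expansion bk (perK_symm hi hs) (A.equi hk hi) bq hT hS hc'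
  simp only [A.per_kcomp hq hk hi, A.per_kcomp hk (hq.comp hk) (A.kinv_kcomp hqi hi)] at H
  refine H.congr_fun fun t => ?_
  by_cases ht : t = 0
  · simp [ht]
  have hm : ∀ x ∈ L.eigenspace t, r x ∈ Module.End.eigenspace T.toLinearMap t := fun x hx =>
    Module.End.mem_eigenspace_iff.2
      ((h1 x).trans (by rw [Module.End.mem_eigenspace_iff.1 hx, map_smul]))
  have hU : ∀ x ∈ L.eigenspace t, Q x ∈ L.eigenspace t := fun x hx =>
    Module.End.mapsTo_genEigenspace_of_comm hc t 1 hx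
  have hb : Function.Bijective (r.restrict hm) := by
    refine ⟨fun x y h => Subtype.ext (hr0 (congrArg Subtype.val h)), fun φ => ?_⟩
    obtain ⟨f, hf⟩ := h2 φ
    have h4 : T φ = t • φ.1 := Module.End.mem_eigenspace_iff.1 φ.2
    have h5 : r (t⁻¹ • f) = φ := by rw [map_smul, ← hf, h4, inv_smul_smul₀ ht]
    refine ⟨⟨t⁻¹ • f, Module.End.mem_eigenspace_iff.2 (hr0 ?_)⟩, Subtype.ext h5⟩
    rw [← h1, map_smul r t, h5, h4]
  rw [SpecAux.trOn_conj (LinearEquiv.ofBijective _ hb) (S := S.toLinearMap) hU (c := 1)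
    fun f => (h3 f).trans (one_smul ℝ _).symm, one_mul]

end Pool.Agent.P.MP_3c2f8c_gt.E6
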